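import Pool.Agent.L0h56.CS.Uni

/-!
Averages over the uniform potential and the Cauchy potential.
-/

set_option autoImplicit false
set_option linter.unusedSectionVars false
set_option linter.unusedVariables false

open scoped BigOperators
open Complex MeasureTheory

namespace Pool.Agent.L0h56.CS

variable {J : Type*} [DecidableEq J] {ι : Type*} [Fintype ι] [DecidableEq ι]

/-- the law of the uniform variables -/
noncomputable abbrev PU (c : ℝ) (J : Type*) : Measure (J → ℝ) := Measure.infinitePi fun _ : J => unif c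

/-- background plus uniform potential -/
def Vw (e : ι → J) (V0 : ι → ℝ) (ω : J → ℝ) (x : ι) : ℝ := V0 x + ω (e x)

/-- the diagonal without lead, everything revealed -/
noncomputable def q0 (e : ι → J) (V γ : ι → ℝ) (η : ℝ) (ξ : J → ℝ) (x : ι) : ℂ :=
  ((V x + γ x * ξ (e x) : ℝ) : ℂ) - η * I

/-- the Green function without lead -/
noncomputable def Fr (K : ι → ι → ℝ) (e : ι → J) (V γ : ι → ℝ) (η : ℝ) (ξ : J → ℝ) (a : ι) : ℂ :=
  Gr K (q0 e V γ η ξ) a a

theorem q0_neg (e : ι → J) (V γ : ι → ℝ) {η : ℝ} (hη : 0 < η) (ξ : J → ℝ) (x : ι) :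
    (q0 e V γ η ξ x).im < 0 := by
  unfold q0
  simp
  exact hη

section

variable {K : ι → ι → ℝ} (hK : ∀ x y, K x y = K y x) {e : ι → J} (he : Function.Injective e)
  {V V0 γ : ι → ℝ} (hγ : ∀ x, 0 ≤ γ x) {η : ℝ} (hη : 0 < η) (a : ι)
  {lay : ι → ℕ} (hlay : ∀ x y, K x y ≠ 0 → lay x ≤ lay y + 1) (hD : ∀ x, ∑ y, |K x y| ≤ 4)

include hK hγ hη

/-- removing the lead -/
theorem lead {U : Finset J} (hU : ∀ x, e x ∈ U) (ξ : J → ℝ) :
    (Fr K e V γ η ξ a).im ≤ (1 + ‖Fr K e V γ η ξ a‖) ^ 2 * ((1 - ‖Rf K e V γ η a U ξ‖ ^ 2) / 4) := by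
  have hd : dg e V γ η a U ξ = Function.update (q0 e V γ η ξ) a (q0 e V γ η ξ a + -I) := by
    funext x
    unfold dg q0
    by_cases hx : x = a
    · subst hx
      rw [Function.update_self, if_pos (hU x), if_pos rfl]
      push_cast
      ring
    · rw [Function.update_of_ne hx, if_pos (hU x), if_neg hx]
      push_cast
      ring
  have hn := q0_neg e V γ hη ξ
  have ht : (q0 e V γ η ξ a + -I).im < 0 := by
    have := hn a
    simp only [add_im, neg_im, I_im]
    linarith
  have hne := one_add_ne hK hn a (-I) ht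
  have hg : gg K e V γ η a U ξ a * (1 + -I * Fr K e V γ η ξ a) = Fr K e V γ η ξ a := by
    unfold gg Fr
    rw [hd, Gr_update hK hn a (-I) ht, sub_mul, div_mul_cancel₀ _ hne]
    ring
  set F := Fr K e V γ η ξ a with hF
  have hR : Rf K e V γ η a U ξ * (1 - I * F) = 1 + I * F := by
    unfold Rf
    linear_combination (2 * I) * hg
  have h1 : ‖Rf K e V γ η a U ξ‖ ^ 2 * ‖1 - I * F‖ ^ 2 = ‖1 + I * F‖ ^ 2 := by
    rw [← mul_pow, ← norm_mul, hR]
  have h2 : ‖1 - I * F‖ ^ 2 - ‖1 + I * F‖ ^ 2 = 4 * F.im := by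
    rw [← Complex.normSq_eq_norm_sq, ← Complex.normSq_eq_norm_sq, Complex.normSq_apply,
      Complex.normSq_apply]
    simp only [add_re, one_re, mul_re, I_re, I_im, add_im, one_im, mul_im, sub_re, sub_im]
    ring
  have h3 : F.im = ‖1 - I * F‖ ^ 2 * ((1 - ‖Rf K e V γ η a U ξ‖ ^ 2) / 4) := by linarith
  rw [h3]
  refine mul_le_mul_of_nonneg_right ?_ ?_
  · refine pow_le_pow_left₀ (norm_nonneg _) ?_ 2
    refine (norm_sub_le _ _).trans ?_
    rw [norm_one, norm_mul, Complex.norm_I, one_mul]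
  · have := Rf_le hK (e := e) (V := V) hγ hη a U ξ
    have : ‖Rf K e V γ η a U ξ‖ ^ 2 ≤ 1 := pow_le_one₀ (norm_nonneg _) this
    linarith

theorem gg_sq_le (B : Finset J) (ξ : J → ℝ) (x : ι) :
    ‖gg K e V γ η a B ξ x‖ ^ 2 ≤ 1 / (4 * η) := by
  have h1 := sum_le hK (e := e) (V := V) hγ hη a B ξ
  have h2 : ab e γ η B x * ‖gg K e V γ η a B ξ x‖ ^ 2 ≤ 1 / 4 :=
    (Finset.single_le_sum (f := fun x => ab e γ η B x * ‖gg K e V γ η a B ξ x‖ ^ 2)
      (fun x _ => mul_nonneg (ab_pos hγ hη B x).le (sq_nonneg _)) (Finset.mem_univ x)).trans h1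
  have h3 : η ≤ ab e γ η B x := by
    unfold ab
    split_ifs
    · linarith
    · have := hγ x; linarith
  rw [le_div_iff₀ (by positivity)]
  nlinarith [mul_le_mul_of_nonneg_right h3 (sq_nonneg ‖gg K e V γ η a B ξ x‖)]

theorem gg_a_le (B : Finset J) (ξ : J → ℝ) : ‖gg K e V γ η a B ξ a‖ ≤ 1 := by
  have h := norm_Gr_le hK (im_dg_neg (e := e) (V := V) hγ hη a B ξ) a
  rw [im_dg, if_pos rfl] at h
  have := ab_pos (e := e) hγ hη B a
  unfold gg
  nlinarith [norm_nonneg (Gr K (dg e V γ η a B ξ) a a)]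

theorem meas_gg2 (B : Finset J) (x : ι) :
    Measurable fun z : (J → ℝ) × (J → ℝ) => gg K e (Vw e V0 z.1) γ η a B z.2 x := by
  unfold gg
  refine measurable_Gr K (fun z => ?_) x a
  unfold dg Vw
  refine Measurable.sub (Measurable.sub (Measurable.add ?_ ?_) measurable_const)
    measurable_const
  · exact Complex.measurable_ofReal.comp (measurable_const.add
      ((measurable_pi_apply _).comp measurable_fst))
  · by_cases h : e z ∈ B
    · simp only [if_pos h]
      exact Complex.measurable_ofReal.comp (measurable_const.mul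
        ((measurable_pi_apply _).comp measurable_snd))
    · simp only [if_neg h]
      exact measurable_const

theorem meas_Rf2 (B : Finset J) :
    Measurable fun z : (J → ℝ) × (J → ℝ) => Rf K e (Vw e V0 z.1) γ η a B z.2 := by
  unfold Rf
  exact measurable_const.add (measurable_const.mul (meas_gg2 hK hγ hη a B a))

theorem meas_Fr2 :
    Measurable fun z : (J → ℝ) × (J → ℝ) => Fr K e (Vw e V0 z.1) γ η z.2 a := by
  unfold Fr
  refine measurable_Gr K (fun z => ?_) a a
  unfold q0 Vw
  refine Measurable.sub (Complex.measurable_ofReal.comp (Measurable.add ?_ ?_)) measurable_const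
  · exact measurable_const.add ((measurable_pi_apply _).comp measurable_fst)
  · exact measurable_const.mul ((measurable_pi_apply _).comp measurable_snd)

include he

theorem dg_shift (B : Finset J) (ξ : J → ℝ) (x : ι) (ω : J → ℝ) (s : ℝ) :
    dg e (Vw e V0 (Function.update ω (e x) s)) γ η a B ξ =
      Function.update (dg e (Vw e V0 (Function.update ω (e x) 0)) γ η a B ξ) x
        (dg e (Vw e V0 (Function.update ω (e x) 0)) γ η a B ξ x + (s : ℂ)) := by
  funext y
  by_cases hy : y = x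
  · subst hy
    rw [Function.update_self]
    unfold dg Vw
    rw [Function.update_self, Function.update_self]
    push_cast
    ring
  · have hne : e y ≠ e x := fun h => hy (he h)
    rw [Function.update_of_ne hy]
    unfold dg Vw
    rw [Function.update_of_ne hne, Function.update_of_ne hne]

theorem q0_shift (ξ : J → ℝ) (x : ι) (ω : J → ℝ) (s : ℝ) :
    q0 e (Vw e V0 (Function.update ω (e x) s)) γ η ξ =
      Function.update (q0 e (Vw e V0 (Function.update ω (e x) 0)) γ η ξ) x
        (q0 e (Vw e V0 (Function.update ω (e x) 0)) γ η ξ x + (s : ℂ)) := by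
  funext y
  by_cases hy : y = x
  · subst hy
    rw [Function.update_self]
    unfold q0 Vw
    rw [Function.update_self, Function.update_self]
    push_cast
    ring
  · have hne : e y ≠ e x := fun h => hy (he h)
    rw [Function.update_of_ne hy]
    unfold q0 Vw
    rw [Function.update_of_ne hne, Function.update_of_ne hne]

theorem one_gg {c : ℝ} (hc : 0 < c) (B : Finset J) (ξ : J → ℝ) (x : ι) (ω : J → ℝ) :
    ∫ s, ‖gg K e (Vw e V0 (Function.update ω (e x) s)) γ η a B ξ x‖ ^ 2 ∂(unif c) ≤ Real.pi / c := by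
  have hP := unif_prob c hc
  have hsh := dg_shift hK he (V0 := V0) hγ hη a B ξ x ω
  have hpn : ∀ y, (dg e (Vw e V0 (Function.update ω (e x) 0)) γ η a B ξ y).im < 0 :=
    im_dg_neg hγ hη a B ξ
  have hle : ∀ s : ℝ, ‖gg K e (Vw e V0 (Function.update ω (e x) s)) γ η a B ξ a‖ ≤ 1 :=
    fun s => gg_a_le hK (e := e) (V := Vw e V0 (Function.update ω (e x) s)) hγ hη a B ξ
  unfold gg at hle ⊢
  generalize dg e (Vw e V0 (Function.update ω (e x) 0)) γ η a B ξ = p at hsh hpn
  simp only [hsh] at hle ⊢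
  obtain ⟨u, v, hv, hb⟩ := col_bound hK hpn x a hle
  calc ∫ s : ℝ, ‖Gr K (Function.update p x (p x + (s : ℂ))) x a‖ ^ 2 ∂(unif c)
      ≤ ∫ s, 2 * v / ((s - u) ^ 2 + v ^ 2) ∂(unif c) := by
        refine integral_mono_of_nonneg (Filter.Eventually.of_forall fun _ => sq_nonneg _)
          ?_ (Filter.Eventually.of_forall fun s => hb s)
        exact ((lor_integrable (u := u) hv).smul_measure ENNReal.ofReal_ne_top).mono_measure (unif_le c)
    _ ≤ 1 / (2 * c) * ∫ s, 2 * v / ((s - u) ^ 2 + v ^ 2) :=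
        unif_int_le hc (lor_integrable hv) fun s => by positivity
    _ = Real.pi / c := by
        rw [lor_integral hv]
        field_simp

theorem one_F {c κ : ℝ} (hc : 0 < c) (hκ : 0 < κ) (ξ : J → ℝ) (ω : J → ℝ) :
    ∫ s, (if κ < ‖Fr K e (Vw e V0 (Function.update ω (e a) s)) γ η ξ a‖
        then (1 : ℝ) else 0) ∂(unif c) ≤ 1 / (c * κ) := by
  have hP := unif_prob c hc
  have hsh := q0_shift hK he (V0 := V0) hγ hη ξ a ω
  have hpn : ∀ y, (q0 e (Vw e V0 (Function.update ω (e a) 0)) γ η ξ y).im < 0 := q0_neg e _ γ hη ξ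
  unfold Fr
  generalize q0 e (Vw e V0 (Function.update ω (e a) 0)) γ η ξ = p at hsh hpn
  simp only [hsh]
  obtain ⟨u, v, hv, hs⟩ := pole hK hpn a
  have hnorm : ∀ s : ℝ, κ < ‖Gr K (Function.update p a (p a + (s : ℂ))) a a‖ →
      s ∈ Set.Icc (u - 1 / κ) (u + 1 / κ) := by
    intro s h1
    rw [sh_col hK hpn a a s, hs s] at h1
    have hg0 : Gr K p a a ≠ 0 := Gr_ne hK hpn a
    have h3 : Gr K p a a / (Gr K p a a * (((s - u : ℝ) : ℂ) - v * I)) =
        (((s - u : ℝ) : ℂ) - v * I)⁻¹ := by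
      rw [← div_div, div_self hg0, one_div]
    rw [h3, norm_inv] at h1
    have h4 : |s - u| ≤ ‖(((s - u : ℝ) : ℂ) - v * I)‖ := by
      have := Complex.abs_re_le_norm (((s - u : ℝ) : ℂ) - v * I)
      simpa using this
    have h5 : 0 < ‖(((s - u : ℝ) : ℂ) - v * I)‖ := by
      by_contra hcon
      have h6 : ‖(((s - u : ℝ) : ℂ) - v * I)‖ = 0 :=
        le_antisymm (not_lt.1 hcon) (norm_nonneg _)
      rw [h6, inv_zero] at h1
      linarith
    have h7 : ‖(((s - u : ℝ) : ℂ) - v * I)‖ < 1 / κ := by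
      rw [lt_div_iff₀ hκ]
      have h8 := mul_lt_mul_of_pos_left h1 h5
      rw [mul_inv_cancel₀ h5.ne'] at h8
      exact h8
    have h9 := abs_le.1 (h4.trans h7.le)
    exact ⟨by linarith [h9.1], by linarith [h9.2]⟩
  calc ∫ s : ℝ, (if κ < ‖Gr K (Function.update p a (p a + (s : ℂ))) a a‖
        then (1 : ℝ) else 0) ∂(unif c)
      ≤ ∫ s, (Set.Icc (u - 1 / κ) (u + 1 / κ)).indicator (fun _ => (1 : ℝ)) s ∂(unif c) := by
        refine integral_mono_of_nonneg (Filter.Eventually.of_forall fun s => ?_) ?_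
          (Filter.Eventually.of_forall fun s => ?_)
        · simp only [Pi.zero_apply]
          split_ifs <;> norm_num
        · exact (integrable_const (1 : ℝ)).indicator measurableSet_Icc
        · simp only
          split_ifs with h
          · rw [Set.indicator_of_mem (hnorm s h)]
          · exact Set.indicator_nonneg (fun _ _ => zero_le_one) _
    _ ≤ 1 / (2 * c) * ∫ s, (Set.Icc (u - 1 / κ) (u + 1 / κ)).indicator (fun _ => (1 : ℝ)) s := by
        refine unif_int_le hc ?_ fun s => Set.indicator_nonneg (fun _ _ => zero_le_one) _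
        rw [integrable_indicator_iff measurableSet_Icc]
        exact integrableOn_const (by simp)
    _ = 1 / (c * κ) := by
        rw [integral_indicator measurableSet_Icc, setIntegral_const]
        have h10 : (u + 1 / κ) - (u - 1 / κ) = 2 / κ := by ring
        rw [Real.volume_real_Icc_of_le (by have : 0 < 1 / κ := by positivity
                                           linarith), h10, smul_eq_mul]
        field_simp

theorem meas_ggω (B : Finset J) (ξ : J → ℝ) (x : ι) :
    Measurable fun ω : J → ℝ => gg K e (Vw e V0 ω) γ η a B ξ x := by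
  unfold gg
  refine measurable_Gr K (fun z => ?_) x a
  unfold dg Vw
  refine Measurable.sub (Measurable.sub (Measurable.add ?_ measurable_const) measurable_const)
    measurable_const
  exact Complex.measurable_ofReal.comp (measurable_const.add (measurable_pi_apply _))

theorem meas_Frω (ξ : J → ℝ) :
    Measurable fun ω : J → ℝ => Fr K e (Vw e V0 ω) γ η ξ a := by
  unfold Fr
  refine measurable_Gr K (fun z => ?_) a a
  unfold q0 Vw
  refine Measurable.sub (Complex.measurable_ofReal.comp (Measurable.add ?_ measurable_const))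
    measurable_const
  exact measurable_const.add (measurable_pi_apply _)

/-- mean square of the Green function, `ξ` fixed -/
theorem mean_ggω {c : ℝ} (hc : 0 < c) (B : Finset J) (ξ : J → ℝ) (x : ι) :
    ∫ ω, ‖gg K e (Vw e V0 ω) γ η a B ξ x‖ ^ 2 ∂(PU c J) ≤ Real.pi / c + 1 := by
  have hP := unif_prob c hc
  have hpi : 0 ≤ Real.pi / c := div_nonneg Real.pi_pos.le hc.le
  by_cases hx : x = a
  · subst hx
    have h1 : ∫ ω, ‖gg K e (Vw e V0 ω) γ η x B ξ x‖ ^ 2 ∂(PU c J) ≤ ∫ ω, (1 : ℝ) ∂(PU c J) := by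
      refine integral_mono_of_nonneg (Filter.Eventually.of_forall fun _ => sq_nonneg _)
        (integrable_const _) (Filter.Eventually.of_forall fun ω => ?_)
      exact pow_le_one₀ (norm_nonneg _) (gg_a_le hK (e := e) (V := Vw e V0 ω) hγ hη x B ξ)
    simp only [integral_const, probReal_univ, one_smul] at h1
    linarith
  · have hb : ∀ ω : J → ℝ, ‖‖gg K e (Vw e V0 ω) γ η a B ξ x‖ ^ 2‖ ≤ 1 / (4 * η) := by
      intro ω
      rw [Real.norm_of_nonneg (sq_nonneg _)]
      exact gg_sq_le hK hγ hη a B ξ x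
    have hres := resample (unif c) (f := fun ω : J → ℝ => ‖gg K e (Vw e V0 ω) γ η a B ξ x‖ ^ 2)
      ((meas_ggω hK he hγ hη a B ξ x).norm.pow_const 2) hb (e x)
    have h3 : ∫ ω, ∫ s, ‖gg K e (Vw e V0 (Function.update ω (e x) s)) γ η a B ξ x‖ ^ 2
          ∂(unif c) ∂(PU c J) ≤ ∫ ω, Real.pi / c ∂(PU c J) := by
      refine integral_mono_of_nonneg (Filter.Eventually.of_forall fun _ =>
        integral_nonneg fun _ => sq_nonneg _) (integrable_const _)
        (Filter.Eventually.of_forall fun ω => one_gg hK he hγ hη a hc B ξ x ω)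
    simp only [integral_const, probReal_univ, one_smul] at h3
    have h4 := hres.trans_le h3
    linarith

/-- the Green function is rarely large, `ξ` fixed -/
theorem tail_Frω {c κ : ℝ} (hc : 0 < c) (hκ : 0 < κ) (ξ : J → ℝ) :
    ∫ ω, (if κ < ‖Fr K e (Vw e V0 ω) γ η ξ a‖ then (1 : ℝ) else 0) ∂(PU c J) ≤ 1 / (c * κ) := by
  have hP := unif_prob c hc
  have hb : ∀ ω : J → ℝ, ‖(if κ < ‖Fr K e (Vw e V0 ω) γ η ξ a‖ then (1 : ℝ) else 0)‖ ≤ 1 := by
    intro ω
    split_ifs <;> simp
  have hm : Measurable fun ω : J → ℝ =>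
      (if κ < ‖Fr K e (Vw e V0 ω) γ η ξ a‖ then (1 : ℝ) else 0) :=
    Measurable.ite (measurableSet_lt measurable_const (meas_Frω hK he hγ hη a ξ).norm)
      measurable_const measurable_const
  have hres := resample (unif c) (f := fun ω : J → ℝ =>
    (if κ < ‖Fr K e (Vw e V0 ω) γ η ξ a‖ then (1 : ℝ) else 0)) hm hb (e a)
  have h3 : ∫ ω, ∫ s, (if κ < ‖Fr K e (Vw e V0 (Function.update ω (e a) s)) γ η ξ a‖
      then (1 : ℝ) else 0) ∂(unif c) ∂(PU c J) ≤ ∫ ω, 1 / (c * κ) ∂(PU c J) := by
    refine integral_mono_of_nonneg (Filter.Eventually.of_forall fun _ =>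
      integral_nonneg fun _ => ?_) (integrable_const _)
      (Filter.Eventually.of_forall fun ω => one_F hK he hγ hη a hc hκ ξ ω)
    simp only [Pi.zero_apply]
    split_ifs <;> norm_num
  simp only [integral_const, probReal_univ, one_smul] at h3
  exact hres.trans_le h3

/-- mean square of the Green function -/
theorem mean_gg {c : ℝ} (hc : 0 < c) (B : Finset J) (x : ι) :
    ∫ z, ‖gg K e (Vw e V0 z.1) γ η a B z.2 x‖ ^ 2 ∂((PU c J).prod (PC J)) ≤ Real.pi / c + 1 := by
  have hP := unif_prob c hc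
  have hint : Integrable (fun z : (J → ℝ) × (J → ℝ) => ‖gg K e (Vw e V0 z.1) γ η a B z.2 x‖ ^ 2)
      ((PU c J).prod (PC J)) := by
    refine Integrable.of_bound (C := 1 / (4 * η))
      ((meas_gg2 hK hγ hη a B x).norm.pow_const 2).aestronglyMeasurable
      (Filter.Eventually.of_forall fun z => ?_)
    rw [Real.norm_of_nonneg (sq_nonneg _)]
    exact gg_sq_le hK hγ hη a B z.2 x
  rw [integral_prod_symm _ hint]
  have h3 : ∫ ξ, ∫ ω, ‖gg K e (Vw e V0 ω) γ η a B ξ x‖ ^ 2 ∂(PU c J) ∂(PC J) ≤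
      ∫ ξ, (Real.pi / c + 1) ∂(PC J) := by
    refine integral_mono_of_nonneg (Filter.Eventually.of_forall fun _ =>
      integral_nonneg fun _ => sq_nonneg _) (integrable_const _)
      (Filter.Eventually.of_forall fun ξ => mean_ggω hK he hγ hη a hc B ξ x)
  simp only [integral_const, probReal_univ, one_smul] at h3
  exact h3

/-- the Green function is rarely large -/
theorem tail_Fr {c κ : ℝ} (hc : 0 < c) (hκ : 0 < κ) :
    ∫ z, (if κ < ‖Fr K e (Vw e V0 z.1) γ η z.2 a‖ then (1 : ℝ) else 0) ∂((PU c J).prod (PC J)) ≤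
      1 / (c * κ) := by
  have hP := unif_prob c hc
  have hle : ∀ (z : (J → ℝ) × (J → ℝ)),
      ‖(if κ < ‖Fr K e (Vw e V0 z.1) γ η z.2 a‖ then (1 : ℝ) else 0)‖ ≤ 1 := by
    intro z
    split_ifs <;> simp
  have hint : Integrable (fun z : (J → ℝ) × (J → ℝ) =>
      (if κ < ‖Fr K e (Vw e V0 z.1) γ η z.2 a‖ then (1 : ℝ) else 0)) ((PU c J).prod (PC J)) :=
    Integrable.of_bound (C := 1) (Measurable.ite (measurableSet_lt measurable_const
      (meas_Fr2 hK hγ hη a).norm) measurable_const measurable_const).aestronglyMeasurable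
      (Filter.Eventually.of_forall hle)
  rw [integral_prod_symm _ hint]
  have h3 : ∫ ξ, ∫ ω, (if κ < ‖Fr K e (Vw e V0 ω) γ η ξ a‖ then (1 : ℝ) else 0) ∂(PU c J) ∂(PC J) ≤
      ∫ ξ, 1 / (c * κ) ∂(PC J) := by
    refine integral_mono_of_nonneg (Filter.Eventually.of_forall fun _ =>
      integral_nonneg fun _ => ?_) (integrable_const _)
      (Filter.Eventually.of_forall fun ξ => tail_Frω hK he hγ hη a hc hκ ξ)
    simp only [Pi.zero_apply]
    split_ifs <;> norm_num
  simp only [integral_const, probReal_univ, one_smul] at h3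
  exact h3

end

end Pool.Agent.L0h56.CS
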