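import Pool.Agent.L0h56.CS.Fin

/-!
Boxes in `ℤ^d` and the nearest neighbour matrix.
-/

set_option autoImplicit false
set_option linter.unusedSectionVars false
set_option linter.unusedVariables false

open scoped BigOperators
open Complex MeasureTheory

namespace Pool.Agent.L0h56.CS

/-- `(Δ_ω u)(j) = -∑_{|n|=1} (u(j+n) - u(j)) + ω_j u(j)` -/
noncomputable def H {d : ℕ} (ω : (Fin d → ℤ) → ℝ) (u : (Fin d → ℤ) → ℂ) (j : Fin d → ℤ) : ℂ :=
  -∑ i : Fin d, ((u (j + Pi.single i 1) - u j) + (u (j - Pi.single i 1) - u j)) + (ω j : ℂ) * u j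

/-- square summable functions -/
def SqSummable {d : ℕ} (u : (Fin d → ℤ) → ℂ) : Prop := Summable fun x => ‖u x‖ ^ 2

/-- `m` is the spectral measure of `A` with respect to the vector `g` -/
def IsSpectralMeasure {d : ℕ} (A : ((Fin d → ℤ) → ℂ) → (Fin d → ℤ) → ℂ) (g : (Fin d → ℤ) → ℂ)
    (m : Measure ℝ) : Prop :=
  IsFiniteMeasure m ∧ ∀ z : ℂ, z.im ≠ 0 → ∃ u : (Fin d → ℤ) → ℂ, SqSummable u ∧
    (∀ x, A u x - z * u x = g x) ∧
    ∫ t : ℝ, ((t : ℂ) - z)⁻¹ ∂m = ∑' x, (starRingEnd ℂ) (g x) * u x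

/-- the box of radius `N` -/
noncomputable def Bx (d N : ℕ) : Finset (Fin d → ℤ) := Fintype.piFinset fun _ : Fin d => Finset.Icc (-(N : ℤ)) N

theorem mem_Bx {d N : ℕ} (x : Fin d → ℤ) : x ∈ Bx d N ↔ ∀ i, -(N : ℤ) ≤ x i ∧ x i ≤ N := by
  unfold Bx
  simp [Fintype.mem_piFinset]

theorem Bx_mono (d : ℕ) : Monotone (Bx d) := by
  intro a b hab x hx
  rw [mem_Bx] at hx ⊢
  intro i
  have := hx i
  have h : (a : ℤ) ≤ b := by exact_mod_cast hab
  constructor <;> linarith [this.1, this.2]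

theorem Bx_exh {d : ℕ} (x : Fin d → ℤ) : ∃ N, x ∈ Bx d N := by
  refine ⟨∑ i, (x i).natAbs, ?_⟩
  rw [mem_Bx]
  intro i
  have h : (x i).natAbs ≤ ∑ i, (x i).natAbs :=
    Finset.single_le_sum (f := fun i => (x i).natAbs) (fun _ _ => Nat.zero_le _) (Finset.mem_univ i)
  omega

theorem Bx_tendsto (d : ℕ) : Filter.Tendsto (Bx d) Filter.atTop Filter.atTop :=
  Filter.tendsto_atTop_finset_of_monotone (Bx_mono d) Bx_exh

theorem Bx_card (d N : ℕ) : (Bx d N).card = (2 * N + 1) ^ d := by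
  unfold Bx
  rw [Fintype.card_piFinset]
  simp only [Int.card_Icc, Finset.prod_const, Finset.card_univ, Fintype.card_fin]
  congr 1
  omega

/-- nearest neighbour matrix -/
noncomputable def KK {d : ℕ} (x y : Fin d → ℤ) : ℝ :=
  -∑ i : Fin d, ((if y = x + Pi.single i 1 then 1 else 0) + (if y = x - Pi.single i 1 then 1 else 0))

theorem KK_symm {d : ℕ} (x y : Fin d → ℤ) : KK x y = KK y x := by
  unfold KK
  congr 1
  refine Finset.sum_congr rfl fun i _ => ?_
  rw [add_comm]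
  congr 1
  · refine if_congr ?_ rfl rfl
    constructor
    · intro h; rw [h]; abel
    · intro h; rw [h]; abel
  · refine if_congr ?_ rfl rfl
    constructor
    · intro h; rw [h]; abel
    · intro h; rw [h]; abel

theorem KK_nbr {d : ℕ} {x y : Fin d → ℤ} (h : KK x y ≠ 0) :
    ∃ i, y = x + Pi.single i 1 ∨ y = x - Pi.single i 1 := by
  by_contra hcon
  push Not at hcon
  apply h
  unfold KK
  rw [neg_eq_zero]
  refine Finset.sum_eq_zero fun i _ => ?_
  rw [if_neg (hcon i).1, if_neg (hcon i).2, add_zero]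

theorem KK_abs {d : ℕ} (x y : Fin d → ℤ) : |KK x y| =
    ∑ i : Fin d, ((if y = x + Pi.single i 1 then 1 else 0) + (if y = x - Pi.single i 1 then 1 else 0)) := by
  unfold KK
  rw [abs_neg, abs_of_nonneg]
  refine Finset.sum_nonneg fun i _ => ?_
  split_ifs <;> norm_num

theorem KK_sum {d : ℕ} (S : Finset (Fin d → ℤ)) (x : Fin d → ℤ) :
    ∑ y ∈ S, |KK x y| ≤ 2 * d := by
  simp only [KK_abs]
  rw [Finset.sum_comm]
  calc ∑ i : Fin d, ∑ y ∈ S, (((if y = x + Pi.single i 1 then 1 else 0) : ℝ) +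
        (if y = x - Pi.single i 1 then 1 else 0)) ≤ ∑ i : Fin d, (2 : ℝ) := by
        refine Finset.sum_le_sum fun i _ => ?_
        rw [Finset.sum_add_distrib, Finset.sum_ite_eq', Finset.sum_ite_eq']
        split_ifs <;> norm_num
    _ = 2 * d := by
        rw [Finset.sum_const, Finset.card_univ, Fintype.card_fin, nsmul_eq_mul]; ring

theorem KK_apply {d : ℕ} (S : Finset (Fin d → ℤ)) (x : Fin d → ℤ) (u : (Fin d → ℤ) → ℂ) :
    ∑ y ∈ S, (KK x y : ℂ) * u y =
      -∑ i : Fin d, ((if x + Pi.single i 1 ∈ S then u (x + Pi.single i 1) else 0) +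
        (if x - Pi.single i 1 ∈ S then u (x - Pi.single i 1) else 0)) := by
  unfold KK
  push_cast
  simp only [neg_mul, Finset.sum_neg_distrib, Finset.sum_mul]
  rw [Finset.sum_comm]
  congr 1
  refine Finset.sum_congr rfl fun i _ => ?_
  simp only [add_mul, apply_ite Complex.ofReal, Complex.ofReal_one, Complex.ofReal_zero, ite_mul,
    one_mul, zero_mul, Finset.sum_add_distrib, Finset.sum_ite_eq']

/-- layers in `ℤ²` -/
def ly (x : Fin 2 → ℤ) : ℕ := max (x 0).natAbs (x 1).natAbs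

theorem ly_le {x : Fin 2 → ℤ} {N : ℕ} : ly x ≤ N ↔ x ∈ Bx 2 N := by
  rw [mem_Bx]
  unfold ly
  rw [Fin.forall_fin_two]
  omega

theorem KK_ly {x y : Fin 2 → ℤ} (h : KK x y ≠ 0) : ly x ≤ ly y + 1 := by
  obtain ⟨i, hi⟩ := KK_nbr h
  have h2 : ∀ k : Fin 2, (x k).natAbs ≤ (y k).natAbs + 1 := by
    intro k
    rcases hi with hi | hi
    · have := congrFun hi k
      by_cases hk : k = i
      · subst hk; simp at this; omega
      · simp [hk] at this; omega
    · have := congrFun hi k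
      by_cases hk : k = i
      · subst hk; simp at this; omega
      · simp [hk] at this; omega
  have h3 := h2 0
  have h4 := h2 1
  unfold ly
  omega

theorem card_layer (N r : ℕ) :
    ((Finset.univ.filter fun x : Bx 2 N => ly x.1 = 2 * r ∨ ly x.1 = 2 * r + 1).card : ℝ) ≤
      32 * (r + 1) := by
  have h1 : (Finset.univ.filter fun x : Bx 2 N => ly x.1 = 2 * r ∨ ly x.1 = 2 * r + 1).card ≤
      (Bx 2 (2 * r + 1) \ (if r = 0 then ∅ else Bx 2 (2 * r - 1))).card := by
    refine Finset.card_le_card_of_injOn Subtype.val (fun x hx => ?_) Subtype.val_injective.injOn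
    have h2 := (Finset.mem_filter.1 hx).2
    rw [Finset.mem_coe, Finset.mem_sdiff]
    refine ⟨ly_le.1 (by omega), ?_⟩
    split_ifs with hr
    · simp
    · intro h3
      have := ly_le.2 h3
      omega
  have h4 : (Bx 2 (2 * r + 1) \ (if r = 0 then ∅ else Bx 2 (2 * r - 1))).card ≤ 32 * (r + 1) := by
    by_cases hr : r = 0
    · subst hr
      rw [if_pos rfl, Finset.sdiff_empty, Bx_card]
      norm_num
    · rw [if_neg hr, Finset.card_sdiff_of_subset (Bx_mono 2 (by omega)), Bx_card, Bx_card]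
      obtain ⟨s, rfl⟩ : ∃ s, r = s + 1 := ⟨r - 1, by omega⟩
      have e1 : 2 * (s + 1) - 1 = 2 * s + 1 := by omega
      rw [e1, Nat.sub_le_iff_le_add]
      nlinarith
  exact_mod_cast h1.trans h4

theorem card_ball (N r : ℕ) :
    ((Finset.univ.filter fun x : Bx 2 N => ly x.1 ≤ 2 * r).card : ℝ) ≤ (4 * r + 1) ^ 2 := by
  have h1 : (Finset.univ.filter fun x : Bx 2 N => ly x.1 ≤ 2 * r).card ≤ (Bx 2 (2 * r)).card := by
    refine Finset.card_le_card_of_injOn Subtype.val (fun x hx => ?_) Subtype.val_injective.injOn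
    exact ly_le.1 (Finset.mem_filter.1 hx).2
  rw [Bx_card] at h1
  have h2 : ((Finset.univ.filter fun x : Bx 2 N => ly x.1 ≤ 2 * r).card : ℝ) ≤
      ((2 * (2 * r) + 1) ^ 2 : ℕ) := by exact_mod_cast h1
  refine h2.trans (le_of_eq ?_)
  push_cast
  ring

end Pool.Agent.L0h56.CS
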