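import Pool.Agent.W335.LLCay

/-!
Averages over a Cauchy variable.
-/

set_option autoImplicit false

open scoped BigOperators
open Complex MeasureTheory Pool.Agent.W792.LL Pool.Agent.W335.LLCay

namespace Pool.Agent.L0h56.CS

/-- the standard Cauchy law -/
noncomputable abbrev cauchy : Measure ℝ := ProbabilityTheory.cauchyMeasure 0 1

instance : IsProbabilityMeasure cauchy := by
  unfold cauchy
  infer_instance

theorem cay_avg (γ : ℝ) (g : ℂ) (hb : ‖1 + 2 * I * γ * g‖ < 1) :
    ∫ s : ℝ, ((γ : ℂ) * (s + I)) / (1 + γ * (s + I) * g) ∂cauchy = 0 := by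
  set b : ℂ := 1 + 2 * I * γ * g with hbdef
  have hser : ∀ s : ℝ, HasSum (fun k : ℕ => -(2 * I * γ) * b ^ k * cay s ^ (k + 1))
      (((γ : ℂ) * (s + I)) / (1 + γ * (s + I) * g)) := by
    intro s
    have hc := norm_cay s
    have hlt : ‖cay s * b‖ < 1 := by rw [norm_mul, hc, one_mul]; exact hb
    have h1 := (hasSum_geometric_of_norm_lt_one hlt).mul_left (-(2 * I * γ) * cay s)
    have h2 : -(2 * I * γ) * cay s * (1 - cay s * b)⁻¹ =
        ((γ : ℂ) * (s + I)) / (1 + γ * (s + I) * g) := by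
      have hs := sub_ne s
      have hne : 1 - cay s * b ≠ 0 := by
        intro h0
        have : cay s * b = 1 := by linear_combination -h0
        rw [this] at hlt
        simp at hlt
      have hne2 : (1 - cay s * b) * (s - I) = -(2 * I) * (1 + γ * (s + I) * g) := by
        unfold cay
        rw [hbdef]
        field_simp
        ring
      have hne3 : 1 + (γ : ℂ) * (s + I) * g ≠ 0 := by
        intro h0
        rw [h0, mul_zero] at hne2
        rcases mul_eq_zero.1 hne2 with h | h
        · exact hne h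
        · exact hs h
      rw [← div_eq_mul_inv, div_eq_div_iff hne hne3]
      have h5 : cay s * (s - I) = s + I := by
        unfold cay
        field_simp
      have h6 : (-(2 * I * γ) * cay s * (1 + γ * (s + I) * g)) * (s - I) =
          (γ * (s + I) * (1 - cay s * b)) * (s - I) := by
        calc (-(2 * I * γ) * cay s * (1 + γ * (s + I) * g)) * (s - I)
            = -(2 * I * γ) * (1 + γ * (s + I) * g) * (cay s * (s - I)) := by ring
          _ = γ * (s + I) * (-(2 * I) * (1 + γ * (s + I) * g)) := by rw [h5]; ring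
          _ = _ := by rw [← hne2]; ring
      exact mul_right_cancel₀ hs h6
    rw [h2] at h1
    refine h1.congr_fun fun k => ?_
    rw [mul_pow, pow_succ]
    ring
  have hint : ∀ k : ℕ, Integrable (fun s : ℝ => -(2 * I * γ) * b ^ k * cay s ^ (k + 1)) cauchy := by
    intro k
    refine Integrable.of_bound (C := ‖-(2 * I * γ) * b ^ k‖)
      ((continuous_const.mul (cont_cay.pow _)).aestronglyMeasurable) (ae_of_all _ fun s => ?_)
    rw [norm_mul, norm_pow, norm_cay, one_pow, mul_one]
  have hsum : Summable fun k : ℕ => ∫ s, ‖-(2 * I * γ) * b ^ k * cay s ^ (k + 1)‖ ∂cauchy := by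
    have e : ∀ k : ℕ, ∫ s, ‖-(2 * I * γ) * b ^ k * cay s ^ (k + 1)‖ ∂cauchy =
        ‖-(2 * I * γ)‖ * ‖b‖ ^ k := by
      intro k
      have : ∀ s : ℝ, ‖-(2 * I * γ) * b ^ k * cay s ^ (k + 1)‖ = ‖-(2 * I * γ)‖ * ‖b‖ ^ k := by
        intro s
        rw [norm_mul, norm_pow (cay s), norm_cay, one_pow, mul_one, norm_mul, norm_pow]
      simp only [this]
      rw [integral_const]
      simp
    simp only [e]
    exact (summable_geometric_of_lt_one (norm_nonneg _) hb).mul_left _
  have h3 := hasSum_integral_of_summable_integral_norm hint hsum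
  have h4 : ∀ s : ℝ, (∑' k : ℕ, -(2 * I * γ) * b ^ k * cay s ^ (k + 1)) =
      ((γ : ℂ) * (s + I)) / (1 + γ * (s + I) * g) := fun s => (hser s).tsum_eq
  simp only [h4] at h3
  have h5 : ∀ k : ℕ, ∫ s, -(2 * I * γ) * b ^ k * cay s ^ (k + 1) ∂cauchy = 0 := by
    intro k
    rw [integral_const_mul, moment (k + 1) (Nat.succ_pos k), mul_zero]
  simp only [h5] at h3
  exact h3.unique hasSum_zero

/-- the contraction property -/
theorem norm_b_lt {γ η : ℝ} (hγ : 0 < γ) (hη : 0 < η) {g : ℂ} (hg : g ≠ 0)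
    (h : (γ + η) * ‖g‖ ^ 2 ≤ g.im) : ‖1 + 2 * I * γ * g‖ < 1 := by
  have hg' : 0 < ‖g‖ ^ 2 := by positivity
  have h1 : ‖1 + 2 * I * γ * g‖ ^ 2 = 1 - 4 * γ * g.im + 4 * γ ^ 2 * ‖g‖ ^ 2 := by
    rw [← Complex.normSq_eq_norm_sq, ← Complex.normSq_eq_norm_sq, Complex.normSq_apply,
      Complex.normSq_apply]
    simp only [add_re, one_re, mul_re, I_re, I_im, ofReal_re, ofReal_im, add_im, one_im, mul_im,
      re_ofNat, im_ofNat]
    ring
  have h2 : ‖1 + 2 * I * γ * g‖ ^ 2 < 1 := by
    rw [h1]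
    nlinarith [mul_pos (mul_pos hγ hη) hg', mul_le_mul_of_nonneg_left h hγ.le]
  nlinarith [norm_nonneg (1 + 2 * I * γ * g)]

end Pool.Agent.L0h56.CS
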