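import Pool.Agent.Helper570.Troy.Prob

/-!
A family `F B`, indexed by finite sets of revealed coordinates, with the averaging property: the
squared distances of the one-point differences add up (Bessel's inequality).
-/

set_option autoImplicit false
set_option linter.unusedSectionVars false

open scoped BigOperators
open MeasureTheory

namespace Pool.Agent.L0h56.CS

variable {J : Type*} [DecidableEq J] {X : Type*} [MeasurableSpace X] (ν : Measure X)
  [IsProbabilityMeasure ν]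

/-- a family of functions of the revealed coordinates with the averaging property -/
structure Mart (F : Finset J → (J → X) → ℂ) : Prop where
  meas : ∀ B, Measurable (F B)
  bdd : ∃ M : ℝ, ∀ B ξ, ‖F B ξ‖ ≤ M
  adapted : ∀ B j, j ∉ B → ∀ ξ s, F B (Function.update ξ j s) = F B ξ
  avg : ∀ B j, j ∉ B → ∀ ξ, ∫ s, F (insert j B) (Function.update ξ j s) ∂ν = F B ξ

theorem mp_update (j : J) : MeasurePreserving (fun z : (J → X) × X => Function.update z.1 j z.2)
    ((Measure.infinitePi fun _ : J => ν).prod ν) (Measure.infinitePi fun _ : J => ν) :=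
  ⟨Helper570.Troy.measurable_update_pair j, Helper570.Troy.map_update (fun _ : J => ν) j⟩

theorem resample {E : Type*} [NormedAddCommGroup E] [NormedSpace ℝ E] [MeasurableSpace E]
    [BorelSpace E] [SecondCountableTopology E] {f : (J → X) → E} (hf : Measurable f) {M : ℝ} (hM : ∀ ξ, ‖f ξ‖ ≤ M) (j : J) :
    ∫ ξ, f ξ ∂(Measure.infinitePi fun _ : J => ν) =
      ∫ ξ, ∫ s, f (Function.update ξ j s) ∂ν ∂(Measure.infinitePi fun _ : J => ν) := by
  have h := mp_update ν j
  have hint : Integrable (fun p : (J → X) × X => f (Function.update p.1 j p.2))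
      ((Measure.infinitePi fun _ : J => ν).prod ν) :=
    Integrable.of_bound ((hf.comp h.measurable).aestronglyMeasurable) M
      (Filter.Eventually.of_forall fun p => hM _)
  calc ∫ ξ, f ξ ∂(Measure.infinitePi fun _ : J => ν)
      = ∫ ξ, f ξ ∂(Measure.map (fun p : (J → X) × X => Function.update p.1 j p.2)
          ((Measure.infinitePi fun _ : J => ν).prod ν)) := by rw [h.map_eq]
    _ = ∫ p, f (Function.update p.1 j p.2) ∂((Measure.infinitePi fun _ : J => ν).prod ν) :=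
        integral_map h.measurable.aemeasurable hf.aestronglyMeasurable
    _ = _ := integral_prod _ hint

variable {ν} {F : Finset J → (J → X) → ℂ}

theorem Mart.al (hF : Mart ν F) {B : Finset J} {j : J} (hj : j ∉ B) {h : (J → X) → ℂ}
    (hm : Measurable h) {M : ℝ} (hM : ∀ ξ, ‖h ξ‖ ≤ M)
    (hi : ∀ ξ s, h (Function.update ξ j s) = h ξ) :
    ∫ ξ, F (insert j B) ξ * h ξ ∂(Measure.infinitePi fun _ : J => ν) =
      ∫ ξ, F B ξ * h ξ ∂(Measure.infinitePi fun _ : J => ν) := by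
  obtain ⟨N, hN⟩ := hF.bdd
  rw [resample ν (f := fun ξ => F (insert j B) ξ * h ξ) ((hF.meas _).mul hm) (M := |N| * |M|)
    (fun ξ => by
      rw [norm_mul]
      exact mul_le_mul ((hN _ ξ).trans (le_abs_self _)) ((hM ξ).trans (le_abs_self _))
        (norm_nonneg _) (abs_nonneg _)) j]
  refine integral_congr_ae (Filter.Eventually.of_forall fun ξ => ?_)
  simp only [hi]
  rw [integral_mul_const, hF.avg B j hj ξ]

theorem Mart.al' (hF : Mart ν F) (S : Finset J) {B : Finset J} (hd : Disjoint S B)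
    {h : (J → X) → ℂ} (hm : Measurable h) {M : ℝ} (hM : ∀ ξ, ‖h ξ‖ ≤ M)
    (hi : ∀ j ∈ S, ∀ ξ s, h (Function.update ξ j s) = h ξ) :
    ∫ ξ, F (B ∪ S) ξ * h ξ ∂(Measure.infinitePi fun _ : J => ν) =
      ∫ ξ, F B ξ * h ξ ∂(Measure.infinitePi fun _ : J => ν) := by
  induction S using Finset.induction_on with
  | empty => simp
  | insert j S hjS ih =>
    rw [Finset.disjoint_insert_left] at hd
    rw [Finset.union_insert, hF.al (by simp [hd.1, hjS]) hm hM (hi j (Finset.mem_insert_self _ _))]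
    exact ih hd.2 fun k hk => hi k (Finset.mem_insert_of_mem hk)

theorem pyth {Ω : Type*} [MeasurableSpace Ω] (P : Measure Ω) [IsProbabilityMeasure P] {A C : Ω → ℂ}
    (hA : Measurable A) (hC : Measurable C) {M : ℝ} (hMA : ∀ ω, ‖A ω‖ ≤ M) (hMC : ∀ ω, ‖C ω‖ ≤ M)
    (h : ∫ ω, A ω * (starRingEnd ℂ) (C ω) ∂P = ∫ ω, C ω * (starRingEnd ℂ) (C ω) ∂P) :
    ∫ ω, ‖A ω‖ ^ 2 ∂P = ∫ ω, ‖C ω‖ ^ 2 ∂P + ∫ ω, ‖A ω - C ω‖ ^ 2 ∂P := by
  have hb : ∀ (f g : Ω → ℂ), Measurable f → Measurable g → (∀ ω, ‖f ω‖ ≤ M) → (∀ ω, ‖g ω‖ ≤ M) →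
      Integrable (fun ω => f ω * (starRingEnd ℂ) (g ω)) P := by
    intro f g hf hg h1 h2
    refine Integrable.of_bound (C := M * M)
      ((hf.mul (Complex.continuous_conj.measurable.comp hg)).aestronglyMeasurable)
      (Filter.Eventually.of_forall fun ω => ?_)
    rw [norm_mul, Complex.norm_conj]
    exact mul_le_mul (h1 ω) (h2 ω) (norm_nonneg _) ((norm_nonneg _).trans (h1 ω))
  have hsq : ∀ (f : Ω → ℂ) (ω : Ω), ‖f ω‖ ^ 2 = (f ω * (starRingEnd ℂ) (f ω)).re := by
    intro f ω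
    rw [Complex.mul_conj, Complex.ofReal_re, Complex.normSq_eq_norm_sq]
  have e : ∀ ω, ‖A ω - C ω‖ ^ 2 = (A ω * (starRingEnd ℂ) (A ω)).re -
      2 * (A ω * (starRingEnd ℂ) (C ω)).re + (C ω * (starRingEnd ℂ) (C ω)).re := by
    intro ω
    rw [← Complex.normSq_eq_norm_sq, Complex.normSq_apply]
    simp only [Complex.mul_re, Complex.conj_re, Complex.conj_im, Complex.sub_re, Complex.sub_im]
    ring
  have i1 := (hb A A hA hA hMA hMA)
  have i2 := (hb A C hA hC hMA hMC)
  have i3 := (hb C C hC hC hMC hMC)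
  have hre : ∀ f : Ω → ℂ, Integrable f P → ∫ ω, (f ω).re ∂P = (∫ ω, f ω ∂P).re := by
    intro f hf
    exact integral_re hf
  simp only [e, hsq A, hsq C]
  rw [integral_add, integral_sub, integral_const_mul, hre _ i1, hre _ i2, hre _ i3, h]
  · ring
  · exact i1.re
  · exact i2.re.const_mul 2
  · exact i1.re.sub (i2.re.const_mul 2)
  · exact i3.re

theorem Mart.mono_one (hF : Mart ν F) {B : Finset J} {j : J} (hj : j ∉ B) :
    ∫ ξ, ‖F (insert j B) ξ‖ ^ 2 ∂(Measure.infinitePi fun _ : J => ν) =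
      ∫ ξ, ‖F B ξ‖ ^ 2 ∂(Measure.infinitePi fun _ : J => ν) +
      ∫ ξ, ‖F (insert j B) ξ - F B ξ‖ ^ 2 ∂(Measure.infinitePi fun _ : J => ν) := by
  obtain ⟨N, hN⟩ := hF.bdd
  refine pyth _ (hF.meas _) (hF.meas _) (hN _) (hN _) ?_
  refine hF.al hj (Complex.continuous_conj.measurable.comp (hF.meas B)) (M := N) (fun ξ => ?_)
    fun ξ s => ?_
  · simp only [Function.comp_apply, Complex.norm_conj]; exact hN _ _
  · simp only [Function.comp_apply, hF.adapted B j hj ξ s]

theorem Mart.diff_le (hF : Mart ν F) (S : Finset J) {B : Finset J} {j : J} (hj : j ∉ B)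
    (hjS : j ∉ S) (hd : Disjoint S B) :
    ∫ ξ, ‖F (insert j B) ξ - F B ξ‖ ^ 2 ∂(Measure.infinitePi fun _ : J => ν) ≤
      ∫ ξ, ‖F (insert j (B ∪ S)) ξ - F (B ∪ S) ξ‖ ^ 2 ∂(Measure.infinitePi fun _ : J => ν) := by
  obtain ⟨N, hN⟩ := hF.bdd
  have hN' : ∀ (B C : Finset J) (ξ : J → X), ‖F B ξ - F C ξ‖ ≤ 2 * N := by
    intro B C ξ
    refine (norm_sub_le _ _).trans ?_
    have := hN B ξ
    have := hN C ξ
    linarith
  have hY : Measurable fun ξ => (starRingEnd ℂ) (F (insert j B) ξ - F B ξ) :=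
    Complex.continuous_conj.measurable.comp ((hF.meas _).sub (hF.meas _))
  have hYi : ∀ k ∈ S, ∀ ξ s, (starRingEnd ℂ) (F (insert j B) (Function.update ξ k s) -
      F B (Function.update ξ k s)) = (starRingEnd ℂ) (F (insert j B) ξ - F B ξ) := by
    intro k hk ξ s
    have h1 : k ∉ B := Finset.disjoint_left.1 hd hk
    have h2 : k ∉ insert j B := by
      rw [Finset.mem_insert, not_or]
      exact ⟨fun h => hjS (h ▸ hk), h1⟩
    rw [hF.adapted _ _ h1, hF.adapted _ _ h2]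
  have hYb : ∀ ξ, ‖(starRingEnd ℂ) (F (insert j B) ξ - F B ξ)‖ ≤ 2 * N := fun ξ => by
    rw [Complex.norm_conj]; exact hN' _ _ _
  have e1 := hF.al' S (B := insert j B) (by
    rw [Finset.disjoint_insert_right]; exact ⟨hjS, hd⟩) hY hYb hYi
  have e2 := hF.al' S (B := B) hd hY hYb hYi
  have hint : ∀ C : Finset J, Integrable (fun ξ => F C ξ * (starRingEnd ℂ) (F (insert j B) ξ - F B ξ))
      (Measure.infinitePi fun _ : J => ν) := by
    intro C
    refine Integrable.of_bound (C := N * (2 * N)) (((hF.meas C).mul hY).aestronglyMeasurable)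
      (Filter.Eventually.of_forall fun ξ => ?_)
    rw [norm_mul]
    exact mul_le_mul (hN _ _) (hYb ξ) (norm_nonneg _) ((norm_nonneg _).trans (hN C ξ))
  have h : ∫ ξ, (F (insert j (B ∪ S)) ξ - F (B ∪ S) ξ) *
      (starRingEnd ℂ) (F (insert j B) ξ - F B ξ) ∂(Measure.infinitePi fun _ : J => ν) =
      ∫ ξ, (F (insert j B) ξ - F B ξ) *
      (starRingEnd ℂ) (F (insert j B) ξ - F B ξ) ∂(Measure.infinitePi fun _ : J => ν) := by
    simp only [sub_mul]
    rw [integral_sub (hint _) (hint _), integral_sub (hint _) (hint _), ← e1, ← e2,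
      Finset.insert_union]
  have h2 := pyth (Measure.infinitePi fun _ : J => ν) ((hF.meas (insert j (B ∪ S))).sub (hF.meas (B ∪ S)))
    ((hF.meas (insert j B)).sub (hF.meas B)) (fun ξ => hN' _ _ ξ) (fun ξ => hN' _ _ ξ) h
  simp only [Pi.sub_apply] at h2
  rw [h2]
  have h3 : 0 ≤ ∫ ξ, ‖F (insert j (B ∪ S)) ξ - F (B ∪ S) ξ - (F (insert j B) ξ - F B ξ)‖ ^ 2
      ∂(Measure.infinitePi fun _ : J => ν) := integral_nonneg fun _ => sq_nonneg _
  linarith

/-- **Bessel's inequality** -/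
theorem Mart.bessel (hF : Mart ν F) (S : Finset J) {B : Finset J} (hd : Disjoint S B) :
    ∫ ξ, ‖F B ξ‖ ^ 2 ∂(Measure.infinitePi fun _ : J => ν) +
      ∑ j ∈ S, ∫ ξ, ‖F (insert j B) ξ - F B ξ‖ ^ 2 ∂(Measure.infinitePi fun _ : J => ν) ≤
      ∫ ξ, ‖F (B ∪ S) ξ‖ ^ 2 ∂(Measure.infinitePi fun _ : J => ν) := by
  induction S using Finset.induction_on with
  | empty => simp
  | insert j S hjS ih =>
    rw [Finset.disjoint_insert_left] at hd
    rw [Finset.sum_insert hjS, Finset.union_insert, hF.mono_one (B := B ∪ S) (by simp [hd.1, hjS])]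
    have h1 := ih hd.2
    have h2 := hF.diff_le S hd.1 hjS hd.2
    linarith

theorem Mart.mono (hF : Mart ν F) {B C : Finset J} (h : B ⊆ C) :
    ∫ ξ, ‖F B ξ‖ ^ 2 ∂(Measure.infinitePi fun _ : J => ν) ≤
      ∫ ξ, ‖F C ξ‖ ^ 2 ∂(Measure.infinitePi fun _ : J => ν) := by
  have h1 := hF.bessel (C \ B) (B := B) Finset.sdiff_disjoint
  rw [Finset.union_sdiff_of_subset h] at h1
  have h2 : 0 ≤ ∑ j ∈ C \ B, ∫ ξ, ‖F (insert j B) ξ - F B ξ‖ ^ 2 ∂(Measure.infinitePi fun _ : J => ν) :=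
    Finset.sum_nonneg fun _ _ => integral_nonneg fun _ => sq_nonneg _
  linarith

end Pool.Agent.L0h56.CS
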