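import Pool.Agent.L0h56.CS.Mat
import Pool.Agent.L0h56.CS.Cay
import Pool.Agent.L0h56.CS.Mar

/-!
The reflection amplitude of a finite system with Cauchy potentials.
-/

set_option autoImplicit false
set_option linter.unusedSectionVars false
set_option linter.unusedVariables false

open scoped BigOperators
open Complex MeasureTheory

namespace Pool.Agent.L0h56.CS

variable {J : Type*} [DecidableEq J] {ι : Type*} [Fintype ι] [DecidableEq ι]

/-- diagonal: background `V`, at the revealed sites the Cauchy potential, at the others an absorption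
of strength `γ`, a uniform absorption `η` and a lead at `a` -/
noncomputable def dg (e : ι → J) (V γ : ι → ℝ) (η : ℝ) (a : ι) (B : Finset J) (ξ : J → ℝ) (x : ι) : ℂ :=
  (V x : ℂ) + (if e x ∈ B then ((γ x * ξ (e x) : ℝ) : ℂ) else -(γ x * I)) - η * I -
    (if x = a then I else 0)

/-- absorption at `x` -/
noncomputable def ab (e : ι → J) (γ : ι → ℝ) (η : ℝ) (B : Finset J) (x : ι) : ℝ :=
  η + (if e x ∈ B then 0 else γ x)

theorem im_dg (e : ι → J) (V γ : ι → ℝ) (η : ℝ) (a : ι) (B : Finset J) (ξ : J → ℝ) (x : ι) :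
    -(dg e V γ η a B ξ x).im = ab e γ η B x + (if x = a then 1 else 0) := by
  unfold dg ab
  split_ifs <;> simp <;> ring

theorem ab_pos {e : ι → J} {γ : ι → ℝ} (hγ : ∀ x, 0 ≤ γ x) {η : ℝ} (hη : 0 < η) (B : Finset J) (x : ι) :
    0 < ab e γ η B x := by
  unfold ab
  split_ifs
  · linarith
  · have := hγ x; linarith

theorem im_dg_neg {e : ι → J} {V γ : ι → ℝ} (hγ : ∀ x, 0 ≤ γ x) {η : ℝ} (hη : 0 < η) (a : ι)
    (B : Finset J) (ξ : J → ℝ) (x : ι) : (dg e V γ η a B ξ x).im < 0 := by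
  have h1 := im_dg e V γ η a B ξ x
  have h2 := ab_pos (e := e) hγ hη B x
  have h3 : (0 : ℝ) ≤ (if x = a then 1 else 0) := by split_ifs <;> norm_num
  linarith

/-- the column of the Green function -/
noncomputable def gg (K : ι → ι → ℝ) (e : ι → J) (V γ : ι → ℝ) (η : ℝ) (a : ι) (B : Finset J)
    (ξ : J → ℝ) (x : ι) : ℂ := Gr K (dg e V γ η a B ξ) x a

/-- the reflection amplitude -/
noncomputable def Rf (K : ι → ι → ℝ) (e : ι → J) (V γ : ι → ℝ) (η : ℝ) (a : ι) (B : Finset J)
    (ξ : J → ℝ) : ℂ := 1 + 2 * I * gg K e V γ η a B ξ a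

section

variable {K : ι → ι → ℝ} (hK : ∀ x y, K x y = K y x) {e : ι → J} (he : Function.Injective e)
  {V γ : ι → ℝ} (hγ : ∀ x, 0 ≤ γ x) {η : ℝ} (hη : 0 < η) (a : ι)

include hK hγ hη

/-- conservation of probability -/
theorem cons (B : Finset J) (ξ : J → ℝ) :
    1 - ‖Rf K e V γ η a B ξ‖ ^ 2 = 4 * ∑ x, ab e γ η B x * ‖gg K e V γ η a B ξ x‖ ^ 2 := by
  have h1 : ‖Rf K e V γ η a B ξ‖ ^ 2 = 1 - 4 * (gg K e V γ η a B ξ a).im +
      4 * ‖gg K e V γ η a B ξ a‖ ^ 2 := by
    unfold Rf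
    rw [← Complex.normSq_eq_norm_sq, ← Complex.normSq_eq_norm_sq, Complex.normSq_apply,
      Complex.normSq_apply]
    simp only [add_re, one_re, mul_re, I_re, I_im, add_im, one_im, mul_im,
      re_ofNat, im_ofNat]
    ring
  have h2 : (gg K e V γ η a B ξ a).im = ∑ x, ab e γ η B x * ‖gg K e V γ η a B ξ x‖ ^ 2 +
      ‖gg K e V γ η a B ξ a‖ ^ 2 := by
    unfold gg
    rw [im_Gr hK (im_dg_neg hγ hη a B ξ) a]
    simp only [im_dg, add_mul, Finset.sum_add_distrib, ite_mul, one_mul, zero_mul,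
      Finset.sum_ite_eq', Finset.mem_univ, if_true]
  rw [h1, h2]
  ring

theorem sum_le (B : Finset J) (ξ : J → ℝ) :
    ∑ x, ab e γ η B x * ‖gg K e V γ η a B ξ x‖ ^ 2 ≤ 1 / 4 := by
  have h1 := cons hK (e := e) (V := V) hγ hη a B ξ
  nlinarith [sq_nonneg ‖Rf K e V γ η a B ξ‖]

theorem Rf_le (B : Finset J) (ξ : J → ℝ) : ‖Rf K e V γ η a B ξ‖ ≤ 1 := by
  have h1 := cons hK (e := e) (V := V) hγ hη a B ξ
  have h2 : 0 ≤ ∑ x, ab e γ η B x * ‖gg K e V γ η a B ξ x‖ ^ 2 :=
    Finset.sum_nonneg fun x _ => mul_nonneg (ab_pos hγ hη B x).le (sq_nonneg _)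
  have h3 : ‖Rf K e V γ η a B ξ‖ ^ 2 ≤ 1 := by linarith
  nlinarith [norm_nonneg (Rf K e V γ η a B ξ)]

include he

theorem dg_update {B : Finset J} (y : ι) (hy : e y ∉ B) (ξ : J → ℝ) (s : ℝ) :
    dg e V γ η a (insert (e y) B) (Function.update ξ (e y) s) =
      Function.update (dg e V γ η a B ξ) y (dg e V γ η a B ξ y + (γ y : ℂ) * (s + I)) := by
  funext x
  by_cases hx : x = y
  · subst hx
    rw [Function.update_self]
    unfold dg
    rw [if_pos (Finset.mem_insert_self _ _), if_neg hy, Function.update_self]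
    push_cast
    ring
  · rw [Function.update_of_ne hx]
    have hne : e x ≠ e y := fun h => hx (he h)
    unfold dg
    rw [Function.update_of_ne hne]
    simp only [Finset.mem_insert, hne, false_or]

theorem dg_update' {B : Finset J} (y : ι) (hy : e y ∉ B) (ξ : J → ℝ) :
    dg e V γ η a (insert (e y) B) ξ =
      Function.update (dg e V γ η a B ξ) y (dg e V γ η a B ξ y + (γ y : ℂ) * (ξ (e y) + I)) := by
  have h := dg_update hK he (V := V) hγ hη a y hy ξ (ξ (e y))
  rwa [Function.update_eq_self] at h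

theorem im_t_neg {B : Finset J} (y : ι) (hy : e y ∉ B) (ξ : J → ℝ) (s : ℝ) :
    (dg e V γ η a B ξ y + (γ y : ℂ) * (s + I)).im < 0 := by
  have h := im_dg_neg (e := e) (V := V) hγ hη a (insert (e y) B) (Function.update ξ (e y) s) y
  rw [dg_update hK he hγ hη a y hy ξ s, Function.update_self] at h
  exact h

theorem Rf_update {B : Finset J} (y : ι) (hy : e y ∉ B) (ξ : J → ℝ) (s : ℝ) :
    Rf K e V γ η a (insert (e y) B) (Function.update ξ (e y) s) = Rf K e V γ η a B ξ -
      2 * I * (gg K e V γ η a B ξ y) ^ 2 * (((γ y : ℂ) * (s + I)) /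
        (1 + (γ y : ℂ) * (s + I) * Gr K (dg e V γ η a B ξ) y y)) := by
  unfold Rf gg
  rw [dg_update hK he hγ hη a y hy ξ s,
    Gr_update hK (im_dg_neg hγ hη a B ξ) y _ (im_t_neg hK he hγ hη a y hy ξ s),
    Gr_symm hK _ a y]
  ring

theorem Rf_insert {B : Finset J} (y : ι) (hy : e y ∉ B) (ξ : J → ℝ) :
    Rf K e V γ η a (insert (e y) B) ξ = Rf K e V γ η a B ξ -
      2 * I * (gg K e V γ η a B ξ y) ^ 2 * (((γ y : ℂ) * (ξ (e y) + I)) /
        (1 + (γ y : ℂ) * (ξ (e y) + I) * Gr K (dg e V γ η a B ξ) y y)) := by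
  have h := Rf_update hK he (V := V) hγ hη a y hy ξ (ξ (e y))
  rwa [Function.update_eq_self] at h

/-- `γ |G_yy| ≤ 1` at an absorbing site -/
theorem Gyy {B : Finset J} (y : ι) (hy : e y ∉ B) (ξ : J → ℝ) :
    γ y * ‖Gr K (dg e V γ η a B ξ) y y‖ ≤ 1 := by
  have h := norm_Gr_le hK (im_dg_neg (e := e) (V := V) hγ hη a B ξ) y
  rw [im_dg] at h
  unfold ab at h
  rw [if_neg hy] at h
  have h3 : (0 : ℝ) ≤ (if y = a then 1 else 0) := by split_ifs <;> norm_num
  nlinarith [norm_nonneg (Gr K (dg e V γ η a B ξ) y y)]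

/-- lower bound of the one-point differences -/
theorem diff_ge {B : Finset J} (y : ι) (hy : e y ∉ B) (ξ : J → ℝ) :
    γ y * ‖gg K e V γ η a B ξ y‖ ^ 2 ≤
      ‖Rf K e V γ η a (insert (e y) B) ξ - Rf K e V γ η a B ξ‖ := by
  rw [Rf_insert hK he hγ hη a y hy ξ]
  set t : ℂ := (γ y : ℂ) * (ξ (e y) + I) with ht
  set g : ℂ := Gr K (dg e V γ η a B ξ) y y with hg
  set u : ℂ := gg K e V γ η a B ξ y
  have hne : 1 + t * g ≠ 0 :=
    one_add_ne hK (im_dg_neg (e := e) (V := V) hγ hη a B ξ) y t (im_t_neg hK he hγ hη a y hy ξ _)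
  have h1 : Rf K e V γ η a B ξ - 2 * I * u ^ 2 * (t / (1 + t * g)) - Rf K e V γ η a B ξ =
      -(2 * I * u ^ 2 * (t / (1 + t * g))) := by ring
  rw [h1, norm_neg, norm_mul, norm_mul, norm_mul, norm_pow, norm_div, Complex.norm_I]
  have h2 : γ y ≤ ‖t‖ := by
    rw [ht, norm_mul, Complex.norm_real, Real.norm_of_nonneg (hγ y)]
    have h3 : (1 : ℝ) ≤ ‖(ξ (e y) : ℂ) + I‖ := by
      have := Complex.abs_im_le_norm ((ξ (e y) : ℂ) + I)
      simpa using this
    nlinarith [hγ y]
  have h4 := Gyy hK he (V := V) hγ hη a y hy ξ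
  rw [← hg] at h4
  have h5 : 0 < ‖1 + t * g‖ := norm_pos_iff.2 hne
  have h6 : γ y * ‖1 + t * g‖ ≤ 2 * ‖t‖ := by
    have h7 : ‖1 + t * g‖ ≤ 1 + ‖t‖ * ‖g‖ := by
      refine (norm_add_le _ _).trans ?_
      rw [norm_one, norm_mul]
    have h8 : γ y * ‖1 + t * g‖ ≤ γ y * (1 + ‖t‖ * ‖g‖) := mul_le_mul_of_nonneg_left h7 (hγ y)
    have h9 : ‖t‖ * (γ y * ‖g‖) ≤ ‖t‖ * 1 := mul_le_mul_of_nonneg_left h4 (norm_nonneg _)
    nlinarith
  have h10 : γ y ≤ 2 * (‖t‖ / ‖1 + t * g‖) := by
    rw [← mul_div_assoc, le_div_iff₀ h5]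
    exact h6
  have h11 : ‖(2 : ℂ)‖ = 2 := by norm_num
  rw [h11]
  nlinarith [sq_nonneg ‖u‖, mul_le_mul_of_nonneg_right h10 (sq_nonneg ‖u‖)]

theorem meas_gg (B : Finset J) (x : ι) : Measurable fun ξ : J → ℝ => gg K e V γ η a B ξ x := by
  unfold gg
  refine measurable_Gr K (fun z => ?_) x a
  unfold dg
  refine Measurable.sub (Measurable.sub (Measurable.add measurable_const ?_) measurable_const)
    measurable_const
  by_cases h : e z ∈ B
  · simp only [if_pos h]
    exact Complex.measurable_ofReal.comp (measurable_const.mul (measurable_pi_apply _))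
  · simp only [if_neg h]
    exact measurable_const

theorem mart : Mart cauchy (Rf K e V γ η a) where
  meas B := by
    unfold Rf
    exact measurable_const.add (measurable_const.mul (meas_gg hK he hγ hη a B a))
  bdd := ⟨1, fun B ξ => Rf_le hK hγ hη a B ξ⟩
  adapted B j hj ξ s := by
    have h : dg e V γ η a B (Function.update ξ j s) = dg e V γ η a B ξ := by
      funext x
      unfold dg
      by_cases hx : e x ∈ B
      · have hne : e x ≠ j := fun h => hj (h ▸ hx)
        rw [if_pos hx, if_pos hx, Function.update_of_ne hne]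
      · rw [if_neg hx, if_neg hx]
    unfold Rf gg
    rw [h]
  avg B j hj ξ := by
    by_cases hr : ∃ y, e y = j
    · obtain ⟨y, rfl⟩ := hr
      simp only [Rf_update hK he hγ hη a y hj ξ]
      have hz : ∫ s : ℝ, ((γ y : ℂ) * (s + I)) /
          (1 + γ y * (s + I) * Gr K (dg e V γ η a B ξ) y y) ∂cauchy = 0 := by
        rcases (hγ y).eq_or_lt with h0 | h0
        · rw [← h0]; simp
        · refine cay_avg _ _ (norm_b_lt h0 hη (Gr_ne hK (im_dg_neg hγ hη a B ξ) y) ?_)
          refine le_trans ?_ (im_Gr_ge hK (im_dg_neg hγ hη a B ξ) y y)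
          refine mul_le_mul_of_nonneg_right ?_ (sq_nonneg _)
          rw [im_dg]
          unfold ab
          rw [if_neg hj]
          have h3 : (0 : ℝ) ≤ (if y = a then 1 else 0) := by split_ifs <;> norm_num
          linarith
      have hint : Integrable (fun s : ℝ => 2 * I * (gg K e V γ η a B ξ y) ^ 2 * (((γ y : ℂ) * (s + I)) /
        (1 + (γ y : ℂ) * (s + I) * Gr K (dg e V γ η a B ξ) y y))) cauchy := by
        have h1 : ∀ s : ℝ, 2 * I * (gg K e V γ η a B ξ y) ^ 2 * (((γ y : ℂ) * (s + I)) /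
          (1 + (γ y : ℂ) * (s + I) * Gr K (dg e V γ η a B ξ) y y)) =
          Rf K e V γ η a B ξ - Rf K e V γ η a (insert (e y) B) (Function.update ξ (e y) s) := by
          intro s
          rw [Rf_update hK he hγ hη a y hj ξ s]
          ring
        simp only [h1]
        refine Integrable.of_bound (C := 2) ?_ (Filter.Eventually.of_forall fun s => ?_)
        · refine (measurable_const.sub ?_).aestronglyMeasurable
          unfold Rf
          refine measurable_const.add (measurable_const.mul ?_)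
          exact (meas_gg hK he hγ hη a _ a).comp (measurable_update ξ)
        · refine (norm_sub_le _ _).trans ?_
          have := Rf_le hK (e := e) (V := V) hγ hη a B ξ
          have := Rf_le hK (e := e) (V := V) hγ hη a (insert (e y) B) (Function.update ξ (e y) s)
          linarith
      rw [integral_sub (integrable_const _) hint, integral_const_mul, hz]
      simp
    · have h : ∀ s, dg e V γ η a (insert j B) (Function.update ξ j s) = dg e V γ η a B ξ := by
        intro s
        funext x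
        have hne : e x ≠ j := fun h => hr ⟨x, h⟩
        unfold dg
        rw [Function.update_of_ne hne]
        simp only [Finset.mem_insert, hne, false_or]
      unfold Rf gg
      simp only [h]
      simp

end

end Pool.Agent.L0h56.CS
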