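import Mathlib

/-!
Two divergent series.
-/

set_option autoImplicit false

open scoped BigOperators Topology
open Filter

namespace Pool.Agent.L0h56.CS

theorem blk (j : ℕ) : 1 / (2 * ((j : ℝ) + 1)) ≤
    ∑ n ∈ Finset.Ico ((2 : ℕ) ^ j) (2 ^ (j + 1)), 1 / ((n : ℝ) * (1 + Nat.log 2 n)) := by
  have h1 : ∀ n ∈ Finset.Ico ((2 : ℕ) ^ j) (2 ^ (j + 1)),
      1 / ((2 : ℝ) ^ (j + 1) * (1 + j)) ≤ 1 / ((n : ℝ) * (1 + Nat.log 2 n)) := by
    intro n hn
    rw [Finset.mem_Ico] at hn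
    have h2 : Nat.log 2 n = j := Nat.log_eq_of_pow_le_of_lt_pow hn.1 hn.2
    rw [h2]
    have h3 : (0 : ℝ) < n := by
      have : 0 < 2 ^ j := by positivity
      exact_mod_cast lt_of_lt_of_le this hn.1
    have h4 : (n : ℝ) ≤ 2 ^ (j + 1) := by exact_mod_cast hn.2.le
    refine one_div_le_one_div_of_le (by positivity) ?_
    exact mul_le_mul_of_nonneg_right h4 (by positivity)
  refine le_trans ?_ (Finset.sum_le_sum h1)
  rw [Finset.sum_const, Nat.card_Ico, nsmul_eq_mul]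
  have h5 : (2 : ℕ) ^ (j + 1) - 2 ^ j = 2 ^ j := by rw [pow_succ]; omega
  rw [h5]
  push_cast
  apply le_of_eq
  rw [pow_succ]
  field_simp
  ring

theorem div_log0 : ¬ Summable fun n : ℕ => 1 / ((n : ℝ) * (1 + Nat.log 2 n)) := by
  rw [not_summable_iff_tendsto_nat_atTop_of_nonneg fun n => by positivity]
  have h1 : ∀ J : ℕ, 1 / 2 * ∑ j ∈ Finset.range J, 1 / ((j : ℝ) + 1) ≤
      ∑ n ∈ Finset.range (2 ^ J), 1 / ((n : ℝ) * (1 + Nat.log 2 n)) := by
    intro J
    induction J with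
    | zero => simp
    | succ J ih =>
      rw [Finset.sum_range_succ, mul_add]
      have h2 := Finset.sum_range_add_sum_Ico (fun n : ℕ => 1 / ((n : ℝ) * (1 + Nat.log 2 n)))
        (show 2 ^ J ≤ 2 ^ (J + 1) from Nat.pow_le_pow_right (by norm_num) (by omega))
      rw [← h2]
      have h3 := blk J
      have h4 : 1 / 2 * (1 / ((J : ℝ) + 1)) = 1 / (2 * ((J : ℝ) + 1)) := by field_simp
      rw [h4]
      linarith
  have h5 : Tendsto (fun J : ℕ => 1 / 2 * ∑ j ∈ Finset.range J, 1 / ((j : ℝ) + 1)) atTop atTop :=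
    Real.tendsto_sum_range_one_div_nat_succ_atTop.const_mul_atTop (by norm_num)
  have h6 : Tendsto (fun J : ℕ => ∑ n ∈ Finset.range (2 ^ J), 1 / ((n : ℝ) * (1 + Nat.log 2 n)))
      atTop atTop := tendsto_atTop_mono h1 h5
  rw [tendsto_atTop_atTop]
  intro b
  obtain ⟨J, hJ⟩ := (h6.eventually_ge_atTop b).exists
  refine ⟨2 ^ J, fun n hn => hJ.trans ?_⟩
  exact Finset.sum_le_sum_of_subset_of_nonneg (Finset.range_mono hn) fun _ _ _ => by positivity

theorem div_log {ε : ℝ} (hε : 0 < ε) :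
    ¬ Summable fun r : ℕ => (min 1 (ε / Real.sqrt (Real.log (2 * r + 4)))) ^ 2 / ((r : ℝ) + 1) := by
  intro h
  have hl2 : 0 < Real.log 2 := Real.log_pos (by norm_num)
  set δ : ℝ := min 1 (ε ^ 2 / (3 * Real.log 2)) with hδ
  have hδ0 : 0 < δ := lt_min one_pos (by positivity)
  have h1 : ∀ r : ℕ, δ * (1 / (((r + 1 : ℕ) : ℝ) * (1 + Nat.log 2 (r + 1)))) ≤
      (min 1 (ε / Real.sqrt (Real.log (2 * r + 4)))) ^ 2 / ((r : ℝ) + 1) := by
    intro r
    have hlog : 0 < Real.log (2 * r + 4) := Real.log_pos (by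
      have : (0 : ℝ) ≤ r := Nat.cast_nonneg r
      linarith)
    have h2 : Real.log (2 * r + 4) ≤ 3 * Real.log 2 * (1 + Nat.log 2 (r + 1)) := by
      have h3 : (2 * (r : ℝ) + 4) ≤ 2 ^ (Nat.log 2 (r + 1) + 3) := by
        have h4 : r + 1 < 2 ^ (Nat.log 2 (r + 1) + 1) := Nat.lt_pow_succ_log_self (by norm_num) _
        have h5 : 2 * r + 4 ≤ 2 ^ (Nat.log 2 (r + 1) + 3) := by
          have h6 : 2 ^ (Nat.log 2 (r + 1) + 3) = 4 * 2 ^ (Nat.log 2 (r + 1) + 1) := by
            rw [show Nat.log 2 (r + 1) + 3 = (Nat.log 2 (r + 1) + 1) + 2 from rfl, pow_add]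
            ring
          omega
        exact_mod_cast h5
      have h7 := Real.log_le_log (by positivity) h3
      rw [Real.log_pow] at h7
      push_cast at h7
      have h8 : (0 : ℝ) ≤ Nat.log 2 (r + 1) := Nat.cast_nonneg _
      nlinarith
    have h9 : δ / (1 + Nat.log 2 (r + 1)) ≤ (min 1 (ε / Real.sqrt (Real.log (2 * r + 4)))) ^ 2 := by
      have h8 : (0 : ℝ) ≤ Nat.log 2 (r + 1) := Nat.cast_nonneg _
      rcases min_choice 1 (ε / Real.sqrt (Real.log (2 * r + 4))) with h10 | h10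
      · rw [h10, one_pow, div_le_one (by linarith)]
        have : δ ≤ 1 := min_le_left _ _
        linarith
      · rw [h10, div_pow, Real.sq_sqrt hlog.le, div_le_div_iff₀ (by linarith) hlog]
        have h11 : δ ≤ ε ^ 2 / (3 * Real.log 2) := min_le_right _ _
        calc δ * Real.log (2 * r + 4) ≤ ε ^ 2 / (3 * Real.log 2) *
              (3 * Real.log 2 * (1 + Nat.log 2 (r + 1))) :=
              mul_le_mul h11 h2 hlog.le (by positivity)
          _ = ε ^ 2 * (1 + Nat.log 2 (r + 1)) := by field_simp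
    have h12 : δ * (1 / (((r + 1 : ℕ) : ℝ) * (1 + Nat.log 2 (r + 1)))) =
        δ / (1 + Nat.log 2 (r + 1)) / ((r : ℝ) + 1) := by
      push_cast
      field_simp
    rw [h12]
    gcongr
  have h2 := Summable.of_nonneg_of_le (fun r => by positivity) h1 h
  have h3 : Summable fun r : ℕ => 1 / (((r + 1 : ℕ) : ℝ) * (1 + Nat.log 2 (r + 1))) := by
    have := h2.mul_left δ⁻¹
    refine this.congr fun r => ?_
    rw [← mul_assoc, inv_mul_cancel₀ hδ0.ne', one_mul]
  exact div_log0 ((summable_nat_add_iff 1).1 h3)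

theorem div_prime {ε : ℝ} (hε : 0 < ε) :
    ¬ Summable fun r : ℕ => (if r.Prime then min 1 ε else 0) ^ 2 / ((r : ℝ) + 1) := by
  intro h
  apply not_summable_one_div_on_primes
  have h0 : 0 < min 1 ε := lt_min one_pos hε
  have h1 := h.mul_left (2 / (min 1 ε) ^ 2)
  refine Summable.of_nonneg_of_le (fun r => ?_) (fun r => ?_) h1
  · refine Set.indicator_nonneg (fun r _ => by positivity) r
  · by_cases hr : r.Prime
    · have hr0 : (0 : ℝ) < r := by exact_mod_cast hr.pos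
      have hr1 : (1 : ℝ) ≤ r := by exact_mod_cast hr.one_lt.le
      rw [Set.indicator_of_mem (show r ∈ {p | Nat.Prime p} from hr), if_pos hr]
      have e : 2 / min 1 ε ^ 2 * (min 1 ε ^ 2 / ((r : ℝ) + 1)) = 2 / (r + 1) := by field_simp
      rw [e, div_le_div_iff₀ hr0 (by positivity)]
      linarith
    · rw [Set.indicator_of_notMem (show r ∉ {p | Nat.Prime p} from hr), if_neg hr]
      simp

end Pool.Agent.L0h56.CS
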