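import Pool.Agent.L0h56.CS.Lim

/-!
Existence of the spectral measures of `-Δ + v` for every real potential `v`, bounded or not.
-/

set_option autoImplicit false
set_option linter.unusedSectionVars false
set_option linter.unusedVariables false

open scoped BigOperators Topology ENNReal NNReal
open Complex MeasureTheory Filter

namespace Pool.Agent.L0h56.CS

section
variable {ι : Type*} [Fintype ι] [DecidableEq ι]

theorem spec_full (A : Matrix ι ι ℂ) (hA : A.IsHermitian) (f : ι → ℂ) :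
    ∃ (lam : ι → ℝ) (w : ι → ℝ), (∀ j, 0 ≤ w j) ∧ ∑ j, w j = ∑ x, ‖f x‖ ^ 2 ∧
      ∀ z : ℂ, z.im ≠ 0 → ∃ u : ι → ℂ, (∀ x, A.mulVec u x - z * u x = f x) ∧
        ∑ x, (starRingEnd ℂ) (f x) * u x = ∑ j, (w j : ℂ) * ((lam j : ℂ) - z)⁻¹ := by
  set b := hA.eigenvectorBasis with hb
  refine ⟨hA.eigenvalues, fun j => ‖inner ℂ (b j) (WithLp.toLp 2 f)‖ ^ 2, fun j => sq_nonneg _, ?_,
    fun z hz => ?_⟩
  · rw [b.sum_sq_norm_inner_right, EuclideanSpace.norm_sq_eq]
  · have hne : ∀ j, (hA.eigenvalues j : ℂ) - z ≠ 0 := by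
      intro j h0
      apply hz
      have := congrArg Complex.im h0
      simpa using this
    set U : EuclideanSpace ℂ ι :=
      ∑ j, (inner ℂ (b j) (WithLp.toLp 2 f) * ((hA.eigenvalues j : ℂ) - z)⁻¹) • b j with hU
    refine ⟨U.ofLp, fun x => ?_, ?_⟩
    · have h1 : A.mulVec U.ofLp = ∑ j, (inner ℂ (b j) (WithLp.toLp 2 f) *
          ((hA.eigenvalues j : ℂ) - z)⁻¹) • ((hA.eigenvalues j : ℂ) • (b j).ofLp) := by
        rw [hU]
        simp only [WithLp.ofLp_sum, WithLp.ofLp_smul]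
        rw [Matrix.mulVec_sum]
        refine Finset.sum_congr rfl fun j _ => ?_
        rw [Matrix.mulVec_smul, hb, hA.mulVec_eigenvectorBasis j]
        congr 1
      have h2 : WithLp.toLp 2 f = ∑ j, inner ℂ (b j) (WithLp.toLp 2 f) • b j :=
        (b.sum_repr' _).symm
      have h3 : f x = ∑ j, inner ℂ (b j) (WithLp.toLp 2 f) * (b j).ofLp x := by
        have h4 := congrArg (fun v : EuclideanSpace ℂ ι => v.ofLp x) h2
        simp only [WithLp.ofLp_sum, WithLp.ofLp_smul, Finset.sum_apply, Pi.smul_apply,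
          smul_eq_mul] at h4
        exact h4
      rw [h1, h3, Finset.sum_apply]
      have h5 : U.ofLp x = ∑ j, (inner ℂ (b j) (WithLp.toLp 2 f) *
          ((hA.eigenvalues j : ℂ) - z)⁻¹) * (b j).ofLp x := by
        rw [hU]
        simp only [WithLp.ofLp_sum, WithLp.ofLp_smul, Finset.sum_apply, Pi.smul_apply, smul_eq_mul]
      rw [h5, Finset.mul_sum, ← Finset.sum_sub_distrib]
      refine Finset.sum_congr rfl fun j _ => ?_
      simp only [Pi.smul_apply, smul_eq_mul]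
      have := hne j
      field_simp
    · have h6 : ∑ x, (starRingEnd ℂ) (f x) * U.ofLp x = inner ℂ (WithLp.toLp 2 f) U := by
        rw [EuclideanSpace.inner_eq_star_dotProduct]
        simp only [dotProduct, Pi.star_apply, RCLike.star_def]
        exact Finset.sum_congr rfl fun x _ => mul_comm _ _
      rw [h6, hU, inner_sum]
      refine Finset.sum_congr rfl fun j _ => ?_
      rw [inner_smul_right, ← inner_conj_symm (WithLp.toLp 2 f) (b j)]
      have h7 : (inner ℂ (b j) (WithLp.toLp 2 f)) * (starRingEnd ℂ) (inner ℂ (b j) (WithLp.toLp 2 f)) =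
          ((‖inner ℂ (b j) (WithLp.toLp 2 f)‖ ^ 2 : ℝ) : ℂ) := by
        rw [Complex.mul_conj, Complex.normSq_eq_norm_sq]
      rw [← h7]
      ring

/-- bound of the resolvent -/
theorem res_bound (A : Matrix ι ι ℂ) (hA : A.IsHermitian) {z : ℂ} (hz : z.im ≠ 0) {u f : ι → ℂ}
    (h : ∀ x, A.mulVec u x - z * u x = f x) :
    z.im ^ 2 * ∑ x, ‖u x‖ ^ 2 ≤ ∑ x, ‖f x‖ ^ 2 := by
  obtain ⟨lam, T, h1, h2⟩ := spec_sum A hA
  rw [← h1 u, ← h1 f, Finset.mul_sum]
  refine Finset.sum_le_sum fun j _ => ?_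
  rw [← h2 u f z h j, norm_mul, mul_pow]
  refine mul_le_mul_of_nonneg_right ?_ (sq_nonneg _)
  have := Complex.abs_im_le_norm ((lam j : ℂ) - z)
  simp only [sub_im, ofReal_im, zero_sub, abs_neg] at this
  rw [← sq_abs]
  exact pow_le_pow_left₀ (abs_nonneg _) this 2

end

variable {d : ℕ}

/-- the finite volume operator -/
noncomputable def AN (N : ℕ) (v : (Fin d → ℤ) → ℝ) : Matrix (Bx d N) (Bx d N) ℂ :=
  MM (KN d N) (fun x => (qN N v x : ℂ))

theorem AN_herm (N : ℕ) (v : (Fin d → ℤ) → ℝ) : (AN N v).IsHermitian := by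
  ext x y
  unfold AN
  rw [Matrix.conjTranspose_apply, MM_apply, MM_apply, KN_symm d N y x]
  by_cases h : x = y
  · subst h; simp
  · rw [if_neg h, if_neg (Ne.symm h)]; simp

theorem AN_apply (N : ℕ) (v : (Fin d → ℤ) → ℝ) (u : Bx d N → ℂ) (U : (Fin d → ℤ) → ℂ)
    (hU : ∀ x : Bx d N, U x.1 = u x) (x : Bx d N) :
    (AN N v).mulVec u x = -∑ i : Fin d, ((if x.1 + Pi.single i 1 ∈ Bx d N then
      U (x.1 + Pi.single i 1) else 0) + (if x.1 - Pi.single i 1 ∈ Bx d N then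
      U (x.1 - Pi.single i 1) else 0)) + (2 * d + v x.1) * u x := by
  unfold AN
  rw [mulVec_eq]
  have h1 : ∑ y : Bx d N, (KN d N x y : ℂ) * u y = ∑ y ∈ Bx d N, (KK x.1 y : ℂ) * U y := by
    rw [← Finset.sum_coe_sort (Bx d N) (fun y => (KK x.1 y : ℂ) * U y)]
    exact Finset.sum_congr rfl fun y _ => by rw [hU y]; rfl
  rw [h1, KK_apply]
  unfold qN
  push_cast
  ring

theorem H_form (v : (Fin d → ℤ) → ℝ) (u : (Fin d → ℤ) → ℂ) (x : Fin d → ℤ) :
    H v u x = -∑ i : Fin d, (u (x + Pi.single i 1) + u (x - Pi.single i 1)) +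
      (2 * d + v x) * u x := by
  unfold H
  have h : ∑ i : Fin d, ((u (x + Pi.single i 1) - u x) + (u (x - Pi.single i 1) - u x)) =
      ∑ i : Fin d, (u (x + Pi.single i 1) + u (x - Pi.single i 1)) - 2 * (d : ℂ) * u x := by
    have h3 : (2 : ℂ) * d * u x = ∑ i : Fin d, (2 * u x) := by
      rw [Finset.sum_const, Finset.card_univ, Fintype.card_fin, nsmul_eq_mul]
      ring
    rw [h3, ← Finset.sum_sub_distrib]
    exact Finset.sum_congr rfl fun i _ => by ring
  rw [h]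
  ring

/-- existence of the resolvent -/
theorem exists_res (v : (Fin d → ℤ) → ℝ) {g : (Fin d → ℤ) → ℂ} (hg : SqSummable g) {z : ℂ}
    (hz : z.im ≠ 0) (uN : ∀ N, Bx d N → ℂ)
    (hN : ∀ N x, (AN N v).mulVec (uN N) x - z * uN N x = g x.1) :
    ∃ u : (Fin d → ℤ) → ℂ, SqSummable u ∧ ∀ x, H v u x - z * u x = g x := by
  classical
  set G : ℝ := ∑' y, ‖g y‖ ^ 2 with hG
  have hz2 : 0 < z.im ^ 2 := by positivity
  set UN : ℕ → (Fin d → ℤ) → ℂ := fun N x => if h : x ∈ Bx d N then uN N ⟨x, h⟩ else 0 with hUN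
  have hUx : ∀ N (x : Bx d N), UN N x.1 = uN N x := by
    intro N x
    simp only [hUN]
    rw [dif_pos x.2]
  have hb : ∀ N, ∑ x : Bx d N, ‖uN N x‖ ^ 2 ≤ G / z.im ^ 2 := by
    intro N
    rw [le_div_iff₀ hz2, mul_comm]
    refine (res_bound _ (AN_herm N v) hz (hN N)).trans ?_
    rw [Finset.sum_coe_sort (Bx d N) (fun x => ‖g x‖ ^ 2)]
    exact hg.sum_le_tsum _ fun _ _ => sq_nonneg _
  have hbU : ∀ N (S : Finset (Fin d → ℤ)), ∑ x ∈ S, ‖UN N x‖ ^ 2 ≤ G / z.im ^ 2 := by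
    intro N S
    refine le_trans ?_ (hb N)
    calc ∑ x ∈ S, ‖UN N x‖ ^ 2 ≤ ∑ x ∈ S ∪ Bx d N, ‖UN N x‖ ^ 2 :=
          Finset.sum_le_sum_of_subset_of_nonneg Finset.subset_union_left fun _ _ _ => sq_nonneg _
      _ = ∑ x ∈ Bx d N, ‖UN N x‖ ^ 2 := by
          symm
          refine Finset.sum_subset Finset.subset_union_right fun x _ hx => ?_
          simp only [hUN]
          rw [dif_neg hx]; simp
      _ = ∑ x : Bx d N, ‖uN N x‖ ^ 2 := by
          rw [← Finset.sum_coe_sort (Bx d N) (fun x => ‖UN N x‖ ^ 2)]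
          exact Finset.sum_congr rfl fun x _ => by rw [hUx]
  set 𝒰 : Filter ℕ := (Filter.hyperfilter ℕ : Filter ℕ) with h𝒰
  have hle : 𝒰 ≤ atTop := by
    rw [← Nat.cofinite_eq_atTop]
    exact Filter.hyperfilter_le_cofinite
  set C : ℝ := Real.sqrt (G / z.im ^ 2) with hC
  have hpt : ∀ x, ∃ l : ℂ, Tendsto (fun N => UN N x) 𝒰 (𝓝 l) := by
    intro x
    have h1 : ∀ N, UN N x ∈ Metric.closedBall (0 : ℂ) C := by
      intro N
      rw [mem_closedBall_zero_iff]
      refine Real.le_sqrt_of_sq_le ?_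
      have := hbU N {x}
      simpa using this
    have h2 := (isCompact_closedBall (0 : ℂ) C).ultrafilter_le_nhds
      ((Filter.hyperfilter ℕ).map fun N => UN N x) (Filter.tendsto_principal.2 (Filter.Eventually.of_forall h1))
    obtain ⟨l, _, hl⟩ := h2
    exact ⟨l, hl⟩
  choose u hu using hpt
  refine ⟨u, ?_, fun x => ?_⟩
  · refine summable_of_sum_le (c := G / z.im ^ 2) (fun _ => sq_nonneg _) fun S => ?_
    refine le_of_tendsto (x := 𝒰) (tendsto_finsetSum _ fun x _ => ((hu x).norm.pow 2)) ?_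
    exact Filter.Eventually.of_forall fun N => hbU N S
  · have hev : ∀ y, ∀ᶠ N in 𝒰, y ∈ Bx d N := by
      intro y
      refine hle ?_
      obtain ⟨N0, hN0⟩ := Bx_exh y
      filter_upwards [eventually_ge_atTop N0] with N hN
      exact Bx_mono d hN hN0
    have h1 : Tendsto (fun N => -∑ i : Fin d, (UN N (x + Pi.single i 1) + UN N (x - Pi.single i 1)) +
        (2 * d + v x) * UN N x - z * UN N x) 𝒰 (𝓝 (H v u x - z * u x)) := by
      rw [H_form]
      refine Tendsto.sub (Tendsto.add (Tendsto.neg (tendsto_finsetSum _ fun i _ =>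
        (hu _).add (hu _))) ((hu x).const_mul _)) ((hu x).const_mul _)
    have h2 : ∀ᶠ N in 𝒰, -∑ i : Fin d, (UN N (x + Pi.single i 1) + UN N (x - Pi.single i 1)) +
        (2 * d + v x) * UN N x - z * UN N x = g x := by
      have h3 : ∀ᶠ N in 𝒰, ∀ i : Fin d, x + Pi.single i 1 ∈ Bx d N ∧ x - Pi.single i 1 ∈ Bx d N :=
        Filter.eventually_all.2 fun i => (hev _).and (hev _)
      filter_upwards [hev x, h3] with N hx hi
      have h4 := hN N ⟨x, hx⟩
      rw [AN_apply N v (uN N) (UN N) (hUx N) ⟨x, hx⟩] at h4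
      rw [← h4, ← hUx N ⟨x, hx⟩]
      congr 4
      funext i
      rw [if_pos (hi i).1, if_pos (hi i).2]
    exact tendsto_nhds_unique h1 ((tendsto_congr' h2).2 tendsto_const_nhds)

/-- convergence of the finite volume matrix elements -/
theorem res_tendsto (v : (Fin d → ℤ) → ℝ) {g u : (Fin d → ℤ) → ℂ} (hg : SqSummable g)
    (hu : SqSummable u) {z : ℂ} (hz : z.im ≠ 0) (h : ∀ x, H v u x - z * u x = g x)
    (uN : ∀ N, Bx d N → ℂ)
    (hN : ∀ N x, (AN N v).mulVec (uN N) x - z * uN N x = g x.1) :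
    Tendsto (fun N => ∑ x : Bx d N, (starRingEnd ℂ) (g x.1) * uN N x) atTop
      (𝓝 (∑' x, (starRingEnd ℂ) (g x) * u x)) := by
  have hsum : Summable fun x => (starRingEnd ℂ) (g x) * u x := by
    refine Summable.of_norm_bounded (g := fun x => (‖g x‖ ^ 2 + ‖u x‖ ^ 2)) (hg.add hu) fun x => ?_
    rw [norm_mul, Complex.norm_conj]
    nlinarith [sq_nonneg (‖g x‖ - ‖u x‖), norm_nonneg (g x), norm_nonneg (u x)]
  have h1 : Tendsto (fun N => ∑ x ∈ Bx d N, (starRingEnd ℂ) (g x) * u x) atTop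
      (𝓝 (∑' x, (starRingEnd ℂ) (g x) * u x)) := hsum.hasSum.comp (Bx_tendsto d)
  have hz2 : 0 < z.im ^ 2 := by positivity
  set τ : ℕ → ℝ := fun N => ∑' y, ‖u y‖ ^ 2 - ∑ y ∈ Bx d N, ‖u y‖ ^ 2 with hτ
  set G : ℝ := ∑' y, ‖g y‖ ^ 2 with hG
  have hG0 : 0 ≤ G := tsum_nonneg fun _ => sq_nonneg _
  have h2 : ∀ N, ‖∑ x : Bx d N, (starRingEnd ℂ) (g x.1) * uN N x -
      ∑ x ∈ Bx d N, (starRingEnd ℂ) (g x) * u x‖ ≤ Real.sqrt (G * (4 * d ^ 2 * τ N / z.im ^ 2)) := by
    intro N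
    have e2 : ∑ x ∈ Bx d N, (starRingEnd ℂ) (g x) * u x =
        ∑ x : Bx d N, (starRingEnd ℂ) (g x.1) * u x.1 :=
      (Finset.sum_coe_sort (Bx d N) (fun x => (starRingEnd ℂ) (g x) * u x)).symm
    have e3 : ∀ x, (AN N v).mulVec (fun x => u x.1 - uN N x) x - z * (u x.1 - uN N x) =
        bd N u x.1 := by
      intro x
      have e4 : (fun x : Bx d N => u x.1 - uN N x) = (fun x => u x.1) - uN N := rfl
      rw [e4, Matrix.mulVec_sub, Pi.sub_apply]
      have e5 := hN N x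
      have e6 := h x.1
      rw [AN_apply N v (fun x => u x.1) u (fun _ => rfl) x]
      rw [H_form] at e6
      have e7 : ∑ i : Fin d, (u (x.1 + Pi.single i 1) + u (x.1 - Pi.single i 1)) =
          ∑ i : Fin d, ((if x.1 + Pi.single i 1 ∈ Bx d N then u (x.1 + Pi.single i 1) else 0) +
            (if x.1 - Pi.single i 1 ∈ Bx d N then u (x.1 - Pi.single i 1) else 0)) +
          bd N u x.1 := by
        unfold bd
        rw [← Finset.sum_add_distrib]
        refine Finset.sum_congr rfl fun i _ => ?_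
        split_ifs <;> ring
      rw [e7] at e6
      linear_combination e6 - e5
    have e5 := res_bound _ (AN_herm N v) hz e3
    have e6 : ∑ x : Bx d N, ‖bd N u x.1‖ ^ 2 ≤ 4 * d ^ 2 * τ N := by
      rw [Finset.sum_coe_sort (Bx d N) (fun x => ‖bd N u x‖ ^ 2)]
      exact bd_le hu N
    have e7 : ∑ x : Bx d N, ‖u x.1 - uN N x‖ ^ 2 ≤ 4 * d ^ 2 * τ N / z.im ^ 2 := by
      rw [le_div_iff₀ hz2]
      linarith
    have e8 : ∑ x : Bx d N, ‖g x.1‖ ^ 2 ≤ G := by
      rw [Finset.sum_coe_sort (Bx d N) (fun x => ‖g x‖ ^ 2)]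
      exact hg.sum_le_tsum _ fun _ _ => sq_nonneg _
    rw [e2, ← Finset.sum_sub_distrib]
    refine Real.le_sqrt_of_sq_le ?_
    have e9 : ‖∑ x : Bx d N, ((starRingEnd ℂ) (g x.1) * uN N x - (starRingEnd ℂ) (g x.1) * u x.1)‖ ≤
        ∑ x : Bx d N, ‖g x.1‖ * ‖u x.1 - uN N x‖ := by
      refine (norm_sum_le _ _).trans (Finset.sum_le_sum fun x _ => ?_)
      rw [← mul_sub, norm_mul, Complex.norm_conj, norm_sub_rev]
    refine (pow_le_pow_left₀ (norm_nonneg _) e9 2).trans ?_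
    refine (Finset.sum_mul_sq_le_sq_mul_sq _ _ _).trans ?_
    exact mul_le_mul e8 e7 (Finset.sum_nonneg fun _ _ => sq_nonneg _) hG0
  have h3 : Tendsto (fun N => Real.sqrt (G * (4 * d ^ 2 * τ N / z.im ^ 2))) atTop (𝓝 0) := by
    have h4 : Tendsto τ atTop (𝓝 0) := tail_tendsto hu
    have h5 : Tendsto (fun N => G * (4 * d ^ 2 * τ N / z.im ^ 2)) atTop
        (𝓝 (G * (4 * d ^ 2 * 0 / z.im ^ 2))) := ((h4.const_mul _).div_const _).const_mul _
    rw [mul_zero, zero_div, mul_zero] at h5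
    have := (Real.continuous_sqrt.tendsto 0).comp h5
    rwa [Real.sqrt_zero] at this
  have h6 : Tendsto (fun N => ∑ x : Bx d N, (starRingEnd ℂ) (g x.1) * uN N x -
      ∑ x ∈ Bx d N, (starRingEnd ℂ) (g x) * u x) atTop (𝓝 0) := squeeze_zero_norm h2 h3
  have := h6.add h1
  simpa using this

/-- the compactified line -/
abbrev EE : Type := Set.Icc (-(Real.pi / 2)) (Real.pi / 2)

/-- `(tan θ - z)⁻¹` as a continuous function on the compactified line -/
noncomputable def FF (z : ℂ) (θ : EE) : ℂ :=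
  (Real.cos θ.1 : ℂ) * ((Real.sin θ.1 : ℂ) - z * Real.cos θ.1)⁻¹

theorem FF_den {z : ℂ} (hz : z.im ≠ 0) (θ : ℝ) : (Real.sin θ : ℂ) - z * Real.cos θ ≠ 0 := by
  intro h
  have h1 := congrArg Complex.im h
  have h2 := congrArg Complex.re h
  simp only [sub_im, ofReal_im, mul_im, ofReal_re, mul_zero, zero_add, zero_sub, zero_im, sub_re,
    mul_re, sub_zero, zero_re, neg_eq_zero, mul_eq_zero, hz, false_or] at h1 h2
  rw [h1] at h2
  have := Real.sin_sq_add_cos_sq θ
  rw [h1] at this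
  nlinarith

theorem FF_cont {z : ℂ} (hz : z.im ≠ 0) : Continuous (FF z) := by
  unfold FF
  refine Continuous.mul (by fun_prop) (Continuous.inv₀ (by fun_prop) fun θ => FF_den hz θ.1)

theorem FF_tan {z : ℂ} (hz : z.im ≠ 0) (θ : EE) (h : Real.cos θ.1 ≠ 0) :
    FF z θ = ((Real.tan θ.1 : ℂ) - z)⁻¹ := by
  unfold FF
  have hc : (Real.cos θ.1 : ℂ) ≠ 0 := by exact_mod_cast h
  have hd := FF_den hz θ.1
  rw [Real.tan_eq_sin_div_cos]
  push_cast
  push_cast at hc hd
  have : (Complex.sin θ.1 / Complex.cos θ.1 - z) = (Complex.sin θ.1 - z * Complex.cos θ.1) / Complex.cos θ.1 := by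
    field_simp
  rw [this, inv_div, ← div_eq_mul_inv]

theorem FF_zero (z : ℂ) (θ : EE) (h : Real.cos θ.1 = 0) : FF z θ = 0 := by
  unfold FF
  rw [h]
  simp

theorem atan_mem (t : ℝ) : Real.arctan t ∈ Set.Icc (-(Real.pi / 2)) (Real.pi / 2) :=
  ⟨(Real.neg_pi_div_two_lt_arctan t).le, (Real.arctan_lt_pi_div_two t).le⟩

theorem FF_arctan {z : ℂ} (hz : z.im ≠ 0) (t : ℝ) :
    FF z ⟨Real.arctan t, atan_mem t⟩ = ((t : ℂ) - z)⁻¹ := by
  rw [FF_tan hz ⟨Real.arctan t, atan_mem t⟩ (Real.cos_arctan_pos t).ne']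
  simp only [Real.tan_arctan]

theorem dm_lim {ι : Type*} [Fintype ι] (lam w : ι → ℝ) (hw : ∀ j, 0 ≤ w j) {z : ℂ} (hz : z.im ≠ 0)
    (μ : Measure EE) (hμ : ∀ F : EE → ℂ, Continuous F → ∫ θ, F θ ∂μ =
      ∑ j, (w j : ℂ) * F ⟨Real.arctan (lam j), atan_mem _⟩) :
    ∫ θ, FF z θ ∂μ = ∑ j, (w j : ℂ) * ((lam j : ℂ) - z)⁻¹ := by
  rw [hμ _ (FF_cont hz)]
  simp only [FF_arctan hz]

/-- a discrete measure on the compactified line -/
noncomputable def dmE {ι : Type*} [Fintype ι] (lam w : ι → ℝ) : Measure EE :=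
  ∑ j, ENNReal.ofReal (w j) • Measure.dirac ⟨Real.arctan (lam j), atan_mem _⟩

theorem dmE_univ {ι : Type*} [Fintype ι] (lam w : ι → ℝ) (hw : ∀ j, 0 ≤ w j) :
    dmE lam w Set.univ = ENNReal.ofReal (∑ j, w j) := by
  unfold dmE
  simp only [Measure.finsetSum_apply, Measure.smul_apply, measure_univ, smul_eq_mul, mul_one]
  rw [← ENNReal.ofReal_sum_of_nonneg fun j _ => hw j]

theorem dmE_int {ι : Type*} [Fintype ι] (lam w : ι → ℝ) (hw : ∀ j, 0 ≤ w j) {F : EE → ℂ}
    (hF : Continuous F) :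
    ∫ θ, F θ ∂(dmE lam w) = ∑ j, (w j : ℂ) * F ⟨Real.arctan (lam j), atan_mem _⟩ := by
  unfold dmE
  rw [integral_finsetSum_measure]
  · refine Finset.sum_congr rfl fun j _ => ?_
    rw [integral_smul_measure, integral_dirac, ENNReal.toReal_ofReal (hw j), Complex.real_smul]
  · intro j _
    exact (integrable_dirac (by simp)).smul_measure ENNReal.ofReal_ne_top

/-- **Existence of spectral measures.** -/
theorem exists_spm (v : (Fin d → ℤ) → ℝ) {g : (Fin d → ℤ) → ℂ} (hg : SqSummable g) :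
    ∃ m : Measure ℝ, IsSpectralMeasure (H v) g m := by
  set G : ℝ := ∑' y, ‖g y‖ ^ 2 with hG
  have hG0 : 0 ≤ G := tsum_nonneg fun _ => sq_nonneg _
  choose lam w hw0 hws hres using fun N =>
    spec_full (AN N v) (AN_herm N v) (fun x : Bx d N => g x.1)
  have hmass : ∀ N, dmE (lam N) (w N) Set.univ ≤ ENNReal.ofReal G := by
    intro N
    rw [dmE_univ _ _ (hw0 N), hws N]
    refine ENNReal.ofReal_le_ofReal ?_
    rw [Finset.sum_coe_sort (Bx d N) (fun x => ‖g x‖ ^ 2)]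
    exact hg.sum_le_tsum _ fun _ _ => sq_nonneg _
  have hfin : ∀ N, IsFiniteMeasure (dmE (lam N) (w N)) := fun N =>
    ⟨(hmass N).trans_lt ENNReal.ofReal_lt_top⟩
  obtain ⟨μ, hμ⟩ : ∃ μ : ℕ → FiniteMeasure EE, ∀ N, (μ N : Measure EE) = dmE (lam N) (w N) :=
    ⟨fun N => ⟨dmE (lam N) (w N), hfin N⟩, fun N => rfl⟩
  set 𝒰 : Filter ℕ := (Filter.hyperfilter ℕ : Filter ℕ) with h𝒰
  have hle : 𝒰 ≤ atTop := by
    rw [← Nat.cofinite_eq_atTop]
    exact Filter.hyperfilter_le_cofinite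
  obtain ⟨μ0, _, hμ0⟩ := (isCompact_setOfPred_finiteMeasure_le_of_compactSpace EE
    (Real.toNNReal G)).ultrafilter_le_nhds ((Filter.hyperfilter ℕ).map μ)
    (Filter.tendsto_principal.2 (Filter.Eventually.of_forall fun N => by
      change (μ N).mass ≤ Real.toNNReal G
      rw [← ENNReal.coe_le_coe, FiniteMeasure.ennreal_mass, hμ N]
      exact hmass N))
  have hμt : Tendsto μ 𝒰 (𝓝 μ0) := hμ0
  rw [FiniteMeasure.tendsto_iff_forall_integral_rclike_tendsto ℂ] at hμt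
  -- the limit of the integrals
  have hlim : ∀ z : ℂ, z.im ≠ 0 → Tendsto (fun N => ∑ j, (w N j : ℂ) * ((lam N j : ℂ) - z)⁻¹) 𝒰
      (𝓝 (∫ θ, FF z θ ∂(μ0 : Measure EE))) := by
    intro z hz
    have h1 := hμt (BoundedContinuousFunction.mkOfCompact ⟨FF z, FF_cont hz⟩)
    simp only [BoundedContinuousFunction.mkOfCompact_apply, ContinuousMap.coe_mk] at h1
    refine h1.congr fun N => ?_
    exact dm_lim (lam N) (w N) (hw0 N) hz (μ N : Measure EE) (fun F hF => by
      rw [hμ N]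
      exact dmE_int _ _ (hw0 N) hF)
  -- the measure on the line
  set Z : Set EE := {θ | Real.cos θ.1 ≠ 0} with hZ
  have hZm : MeasurableSet Z := by
    have h1 : Continuous fun θ : EE => Real.cos θ.1 := by fun_prop
    exact (measurableSet_singleton (0 : ℝ)).compl.preimage h1.measurable
  have htan : Measurable fun θ : EE => Real.tan θ.1 := by
    have h1 : (fun θ : EE => Real.tan θ.1) = fun θ : EE => Real.sin θ.1 / Real.cos θ.1 := by
      funext θ
      rw [Real.tan_eq_sin_div_cos]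
    rw [h1]
    have h2 : Continuous fun θ : EE => Real.sin θ.1 := by fun_prop
    have h3 : Continuous fun θ : EE => Real.cos θ.1 := by fun_prop
    exact h2.measurable.div h3.measurable
  refine ⟨((μ0 : Measure EE).restrict Z).map fun θ => Real.tan θ.1, inferInstance, fun z hz => ?_⟩
  choose uN huN1 huN2 using fun N => hres N z hz
  obtain ⟨u, hu, hueq⟩ := exists_res v hg hz uN huN1
  refine ⟨u, hu, hueq, ?_⟩
  have h1 := (res_tendsto v hg hu hz hueq uN huN1).mono_left hle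
  have h2 : Tendsto (fun N => ∑ x : Bx d N, (starRingEnd ℂ) (g x.1) * uN N x) 𝒰
      (𝓝 (∫ θ, FF z θ ∂(μ0 : Measure EE))) := (hlim z hz).congr fun N => (huN2 N).symm
  have h3 := tendsto_nhds_unique h2 h1
  rw [← h3]
  have hcont : Continuous fun t : ℝ => ((t : ℂ) - z)⁻¹ := by
    refine Continuous.inv₀ (Complex.continuous_ofReal.sub continuous_const) fun t h0 => ?_
    have := congrArg Complex.im h0
    simp at this
    exact hz this
  rw [integral_map htan.aemeasurable hcont.aestronglyMeasurable]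
  rw [← integral_indicator hZm]
  refine integral_congr_ae (Filter.Eventually.of_forall fun θ => ?_)
  by_cases hθ : θ ∈ Z
  · rw [Set.indicator_of_mem hθ, FF_tan hz θ hθ]
  · rw [Set.indicator_of_notMem hθ, FF_zero z θ (not_not.1 hθ)]

end Pool.Agent.L0h56.CS
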