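import Pool.Agent.L0h56.CS.Ave

/-!
The finite volume bound.
-/

set_option autoImplicit false
set_option linter.unusedSectionVars false
set_option linter.unusedVariables false

open scoped BigOperators
open Complex MeasureTheory

namespace Pool.Agent.L0h56.CS

variable {J : Type*} [DecidableEq J] {ι : Type*} [Fintype ι] [DecidableEq ι]

section

variable {K : ι → ι → ℝ} (hK : ∀ x y, K x y = K y x) {e : ι → J} (he : Function.Injective e)
  {V0 γ : ι → ℝ} (hγ : ∀ x, 0 ≤ γ x) {η : ℝ} (hη : 0 < η) (a : ι)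
  {lay : ι → ℕ} (hlay : ∀ x y, K x y ≠ 0 → lay x ≤ lay y + 1) (hD : ∀ x, ∑ y, |K x y| ≤ 4)

include hK he hγ hη

theorem im_Fr_nonneg (V : ι → ℝ) (ξ : J → ℝ) : 0 ≤ (Fr K e V γ η ξ a).im := by
  unfold Fr
  rw [im_Gr hK (q0_neg e V γ hη ξ) a]
  exact Finset.sum_nonneg fun x _ => mul_nonneg (neg_nonneg.2 (q0_neg e V γ hη ξ x).le) (sq_nonneg _)

theorem int_Rf2 {c : ℝ} (hc : 0 < c) (U : Finset J) :
    Integrable (fun z : (J → ℝ) × (J → ℝ) => (1 - ‖Rf K e (Vw e V0 z.1) γ η a U z.2‖ ^ 2) / 4)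
      ((PU c J).prod (PC J)) := by
  have hP := unif_prob c hc
  refine Integrable.of_bound (C := 1)
    ((measurable_const.sub ((meas_Rf2 hK hγ hη a U).norm.pow_const 2)).div_const
      4).aestronglyMeasurable (Filter.Eventually.of_forall fun z => ?_)
  have h1 := Rf_le hK (e := e) (V := Vw e V0 z.1) hγ hη a U z.2
  have h2 : ‖Rf K e (Vw e V0 z.1) γ η a U z.2‖ ^ 2 ≤ 1 := pow_le_one₀ (norm_nonneg _) h1
  rw [Real.norm_of_nonneg (by linarith)]
  nlinarith [sq_nonneg ‖Rf K e (Vw e V0 z.1) γ η a U z.2‖]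

theorem meas_Iw2 (B : Finset J) (r : ℕ) :
    Measurable fun z : (J → ℝ) × (J → ℝ) => Iw K e (Vw e V0 z.1) γ η a lay B r z.2 := by
  unfold Iw
  exact measurable_const.mul (Finset.measurable_sum _ fun x _ =>
    (meas_gg2 hK hγ hη a B x).norm.pow_const 2)

theorem int_Iw2 {c : ℝ} (hc : 0 < c) (B : Finset J) (r : ℕ) :
    Integrable (fun z : (J → ℝ) × (J → ℝ) => Iw K e (Vw e V0 z.1) γ η a lay B r z.2)
      ((PU c J).prod (PC J)) := by
  have hP := unif_prob c hc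
  refine Integrable.of_bound (C := 1 / 4) (meas_Iw2 hK he hγ hη a B r).aestronglyMeasurable
    (Filter.Eventually.of_forall fun z => ?_)
  rw [Real.norm_of_nonneg (Iw_nonneg hK hγ hη a B r z.2)]
  exact Iw_le hK hγ hη a B r z.2

theorem mean_Iw {c : ℝ} (hc : 0 < c) (B : Finset J) (r : ℕ) {C : ℝ}
    (hC : ((Finset.univ.filter fun x => lay x ≤ 2 * r).card : ℝ) ≤ C) :
    ∫ z, Iw K e (Vw e V0 z.1) γ η a lay B r z.2 ∂((PU c J).prod (PC J)) ≤
      η * (C * (Real.pi / c + 1)) := by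
  have hP := unif_prob c hc
  have hpi : 0 ≤ Real.pi / c := div_nonneg Real.pi_pos.le hc.le
  unfold Iw
  rw [integral_const_mul, integral_finsetSum]
  · refine mul_le_mul_of_nonneg_left ?_ hη.le
    refine (Finset.sum_le_sum fun x _ => mean_gg hK he (V0 := V0) hγ hη a hc B x).trans ?_
    rw [Finset.sum_const, nsmul_eq_mul]
    exact mul_le_mul_of_nonneg_right hC (by linarith)
  · intro x _
    refine Integrable.of_bound (C := 1 / (4 * η))
      ((meas_gg2 hK hγ hη a B x).norm.pow_const 2).aestronglyMeasurable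
      (Filter.Eventually.of_forall fun z => ?_)
    rw [Real.norm_of_nonneg (sq_nonneg _)]
    exact gg_sq_le hK hγ hη a B z.2 x

include hlay hD

/-- the transmission probability is small -/
theorem trans_small {r0 : ℕ} (ha : lay a < 2 * r0) {m : ℕ → ℝ} (hm0 : ∀ r, 0 ≤ m r)
    (hm1 : ∀ r, m r ≤ 1) (hm : ∀ x r, lay x = 2 * r ∨ lay x = 2 * r + 1 → m r ≤ γ x)
    (hcard : ∀ r : ℕ, ((Finset.univ.filter fun x => lay x = 2 * r ∨ lay x = 2 * r + 1).card : ℝ) ≤
      32 * (r + 1)) {U : Finset J} (hU : ∀ x, e x ∈ U) {c : ℝ} (hc : 0 < c) (R : ℕ) {C S : ℝ}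
    (hC : ∀ r < R, ((Finset.univ.filter fun x => lay x ≤ 2 * r).card : ℝ) ≤ C) (hS : 0 < S)
    (hSm : S ≤ ∑ r ∈ Finset.Ico r0 R, m r ^ 2 / (288 * (r + 1))) :
    ∫ z, (1 - ‖Rf K e (Vw e V0 z.1) γ η a U z.2‖ ^ 2) / 4 ∂((PU c J).prod (PC J)) ≤
      R * (η * (C * (Real.pi / c + 1))) + 1 / Real.sqrt S := by
  have hP := unif_prob c hc
  have hpt : ∀ ω : J → ℝ, ∫ ξ, (1 - ‖Rf K e (Vw e V0 ω) γ η a U ξ‖ ^ 2) / 4 ∂(PC J) ≤
      ∑ r ∈ Finset.range R, ∫ ξ, Iw K e (Vw e V0 ω) γ η a lay (Bl e lay r) r ξ ∂(PC J) +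
        1 / Real.sqrt S := by
    intro ω
    have hR := int_Rf hK he (V := Vw e V0 ω) hγ hη a U
    have h1 : ∫ ξ, (1 - ‖Rf K e (Vw e V0 ω) γ η a U ξ‖ ^ 2) / 4 ∂(PC J) =
        (1 - ∫ ξ, ‖Rf K e (Vw e V0 ω) γ η a U ξ‖ ^ 2 ∂(PC J)) / 4 := by
      rw [integral_div, integral_sub (integrable_const _) hR]
      simp
    rw [h1]
    set Φ := (1 - ∫ ξ, ‖Rf K e (Vw e V0 ω) γ η a U ξ‖ ^ 2 ∂(PC J)) / 4
    set δ := ∑ r ∈ Finset.range R, ∫ ξ, Iw K e (Vw e V0 ω) γ η a lay (Bl e lay r) r ξ ∂(PC J)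
    by_cases hcase : Φ - δ ≤ 0
    · have : 0 ≤ 1 / Real.sqrt S := by positivity
      linarith
    · have hβ : 0 ≤ Φ - δ := (not_le.1 hcase).le
      have h2 := tele hK he (V := Vw e V0 ω) hγ hη a hlay hD ha hm0 hm1 hm hcard hU hβ R
        (fun r hr => by
          have h3 : ∫ ξ, Iw K e (Vw e V0 ω) γ η a lay (Bl e lay r) r ξ ∂(PC J) ≤ δ :=
            Finset.single_le_sum (f := fun r => ∫ ξ, Iw K e (Vw e V0 ω) γ η a lay (Bl e lay r) r ξ ∂(PC J))
              (fun r _ => integral_nonneg fun ξ => Iw_nonneg hK hγ hη a _ r ξ)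
              (Finset.mem_range.2 hr)
          change Φ - δ ≤ Φ - _
          linarith)
      have h4 : (Φ - δ) ^ 2 * S ≤ 1 :=
        (mul_le_mul_of_nonneg_left hSm (sq_nonneg _)).trans h2
      have h5 : Φ - δ ≤ 1 / Real.sqrt S := by
        rw [le_div_iff₀ (Real.sqrt_pos.2 hS)]
        have h6 : ((Φ - δ) * Real.sqrt S) ^ 2 ≤ 1 := by
          rw [mul_pow, Real.sq_sqrt hS.le]
          exact h4
        nlinarith [mul_nonneg hβ (Real.sqrt_nonneg S)]
      linarith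
  have hintI : ∀ r, Integrable (fun z : (J → ℝ) × (J → ℝ) =>
      Iw K e (Vw e V0 z.1) γ η a lay (Bl e lay r) r z.2) ((PU c J).prod (PC J)) :=
    fun r => int_Iw2 hK he hγ hη a hc _ r
  rw [integral_prod _ (int_Rf2 hK he hγ hη a hc U)]
  have h7 : ∫ ω, ∫ ξ, (1 - ‖Rf K e (Vw e V0 ω) γ η a U ξ‖ ^ 2) / 4 ∂(PC J) ∂(PU c J) ≤
      ∫ ω, (∑ r ∈ Finset.range R, ∫ ξ, Iw K e (Vw e V0 ω) γ η a lay (Bl e lay r) r ξ ∂(PC J) +
        1 / Real.sqrt S) ∂(PU c J) := by
    refine integral_mono (int_Rf2 hK he hγ hη a hc U).integral_prod_left ?_ hpt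
    exact (integrable_finsetSum _ fun r _ => (hintI r).integral_prod_left).add (integrable_const _)
  refine h7.trans ?_
  rw [integral_add (integrable_finsetSum _ fun r _ => (hintI r).integral_prod_left)
    (integrable_const _), integral_finsetSum _ fun r _ => (hintI r).integral_prod_left]
  simp only [integral_const, probReal_univ, one_smul]
  gcongr
  calc ∑ r ∈ Finset.range R, ∫ ω, ∫ ξ, Iw K e (Vw e V0 ω) γ η a lay (Bl e lay r) r ξ ∂(PC J) ∂(PU c J)
      ≤ ∑ r ∈ Finset.range R, η * (C * (Real.pi / c + 1)) := by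
        refine Finset.sum_le_sum fun r hr => ?_
        have h8 := integral_prod _ (hintI r)
        simp only at h8
        rw [← h8]
        exact mean_Iw hK he hγ hη a hc _ r (hC r (Finset.mem_range.1 hr))
    _ = R * (η * (C * (Real.pi / c + 1))) := by
        rw [Finset.sum_const, Finset.card_range, nsmul_eq_mul]

theorem fin_bound {r0 : ℕ} (ha : lay a < 2 * r0) {m : ℕ → ℝ} (hm0 : ∀ r, 0 ≤ m r)
    (hm1 : ∀ r, m r ≤ 1) (hm : ∀ x r, lay x = 2 * r ∨ lay x = 2 * r + 1 → m r ≤ γ x)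
    (hcard : ∀ r : ℕ, ((Finset.univ.filter fun x => lay x = 2 * r ∨ lay x = 2 * r + 1).card : ℝ) ≤
      32 * (r + 1)) {c : ℝ} (hc : 0 < c) (R : ℕ) {C S κ : ℝ} (hκ : 0 < κ)
    (hC : ∀ r < R, ((Finset.univ.filter fun x => lay x ≤ 2 * r).card : ℝ) ≤ C) (hS : 0 < S)
    (hSm : S ≤ ∑ r ∈ Finset.Ico r0 R, m r ^ 2 / (288 * (r + 1))) :
    ∫ z, min (Fr K e (Vw e V0 z.1) γ η z.2 a).im 1 ∂((PU c J).prod (PC J)) ≤
      1 / (c * κ) + (1 + κ) ^ 2 * (R * (η * (C * (Real.pi / c + 1))) + 1 / Real.sqrt S) := by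
  have hP := unif_prob c hc
  set U : Finset J := Finset.univ.image e with hUdef
  have hU : ∀ x, e x ∈ U := fun x => Finset.mem_image_of_mem e (Finset.mem_univ x)
  have h1 := trans_small hK he (V0 := V0) hγ hη a hlay hD ha hm0 hm1 hm hcard hU hc R hC hS hSm
  have h2 := tail_Fr hK he (V0 := V0) hγ hη a hc hκ
  have hpt : ∀ z : (J → ℝ) × (J → ℝ), min (Fr K e (Vw e V0 z.1) γ η z.2 a).im 1 ≤
      (if κ < ‖Fr K e (Vw e V0 z.1) γ η z.2 a‖ then (1 : ℝ) else 0) +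
        (1 + κ) ^ 2 * ((1 - ‖Rf K e (Vw e V0 z.1) γ η a U z.2‖ ^ 2) / 4) := by
    intro z
    have h3 := lead hK (e := e) (V := Vw e V0 z.1) hγ hη a hU z.2
    have h4 := Rf_le hK (e := e) (V := Vw e V0 z.1) hγ hη a U z.2
    have h5 : ‖Rf K e (Vw e V0 z.1) γ η a U z.2‖ ^ 2 ≤ 1 := pow_le_one₀ (norm_nonneg _) h4
    have h6 : 0 ≤ (1 - ‖Rf K e (Vw e V0 z.1) γ η a U z.2‖ ^ 2) / 4 := by linarith
    split_ifs with hc1
    · have : 0 ≤ (1 + κ) ^ 2 * ((1 - ‖Rf K e (Vw e V0 z.1) γ η a U z.2‖ ^ 2) / 4) := by positivity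
      have := min_le_right (Fr K e (Vw e V0 z.1) γ η z.2 a).im 1
      linarith
    · rw [zero_add]
      refine (min_le_left _ _).trans (h3.trans ?_)
      refine mul_le_mul_of_nonneg_right ?_ h6
      refine pow_le_pow_left₀ (by positivity) ?_ 2
      have := not_lt.1 hc1
      linarith
  have hi1 : Integrable (fun z : (J → ℝ) × (J → ℝ) =>
      (if κ < ‖Fr K e (Vw e V0 z.1) γ η z.2 a‖ then (1 : ℝ) else 0)) ((PU c J).prod (PC J)) :=
    Integrable.of_bound (C := 1) (Measurable.ite (measurableSet_lt measurable_const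
      (meas_Fr2 hK hγ hη a).norm) measurable_const measurable_const).aestronglyMeasurable
      (Filter.Eventually.of_forall fun z => by split_ifs <;> simp)
  have hi2 := int_Rf2 hK he (V0 := V0) hγ hη a hc U
  have hi3 : Integrable (fun z : (J → ℝ) × (J → ℝ) => min (Fr K e (Vw e V0 z.1) γ η z.2 a).im 1)
      ((PU c J).prod (PC J)) := by
    refine Integrable.of_bound (C := 1) ((Complex.measurable_im.comp
      (meas_Fr2 hK hγ hη a)).min measurable_const).aestronglyMeasurable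
      (Filter.Eventually.of_forall fun z => ?_)
    have := im_Fr_nonneg hK he hγ hη a (Vw e V0 z.1) z.2
    rw [Real.norm_of_nonneg (le_min this zero_le_one)]
    exact min_le_right _ _
  have h7 := integral_mono hi3 (hi1.add (hi2.const_mul _)) hpt
  refine h7.trans ?_
  simp only [Pi.add_apply]
  rw [integral_add hi1 (hi2.const_mul _), integral_const_mul]
  have : 0 ≤ (1 + κ) ^ 2 := sq_nonneg _
  nlinarith [mul_le_mul_of_nonneg_left h1 this]

end

end Pool.Agent.L0h56.CS
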