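import Pool.Agent.L0h56.CS.Sp

/-!
From finite volume to infinite volume.
-/

set_option autoImplicit false
set_option linter.unusedSectionVars false
set_option linter.unusedVariables false

open scoped BigOperators Topology
open Complex MeasureTheory Filter

namespace Pool.Agent.L0h56.CS

variable {d : ℕ}

/-- the hopping matrix of the box -/
noncomputable def KN (d N : ℕ) (x y : Bx d N) : ℝ := KK x.1 y.1

theorem KN_symm (d N : ℕ) (x y : Bx d N) : KN d N x y = KN d N y x := KK_symm _ _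

/-- real diagonal -/
def qN (N : ℕ) (v : (Fin d → ℤ) → ℝ) (x : Bx d N) : ℝ := 2 * d + v x.1

/-- the quadratic form `Im ⟨f, (H_N - E - iη)⁻¹ f⟩` -/
noncomputable def QN (N : ℕ) (v : (Fin d → ℤ) → ℝ) (E η : ℝ) (f : (Fin d → ℤ) → ℂ) : ℝ :=
  η * ∑ x : Bx d N, ‖Ru (KN d N) (qN N v) E η (fun x => f x.1) x‖ ^ 2

theorem sum_le_tail {u : (Fin d → ℤ) → ℂ} (hu : SqSummable u) (B S : Finset (Fin d → ℤ))
    (hd : Disjoint S B) : ∑ y ∈ S, ‖u y‖ ^ 2 ≤ ∑' y, ‖u y‖ ^ 2 - ∑ y ∈ B, ‖u y‖ ^ 2 := by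
  have h := hu.sum_le_tsum (S ∪ B) fun _ _ => sq_nonneg _
  rw [Finset.sum_union hd] at h
  linarith

theorem tail_tendsto {u : (Fin d → ℤ) → ℂ} (hu : SqSummable u) :
    Tendsto (fun N => ∑' y, ‖u y‖ ^ 2 - ∑ y ∈ Bx d N, ‖u y‖ ^ 2) atTop (𝓝 0) := by
  have h : Tendsto (fun N => ∑ y ∈ Bx d N, ‖u y‖ ^ 2) atTop (𝓝 (∑' y, ‖u y‖ ^ 2)) :=
    (Summable.hasSum hu).comp (Bx_tendsto d)
  have := (tendsto_const_nhds (x := ∑' y, ‖u y‖ ^ 2)).sub h
  simpa using this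

theorem sq_sum2 (a b : Fin d → ℂ) : ‖∑ i, (a i + b i)‖ ^ 2 ≤ 2 * d * ∑ i, (‖a i‖ ^ 2 + ‖b i‖ ^ 2) := by
  have h1 : ‖∑ i, (a i + b i)‖ ≤ ∑ i, (‖a i‖ + ‖b i‖) :=
    (norm_sum_le _ _).trans (Finset.sum_le_sum fun i _ => norm_add_le _ _)
  have h2 := sq_sum_le_card_mul_sum_sq (s := (Finset.univ : Finset (Fin d))) (f := fun i => ‖a i‖ + ‖b i‖)
  rw [Finset.card_univ, Fintype.card_fin] at h2
  have h3 : ∑ i : Fin d, (‖a i‖ + ‖b i‖) ^ 2 ≤ ∑ i : Fin d, 2 * (‖a i‖ ^ 2 + ‖b i‖ ^ 2) :=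
    Finset.sum_le_sum fun i _ => by nlinarith [sq_nonneg (‖a i‖ - ‖b i‖)]
  rw [← Finset.mul_sum] at h3
  have h4 : ‖∑ i, (a i + b i)‖ ^ 2 ≤ (∑ i, (‖a i‖ + ‖b i‖)) ^ 2 :=
    pow_le_pow_left₀ (norm_nonneg _) h1 2
  have h5 : (d : ℝ) * ∑ i : Fin d, (‖a i‖ + ‖b i‖) ^ 2 ≤ d * (2 * ∑ i, (‖a i‖ ^ 2 + ‖b i‖ ^ 2)) :=
    mul_le_mul_of_nonneg_left h3 (Nat.cast_nonneg d)
  linarith

/-- boundary term -/
noncomputable def bd (N : ℕ) (u : (Fin d → ℤ) → ℂ) (x : Fin d → ℤ) : ℂ :=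
  ∑ i : Fin d, ((if x + Pi.single i 1 ∈ Bx d N then 0 else u (x + Pi.single i 1)) +
    (if x - Pi.single i 1 ∈ Bx d N then 0 else u (x - Pi.single i 1)))

theorem shift_tail {u : (Fin d → ℤ) → ℂ} (hu : SqSummable u) (N : ℕ) (w : Fin d → ℤ) :
    ∑ x ∈ Bx d N, ‖(if x + w ∈ Bx d N then 0 else u (x + w))‖ ^ 2 ≤
      ∑' y, ‖u y‖ ^ 2 - ∑ y ∈ Bx d N, ‖u y‖ ^ 2 := by
  have h1 : ∑ x ∈ Bx d N, ‖(if x + w ∈ Bx d N then 0 else u (x + w))‖ ^ 2 =
      ∑ x ∈ (Bx d N).filter (fun x => x + w ∉ Bx d N), ‖u (x + w)‖ ^ 2 := by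
    rw [Finset.sum_filter]
    refine Finset.sum_congr rfl fun x _ => ?_
    by_cases h : x + w ∈ Bx d N
    · rw [if_pos h, if_neg (not_not.2 h)]; simp
    · rw [if_neg h, if_pos h]
  have h2 : ∑ x ∈ (Bx d N).filter (fun x => x + w ∉ Bx d N), ‖u (x + w)‖ ^ 2 =
      ∑ y ∈ ((Bx d N).filter (fun x => x + w ∉ Bx d N)).image (fun x => x + w), ‖u y‖ ^ 2 := by
    rw [Finset.sum_image fun x _ y _ h => add_right_cancel h]
  rw [h1, h2]
  refine sum_le_tail hu _ _ ?_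
  rw [Finset.disjoint_left]
  intro y hy
  rw [Finset.mem_image] at hy
  obtain ⟨x, hx, rfl⟩ := hy
  exact (Finset.mem_filter.1 hx).2

theorem bd_le {u : (Fin d → ℤ) → ℂ} (hu : SqSummable u) (N : ℕ) :
    ∑ x ∈ Bx d N, ‖bd N u x‖ ^ 2 ≤ 4 * d ^ 2 * (∑' y, ‖u y‖ ^ 2 - ∑ y ∈ Bx d N, ‖u y‖ ^ 2) := by
  set τ := ∑' y, ‖u y‖ ^ 2 - ∑ y ∈ Bx d N, ‖u y‖ ^ 2
  calc ∑ x ∈ Bx d N, ‖bd N u x‖ ^ 2 ≤ ∑ x ∈ Bx d N, (2 * d * ∑ i : Fin d,
        (‖(if x + Pi.single i 1 ∈ Bx d N then 0 else u (x + Pi.single i 1))‖ ^ 2 +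
         ‖(if x - Pi.single i 1 ∈ Bx d N then 0 else u (x - Pi.single i 1))‖ ^ 2)) :=
        Finset.sum_le_sum fun x _ => sq_sum2 _ _
    _ = 2 * d * ∑ i : Fin d, (∑ x ∈ Bx d N,
          ‖(if x + Pi.single i 1 ∈ Bx d N then 0 else u (x + Pi.single i 1))‖ ^ 2 +
          ∑ x ∈ Bx d N, ‖(if x - Pi.single i 1 ∈ Bx d N then 0 else u (x - Pi.single i 1))‖ ^ 2) := by
        rw [← Finset.mul_sum, Finset.sum_comm]
        simp only [Finset.sum_add_distrib]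
    _ ≤ 2 * d * ∑ i : Fin d, (τ + τ) := by
        refine mul_le_mul_of_nonneg_left (Finset.sum_le_sum fun i _ => add_le_add ?_ ?_) (by positivity)
        · exact shift_tail hu N _
        · have := shift_tail hu N (-Pi.single i 1)
          simpa only [← sub_eq_add_neg] using this
    _ = _ := by
        rw [Finset.sum_const, Finset.card_univ, Fintype.card_fin, nsmul_eq_mul]
        ring

theorem restr_eq {v : (Fin d → ℤ) → ℝ} {E η : ℝ} {u g : (Fin d → ℤ) → ℂ}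
    (h : ∀ x, H v u x - (E + η * I : ℂ) * u x = g x) (N : ℕ) :
    (MM (KN d N) (pE (qN N v) E η)).mulVec (fun x => u x.1) = fun x => g x.1 + bd N u x.1 := by
  funext x
  rw [mulVec_eq]
  have h1 : ∑ y : Bx d N, (KN d N x y : ℂ) * u y.1 = ∑ y ∈ Bx d N, (KK x.1 y : ℂ) * u y :=
    Finset.sum_coe_sort (Bx d N) (fun y => (KK x.1 y : ℂ) * u y)
  rw [h1, KK_apply, ← h x.1]
  unfold H bd pE qN
  have h2 : ∑ i : Fin d, ((u (x.1 + Pi.single i 1) - u x.1) + (u (x.1 - Pi.single i 1) - u x.1)) =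
      ∑ i : Fin d, ((if x.1 + Pi.single i 1 ∈ Bx d N then u (x.1 + Pi.single i 1) else 0) +
        (if x.1 - Pi.single i 1 ∈ Bx d N then u (x.1 - Pi.single i 1) else 0)) +
      ∑ i : Fin d, ((if x.1 + Pi.single i 1 ∈ Bx d N then 0 else u (x.1 + Pi.single i 1)) +
        (if x.1 - Pi.single i 1 ∈ Bx d N then 0 else u (x.1 - Pi.single i 1))) - 2 * d * u x.1 := by
    have h3 : (2 : ℂ) * d * u x.1 = ∑ i : Fin d, (2 * u x.1) := by
      rw [Finset.sum_const, Finset.card_univ, Fintype.card_fin, nsmul_eq_mul]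
      ring
    rw [h3, ← Finset.sum_add_distrib, ← Finset.sum_sub_distrib]
    refine Finset.sum_congr rfl fun i _ => ?_
    split_ifs <;> ring
  rw [h2]
  push_cast
  ring

theorem QN_tendsto {v : (Fin d → ℤ) → ℝ} {E η : ℝ} (hη : 0 < η) {u g : (Fin d → ℤ) → ℂ}
    (hu : SqSummable u) (hg : SqSummable g) (h : ∀ x, H v u x - (E + η * I : ℂ) * u x = g x) :
    Tendsto (fun N => QN N v E η g) atTop (𝓝 (∑' x, (starRingEnd ℂ) (g x) * u x).im) := by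
  -- the sum over the box with `u` itself
  have hsum : Summable fun x => (starRingEnd ℂ) (g x) * u x := by
    refine Summable.of_norm_bounded (g := fun x => (‖g x‖ ^ 2 + ‖u x‖ ^ 2)) (hg.add hu) fun x => ?_
    rw [norm_mul, Complex.norm_conj]
    nlinarith [sq_nonneg (‖g x‖ - ‖u x‖), norm_nonneg (g x), norm_nonneg (u x)]
  have h1 : Tendsto (fun N => ∑ x ∈ Bx d N, (starRingEnd ℂ) (g x) * u x) atTop
      (𝓝 (∑' x, (starRingEnd ℂ) (g x) * u x)) := hsum.hasSum.comp (Bx_tendsto d)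
  have h1' : Tendsto (fun N => (∑ x ∈ Bx d N, (starRingEnd ℂ) (g x) * u x).im) atTop
      (𝓝 (∑' x, (starRingEnd ℂ) (g x) * u x).im) :=
    (Complex.continuous_im.tendsto _).comp h1
  -- the difference
  set τ : ℕ → ℝ := fun N => ∑' y, ‖u y‖ ^ 2 - ∑ y ∈ Bx d N, ‖u y‖ ^ 2 with hτ
  set G : ℝ := ∑' y, ‖g y‖ ^ 2 with hG
  have hG0 : 0 ≤ G := tsum_nonneg fun _ => sq_nonneg _
  have h2 : ∀ N, |QN N v E η g - (∑ x ∈ Bx d N, (starRingEnd ℂ) (g x) * u x).im| ≤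
      Real.sqrt (G * (4 * d ^ 2 * τ N / η ^ 2)) := by
    intro N
    set uN := Ru (KN d N) (qN N v) E η (fun x => g x.1) with huN
    have e1 : QN N v E η g = (∑ x : Bx d N, (starRingEnd ℂ) (g x.1) * uN x).im := by
      unfold QN
      rw [Ru_im (KN_symm d N) (qN N v) E hη]
    have e2 : ∑ x ∈ Bx d N, (starRingEnd ℂ) (g x) * u x =
        ∑ x : Bx d N, (starRingEnd ℂ) (g x.1) * u x.1 :=
      (Finset.sum_coe_sort (Bx d N) (fun x => (starRingEnd ℂ) (g x) * u x)).symm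
    have e3 : (MM (KN d N) (pE (qN N v) E η)).mulVec (fun x => u x.1 - uN x) =
        fun x => bd N u x.1 := by
      have e4 : (fun x : Bx d N => u x.1 - uN x) = (fun x => u x.1) - uN := rfl
      rw [e4, Matrix.mulVec_sub, restr_eq h N, Ru_eq (KN_symm d N) (qN N v) E hη]
      funext x
      simp
    have e5 := norm_le_of (KN_symm d N) hη (fun x => by have := pE_im (qN N v) E η x; linarith) _ _ e3
    have e6 : ∑ x : Bx d N, ‖bd N u x.1‖ ^ 2 ≤ 4 * d ^ 2 * τ N := by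
      rw [Finset.sum_coe_sort (Bx d N) (fun x => ‖bd N u x‖ ^ 2)]
      exact bd_le hu N
    have e7 : ∑ x : Bx d N, ‖u x.1 - uN x‖ ^ 2 ≤ 4 * d ^ 2 * τ N / η ^ 2 := by
      rw [le_div_iff₀ (by positivity)]
      linarith
    have e8 : ∑ x : Bx d N, ‖g x.1‖ ^ 2 ≤ G := by
      rw [Finset.sum_coe_sort (Bx d N) (fun x => ‖g x‖ ^ 2)]
      exact hg.sum_le_tsum _ fun _ _ => sq_nonneg _
    rw [e1, e2, ← Complex.sub_im]
    refine (Complex.abs_im_le_norm _).trans ?_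
    rw [← Finset.sum_sub_distrib]
    refine Real.le_sqrt_of_sq_le ?_
    have e9 : ‖∑ x : Bx d N, ((starRingEnd ℂ) (g x.1) * uN x - (starRingEnd ℂ) (g x.1) * u x.1)‖ ≤
        ∑ x : Bx d N, ‖g x.1‖ * ‖u x.1 - uN x‖ := by
      refine (norm_sum_le _ _).trans (Finset.sum_le_sum fun x _ => ?_)
      rw [← mul_sub, norm_mul, Complex.norm_conj, norm_sub_rev]
    refine (pow_le_pow_left₀ (norm_nonneg _) e9 2).trans ?_
    refine (Finset.sum_mul_sq_le_sq_mul_sq _ _ _).trans ?_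
    exact mul_le_mul e8 e7 (Finset.sum_nonneg fun _ _ => sq_nonneg _) hG0
  have h3 : Tendsto (fun N => Real.sqrt (G * (4 * d ^ 2 * τ N / η ^ 2))) atTop (𝓝 0) := by
    have h4 : Tendsto τ atTop (𝓝 0) := tail_tendsto hu
    have h5 : Tendsto (fun N => G * (4 * d ^ 2 * τ N / η ^ 2)) atTop (𝓝 (G * (4 * d ^ 2 * 0 / η ^ 2))) :=
      ((h4.const_mul _).div_const _).const_mul _
    rw [mul_zero, zero_div, mul_zero] at h5
    have := (Real.continuous_sqrt.tendsto 0).comp h5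
    rwa [Real.sqrt_zero] at this
  have h6 : Tendsto (fun N => QN N v E η g - (∑ x ∈ Bx d N, (starRingEnd ℂ) (g x) * u x).im) atTop
      (𝓝 0) := squeeze_zero_norm (fun N => by rw [Real.norm_eq_abs]; exact h2 N) h3
  have := h6.add h1'
  simpa using this

end Pool.Agent.L0h56.CS
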