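import Mathlib

/-!
Finite complex symmetric matrices `K + diag p` with `K` real symmetric and `Im p < 0`.
-/

set_option autoImplicit false
set_option linter.unusedSectionVars false

open scoped BigOperators
open Complex

namespace Pool.Agent.L0h56.CS

variable {ι : Type*} [Fintype ι] [DecidableEq ι]

/-- the matrix `K + diag p` -/
noncomputable def MM (K : ι → ι → ℝ) (p : ι → ℂ) : Matrix ι ι ℂ :=
  Matrix.of fun x y => (K x y : ℂ) + if x = y then p x else 0

theorem MM_apply (K : ι → ι → ℝ) (p : ι → ℂ) (x y : ι) :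
    MM K p x y = (K x y : ℂ) + if x = y then p x else 0 := rfl

/-- its inverse -/
noncomputable def Gr (K : ι → ι → ℝ) (p : ι → ℂ) : Matrix ι ι ℂ := (MM K p)⁻¹

theorem mulVec_eq (K : ι → ι → ℝ) (p v : ι → ℂ) (x : ι) :
    (MM K p).mulVec v x = (∑ y, (K x y : ℂ) * v y) + p x * v x := by
  unfold Matrix.mulVec dotProduct
  simp only [MM_apply, add_mul, Finset.sum_add_distrib, ite_mul, zero_mul, Finset.sum_ite_eq,
    Finset.mem_univ, if_true]

/-- the flux identity -/
theorem flux {K : ι → ι → ℝ} (hK : ∀ x y, K x y = K y x) (p v f : ι → ℂ)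
    (h : (MM K p).mulVec v = f) (U : Finset ι) :
    ∑ x ∈ U, (-(p x).im) * ‖v x‖ ^ 2 =
      (∑ x ∈ U, ∑ y ∈ Uᶜ, ((starRingEnd ℂ) (v x) * ((K x y : ℂ) * v y)).im)
        - ∑ x ∈ U, ((starRingEnd ℂ) (v x) * f x).im := by
  have h1 : ∀ x, ((starRingEnd ℂ) (v x) * f x).im =
      (∑ y ∈ U, ((starRingEnd ℂ) (v x) * ((K x y : ℂ) * v y)).im) +
      (∑ y ∈ Uᶜ, ((starRingEnd ℂ) (v x) * ((K x y : ℂ) * v y)).im) + (p x).im * ‖v x‖ ^ 2 := by
    intro x
    rw [← h, mulVec_eq, mul_add, add_im, Finset.mul_sum, im_sum,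
      ← Finset.sum_add_sum_compl U (fun y => ((starRingEnd ℂ) (v x) * ((K x y : ℂ) * v y)).im)]
    congr 1
    have : (starRingEnd ℂ) (v x) * (p x * v x) = p x * ((‖v x‖ ^ 2 : ℝ) : ℂ) := by
      rw [← Complex.normSq_eq_norm_sq, Complex.normSq_eq_conj_mul_self]
      ring
    rw [this, Complex.mul_im, Complex.ofReal_re, Complex.ofReal_im]
    ring
  have h2 : ∑ x ∈ U, ∑ y ∈ U, ((starRingEnd ℂ) (v x) * ((K x y : ℂ) * v y)).im = 0 := by
    have h3 : ∑ x ∈ U, ∑ y ∈ U, ((starRingEnd ℂ) (v x) * ((K x y : ℂ) * v y)).im =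
        -∑ x ∈ U, ∑ y ∈ U, ((starRingEnd ℂ) (v x) * ((K x y : ℂ) * v y)).im := by
      conv_rhs => rw [Finset.sum_comm]
      rw [← Finset.sum_neg_distrib]
      refine Finset.sum_congr rfl fun x _ => ?_
      rw [← Finset.sum_neg_distrib]
      refine Finset.sum_congr rfl fun y _ => ?_
      rw [hK y x]
      simp only [mul_im, mul_re, conj_re, conj_im, ofReal_re, ofReal_im]
      ring
    linarith
  have h4 : ∑ x ∈ U, ((starRingEnd ℂ) (v x) * f x).im =
      (∑ x ∈ U, ∑ y ∈ U, ((starRingEnd ℂ) (v x) * ((K x y : ℂ) * v y)).im) +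
      (∑ x ∈ U, ∑ y ∈ Uᶜ, ((starRingEnd ℂ) (v x) * ((K x y : ℂ) * v y)).im) +
      ∑ x ∈ U, (p x).im * ‖v x‖ ^ 2 := by
    rw [← Finset.sum_add_distrib, ← Finset.sum_add_distrib]
    exact Finset.sum_congr rfl fun x _ => h1 x
  rw [h2, zero_add] at h4
  rw [h4]
  have h5 : ∑ x ∈ U, (-(p x).im) * ‖v x‖ ^ 2 = -∑ x ∈ U, (p x).im * ‖v x‖ ^ 2 := by
    rw [← Finset.sum_neg_distrib]
    exact Finset.sum_congr rfl fun x _ => by ring
  rw [h5]
  ring

/-- the full flux identity -/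
theorem flux_univ {K : ι → ι → ℝ} (hK : ∀ x y, K x y = K y x) (p v f : ι → ℂ)
    (h : (MM K p).mulVec v = f) :
    ∑ x, (-(p x).im) * ‖v x‖ ^ 2 = -∑ x, ((starRingEnd ℂ) (v x) * f x).im := by
  have := flux hK p v f h Finset.univ
  simpa using this

/-- the matrix is invertible -/
theorem det_ne {K : ι → ι → ℝ} (hK : ∀ x y, K x y = K y x) {p : ι → ℂ}
    (hp : ∀ x, (p x).im < 0) : (MM K p).det ≠ 0 := by
  intro h0
  obtain ⟨v, hv, hMv⟩ := Matrix.exists_mulVec_eq_zero_iff.2 h0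
  have h1 := flux_univ hK p v 0 hMv
  simp only [Pi.zero_apply, mul_zero, zero_im, Finset.sum_const_zero, neg_zero] at h1
  apply hv
  funext x
  have h2 := (Finset.sum_eq_zero_iff_of_nonneg (fun x _ =>
    mul_nonneg (neg_nonneg.2 (hp x).le) (sq_nonneg ‖v x‖))).1 h1 x (Finset.mem_univ x)
  rcases mul_eq_zero.1 h2 with h3 | h3
  · exact absurd h3 (by have := hp x; linarith)
  · simpa using h3

theorem mul_Gr {K : ι → ι → ℝ} (hK : ∀ x y, K x y = K y x) {p : ι → ℂ}
    (hp : ∀ x, (p x).im < 0) : MM K p * Gr K p = 1 :=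
  Matrix.mul_nonsing_inv _ (isUnit_iff_ne_zero.2 (det_ne hK hp))

theorem Gr_mul {K : ι → ι → ℝ} (hK : ∀ x y, K x y = K y x) {p : ι → ℂ}
    (hp : ∀ x, (p x).im < 0) : Gr K p * MM K p = 1 :=
  Matrix.nonsing_inv_mul _ (isUnit_iff_ne_zero.2 (det_ne hK hp))

theorem Gr_symm {K : ι → ι → ℝ} (hK : ∀ x y, K x y = K y x) (p : ι → ℂ) (x y : ι) :
    Gr K p x y = Gr K p y x := by
  have h : (MM K p).transpose = MM K p := by
    ext i j
    rw [Matrix.transpose_apply, MM_apply, MM_apply, hK j i]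
    by_cases hij : i = j
    · subst hij; rfl
    · rw [if_neg hij, if_neg (Ne.symm hij)]
  have h2 : (Gr K p).transpose = Gr K p := by
    unfold Gr
    rw [Matrix.transpose_nonsing_inv, h]
  calc Gr K p x y = (Gr K p).transpose y x := rfl
    _ = _ := by rw [h2]

/-- the column of the inverse solves the equation -/
theorem col_eq {K : ι → ι → ℝ} (hK : ∀ x y, K x y = K y x) {p : ι → ℂ}
    (hp : ∀ x, (p x).im < 0) (a : ι) :
    (MM K p).mulVec (fun x => Gr K p x a) = Pi.single a 1 := by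
  have h := mul_Gr hK hp
  funext x
  have h1 : (MM K p * Gr K p) x a = (1 : Matrix ι ι ℂ) x a := by rw [h]
  rw [Matrix.mul_apply] at h1
  unfold Matrix.mulVec dotProduct
  rw [h1, Matrix.one_apply]
  by_cases hx : x = a
  · subst hx; simp
  · simp [hx]

/-- `Im G_aa = Σ_x (-Im p_x) |G_xa|²` -/
theorem im_Gr {K : ι → ι → ℝ} (hK : ∀ x y, K x y = K y x) {p : ι → ℂ}
    (hp : ∀ x, (p x).im < 0) (a : ι) :
    (Gr K p a a).im = ∑ x, (-(p x).im) * ‖Gr K p x a‖ ^ 2 := by
  rw [flux_univ hK p _ _ (col_eq hK hp a)]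
  rw [Finset.sum_eq_single a]
  · simp
  · intro b _ hb
    simp [hb]
  · intro h; exact absurd (Finset.mem_univ a) h

theorem Gr_ne {K : ι → ι → ℝ} (hK : ∀ x y, K x y = K y x) {p : ι → ℂ}
    (hp : ∀ x, (p x).im < 0) (a : ι) : Gr K p a a ≠ 0 := by
  intro h0
  have h := im_Gr hK hp a
  rw [h0, zero_im] at h
  have h2 : ∀ x, Gr K p x a = 0 := by
    intro x
    have h2 := (Finset.sum_eq_zero_iff_of_nonneg (fun x _ =>
      mul_nonneg (neg_nonneg.2 (hp x).le) (sq_nonneg ‖Gr K p x a‖))).1 h.symm x (Finset.mem_univ x)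
    rcases mul_eq_zero.1 h2 with h3 | h3
    · exact absurd h3 (by have := hp x; linarith)
    · simpa using h3
  have h3 := congrFun (col_eq hK hp a) a
  rw [mulVec_eq] at h3
  simp [h2] at h3

theorem im_Gr_ge {K : ι → ι → ℝ} (hK : ∀ x y, K x y = K y x) {p : ι → ℂ}
    (hp : ∀ x, (p x).im < 0) (a y : ι) :
    (-(p y).im) * ‖Gr K p y a‖ ^ 2 ≤ (Gr K p a a).im := by
  rw [im_Gr hK hp a]
  exact Finset.single_le_sum (f := fun x => (-(p x).im) * ‖Gr K p x a‖ ^ 2)
    (fun x _ => mul_nonneg (neg_nonneg.2 (hp x).le) (sq_nonneg _)) (Finset.mem_univ y)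

/-- `|G_aa| ≤ 1/(-Im p_a)` -/
theorem norm_Gr_le {K : ι → ι → ℝ} (hK : ∀ x y, K x y = K y x) {p : ι → ℂ}
    (hp : ∀ x, (p x).im < 0) (a : ι) : (-(p a).im) * ‖Gr K p a a‖ ≤ 1 := by
  have h1 := im_Gr_ge hK hp a a
  have h2 : (Gr K p a a).im ≤ ‖Gr K p a a‖ := (le_abs_self _).trans (Complex.abs_im_le_norm _)
  have h3 : 0 < ‖Gr K p a a‖ := norm_pos_iff.2 (Gr_ne hK hp a)
  have h4 : (-(p a).im) * ‖Gr K p a a‖ * ‖Gr K p a a‖ ≤ 1 * ‖Gr K p a a‖ := by nlinarith
  exact le_of_mul_le_mul_right h4 h3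

/-- resolvent identity for a change at one site -/
theorem MM_update (K : ι → ι → ℝ) (p : ι → ℂ) (y : ι) (t : ℂ) :
    MM K (Function.update p y (p y + t)) = MM K p + t • Matrix.single y y (1 : ℂ) := by
  ext i j
  rw [Matrix.add_apply, Matrix.smul_apply, Matrix.single_apply, MM_apply, MM_apply]
  by_cases hij : i = j
  · subst hij
    by_cases hi : i = y
    · subst hi; simp
      ring
    · rw [if_pos rfl, if_pos rfl, Function.update_of_ne hi, if_neg (by tauto)]
      simp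
  · rw [if_neg hij, if_neg hij, if_neg (by intro h; exact hij (h.1.symm.trans h.2))]
    simp

theorem rank_one {K : ι → ι → ℝ} (hK : ∀ x y, K x y = K y x) {p : ι → ℂ}
    (hp : ∀ x, (p x).im < 0) (y : ι) (t : ℂ) (ht : (p y + t).im < 0) (x a : ι) :
    Gr K p x a - Gr K (Function.update p y (p y + t)) x a =
      t * Gr K p x y * Gr K (Function.update p y (p y + t)) y a := by
  have hp' : ∀ x, (Function.update p y (p y + t) x).im < 0 := by
    intro x
    by_cases hx : x = y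
    · subst hx; rw [Function.update_self]; exact ht
    · rw [Function.update_of_ne hx]; exact hp x
  have h1 := mul_Gr hK hp'
  have h2 := Gr_mul hK hp
  have h3 : Gr K p - Gr K (Function.update p y (p y + t)) =
      Gr K p * (t • Matrix.single y y (1 : ℂ)) * Gr K (Function.update p y (p y + t)) := by
    have e : (t • Matrix.single y y (1 : ℂ)) = MM K (Function.update p y (p y + t)) - MM K p := by
      rw [MM_update]; abel
    rw [e, Matrix.mul_sub, Matrix.sub_mul, h2, Matrix.mul_assoc, h1, Matrix.mul_one, Matrix.one_mul]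
  have h4 := congrFun (congrFun h3 x) a
  rw [Matrix.sub_apply] at h4
  rw [h4, Matrix.mul_apply]
  have h5 : ∀ j, (Gr K p * (t • Matrix.single y y (1 : ℂ))) x j = if j = y then t * Gr K p x y else 0 := by
    intro j
    rw [Matrix.mul_apply]
    rw [Finset.sum_eq_single y]
    · rw [Matrix.smul_apply, Matrix.single_apply]
      by_cases hj : j = y
      · subst hj; simp; ring
      · rw [if_neg (by tauto), if_neg hj]; simp
    · intro b _ hb
      rw [Matrix.smul_apply, Matrix.single_apply, if_neg (by tauto)]; simp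
    · intro h; exact absurd (Finset.mem_univ y) h
  simp only [h5, ite_mul, zero_mul, Finset.sum_ite_eq', Finset.mem_univ, if_true]

theorem one_add_ne {K : ι → ι → ℝ} (hK : ∀ x y, K x y = K y x) {p : ι → ℂ}
    (hp : ∀ x, (p x).im < 0) (y : ι) (t : ℂ) (ht : (p y + t).im < 0) :
    1 + t * Gr K p y y ≠ 0 := by
  intro h0
  have h1 := rank_one hK hp y t ht y y
  have h2 : Gr K p y y = (1 + t * Gr K p y y) * Gr K (Function.update p y (p y + t)) y y := by
    linear_combination h1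
  rw [h0, zero_mul] at h2
  exact Gr_ne hK hp y h2

/-- the change of the inverse -/
theorem Gr_update {K : ι → ι → ℝ} (hK : ∀ x y, K x y = K y x) {p : ι → ℂ}
    (hp : ∀ x, (p x).im < 0) (y : ι) (t : ℂ) (ht : (p y + t).im < 0) (x a : ι) :
    Gr K (Function.update p y (p y + t)) x a =
      Gr K p x a - t * Gr K p x y * Gr K p y a / (1 + t * Gr K p y y) := by
  have hne := one_add_ne hK hp y t ht
  have h1 := rank_one hK hp y t ht y a
  have h2 : Gr K (Function.update p y (p y + t)) y a = Gr K p y a / (1 + t * Gr K p y y) := by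
    rw [eq_div_iff hne]
    linear_combination -h1
  have h3 := rank_one hK hp y t ht x a
  rw [h2] at h3
  have h4 : t * Gr K p x y * (Gr K p y a / (1 + t * Gr K p y y)) =
      t * Gr K p x y * Gr K p y a / (1 + t * Gr K p y y) := by ring
  rw [h4] at h3
  linear_combination -h3

/-- entries of the inverse are measurable functions of the diagonal -/
theorem measurable_Gr {Ω : Type*} [MeasurableSpace Ω] (K : ι → ι → ℝ) {p : Ω → ι → ℂ}
    (hp : ∀ x, Measurable fun ω => p ω x) (x y : ι) : Measurable fun ω => Gr K (p ω) x y := by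
  have hc : Continuous fun q : ι → ℂ => MM K q := by
    refine continuous_matrix fun i j => ?_
    simp only [MM_apply]
    by_cases h : i = j
    · simp only [h, if_true]
      exact continuous_const.add (continuous_apply _)
    · simp only [if_neg h]
      exact continuous_const
  have hd : Measurable fun q : ι → ℂ => (MM K q)⁻¹ x y := by
    simp only [Matrix.inv_def, Matrix.smul_apply, Ring.inverse_eq_inv', smul_eq_mul]
    have h1 : Continuous fun q : ι → ℂ => (MM K q).det := hc.matrix_det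
    have h2 : Continuous fun q : ι → ℂ => (MM K q).adjugate x y :=
      (continuous_apply y).comp ((continuous_apply x).comp hc.matrix_adjugate)
    exact h1.measurable.inv.mul h2.measurable
  have hp' : Measurable p := measurable_pi_iff.2 hp
  exact hd.comp hp'

/-- dissipative matrices are bounded below -/
theorem norm_le_of {K : ι → ι → ℝ} (hK : ∀ x y, K x y = K y x) {p : ι → ℂ} {η : ℝ} (hη : 0 < η)
    (hp : ∀ x, (p x).im ≤ -η) (v f : ι → ℂ) (h : (MM K p).mulVec v = f) :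
    η ^ 2 * ∑ x, ‖v x‖ ^ 2 ≤ ∑ x, ‖f x‖ ^ 2 := by
  have h1 := flux_univ hK p v f h
  have h2 : η * ∑ x, ‖v x‖ ^ 2 ≤ ∑ x, ‖v x‖ * ‖f x‖ := by
    calc η * ∑ x, ‖v x‖ ^ 2 = ∑ x, η * ‖v x‖ ^ 2 := by rw [Finset.mul_sum]
      _ ≤ ∑ x, (-(p x).im) * ‖v x‖ ^ 2 :=
          Finset.sum_le_sum fun x _ => mul_le_mul_of_nonneg_right (by have := hp x; linarith)
            (sq_nonneg _)
      _ = -∑ x, ((starRingEnd ℂ) (v x) * f x).im := h1
      _ = ∑ x, -((starRingEnd ℂ) (v x) * f x).im := by rw [Finset.sum_neg_distrib]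
      _ ≤ ∑ x, ‖v x‖ * ‖f x‖ := Finset.sum_le_sum fun x _ => by
          have := Complex.abs_im_le_norm ((starRingEnd ℂ) (v x) * f x)
          rw [norm_mul, Complex.norm_conj] at this
          exact (neg_le_abs _).trans this
  have h3 : (∑ x, ‖v x‖ * ‖f x‖) ^ 2 ≤ (∑ x, ‖v x‖ ^ 2) * ∑ x, ‖f x‖ ^ 2 :=
    Finset.sum_mul_sq_le_sq_mul_sq _ _ _
  set A := ∑ x, ‖v x‖ ^ 2
  set B := ∑ x, ‖f x‖ ^ 2
  have hA : 0 ≤ A := Finset.sum_nonneg fun _ _ => sq_nonneg _
  have hB : 0 ≤ B := Finset.sum_nonneg fun _ _ => sq_nonneg _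
  rcases hA.eq_or_lt with h0 | h0
  · rw [← h0]; simpa using hB
  · have h4 : (η * A) ^ 2 ≤ A * B := by
      have h5 : (η * A) ^ 2 ≤ (∑ x, ‖v x‖ * ‖f x‖) ^ 2 :=
        pow_le_pow_left₀ (by positivity) h2 2
      linarith
    have h6 : (η ^ 2 * A) * A ≤ B * A := by nlinarith
    exact le_of_mul_le_mul_right h6 h0

end Pool.Agent.L0h56.CS
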