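import Pool.Agent.L0h56.CS.Sing

/-!
Almost sure singularity in two dimensions.
-/

set_option autoImplicit false
set_option linter.unusedSectionVars false
set_option linter.unusedVariables false

open scoped BigOperators Topology ENNReal
open Complex MeasureTheory Filter

namespace Pool.Agent.L0h56.CS

/-- the potential -/
def vv (W γ : (Fin 2 → ℤ) → ℝ) (z : ((Fin 2 → ℤ) → ℝ) × ((Fin 2 → ℤ) → ℝ)) (x : Fin 2 → ℤ) : ℝ :=
  W x + z.1 x + γ x * z.2 x

theorem gI_eq (W γ : (Fin 2 → ℤ) → ℝ) (N : ℕ) (z : ((Fin 2 → ℤ) → ℝ) × ((Fin 2 → ℤ) → ℝ)) (E η : ℝ)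
    (a : Fin 2 → ℤ) (h : a ∈ Bx 2 N) :
    gI N (vv W γ z) E η a = (Fr (KN 2 N) Subtype.val (Vw Subtype.val (fun x : Bx 2 N => 4 - E + W x.1) z.1)
      (fun x : Bx 2 N => γ x.1) η z.2 ⟨a, h⟩).im := by
  unfold gI Fr
  rw [dif_pos h]
  have : pE (qN N (vv W γ z)) E η = q0 Subtype.val (Vw Subtype.val (fun x : Bx 2 N => 4 - E + W x.1) z.1)
      (fun x : Bx 2 N => γ x.1) η z.2 := by
    funext x
    unfold pE qN q0 Vw vv
    push_cast
    ring
  rw [this]

theorem meas_gIz (W γ : (Fin 2 → ℤ) → ℝ) (N : ℕ) (η : ℝ) (a : Fin 2 → ℤ) :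
    Measurable fun p : (((Fin 2 → ℤ) → ℝ) × ((Fin 2 → ℤ) → ℝ)) × ℝ => gI N (vv W γ p.1) p.2 η a := by
  unfold gI
  split_ifs with h
  · refine Complex.measurable_im.comp (measurable_Gr _ (fun z => ?_) _ _)
    unfold pE qN vv
    refine Measurable.sub (Complex.measurable_ofReal.comp (Measurable.sub (Measurable.add
      measurable_const (Measurable.add (Measurable.add measurable_const ?_)
      (Measurable.mul measurable_const ?_))) measurable_snd)) measurable_const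
    · exact (measurable_pi_apply _).comp (measurable_fst.comp measurable_fst)
    · exact (measurable_pi_apply _).comp (measurable_snd.comp measurable_fst)
  · exact measurable_const

section

variable {c : ℝ} (hc : 0 < c) (W : (Fin 2 → ℤ) → ℝ) {γ : (Fin 2 → ℤ) → ℝ} (hγ : ∀ x, 0 ≤ γ x) {m : ℕ → ℝ}
  (hm0 : ∀ r, 0 ≤ m r) (hm1 : ∀ r, m r ≤ 1)
  (hm : ∀ x r, ly x = 2 * r ∨ ly x = 2 * r + 1 → m r ≤ γ x)
  (hdiv : ¬ Summable fun r : ℕ => m r ^ 2 / (r + 1))

include hc hγ hm0 hm1 hm hdiv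

theorem small (k : ℕ) {ε : ℝ} (hε : 0 < ε) : ∃ η0 : ℝ, 0 < η0 ∧ ∀ η, 0 < η → η ≤ η0 →
    ∀ (N : ℕ) (E : ℝ) (a : Fin 2 → ℤ), a ∈ Bx 2 k →
      ∫ z, min (gI N (vv W γ z) E η a) 1 ∂((PU c (Fin 2 → ℤ)).prod (PC (Fin 2 → ℤ))) ≤ ε := by
  have hP := unif_prob c hc
  set κ : ℝ := 4 / (c * ε) with hκ
  have hκ0 : 0 < κ := by positivity
  -- `S`
  set S : ℝ := (4 * (1 + κ) ^ 2 / ε) ^ 2 with hS
  have hS0 : 0 < S := by positivity
  have hsS : Real.sqrt S = 4 * (1 + κ) ^ 2 / ε := Real.sqrt_sq (by positivity)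
  obtain ⟨R, hR⟩ : ∃ R : ℕ, S ≤ ∑ r ∈ Finset.Ico (k + 1) R, m r ^ 2 / (288 * (r + 1)) := by
    have h1 : ¬ Summable fun r : ℕ => m r ^ 2 / (288 * ((r : ℝ) + 1)) := by
      intro h2
      apply hdiv
      refine (h2.mul_left 288).congr fun r => ?_
      field_simp
    have h2 := (not_summable_iff_tendsto_nat_atTop_of_nonneg (fun r => by positivity)).1 h1
    obtain ⟨R, hR⟩ := (h2.eventually_ge_atTop
      (S + ∑ r ∈ Finset.range (k + 1), m r ^ 2 / (288 * ((r : ℝ) + 1)))).and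
      (eventually_ge_atTop (k + 1)) |>.exists
    refine ⟨R, ?_⟩
    rw [Finset.sum_Ico_eq_sub _ hR.2]
    linarith [hR.1]
  set C : ℝ := (4 * R + 1) ^ 2 with hC
  set D : ℝ := (1 + κ) ^ 2 * (R * (C * (Real.pi / c + 1))) + 1 with hD
  have hD0 : 0 < D := by
    have := Real.pi_pos
    positivity
  refine ⟨ε / (4 * D), by positivity, fun η hη hη0 N E a ha => ?_⟩
  by_cases haN : a ∈ Bx 2 N
  · simp only [gI_eq W γ N _ E η a haN]
    have hb := fin_bound (K := KN 2 N) (KN_symm 2 N) (e := Subtype.val) Subtype.val_injective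
      (V0 := fun x : Bx 2 N => 4 - E + W x.1) (γ := fun x : Bx 2 N => γ x.1) (fun x => hγ x.1) hη ⟨a, haN⟩
      (lay := fun x : Bx 2 N => ly x.1) (fun x y h => KK_ly h)
      (fun x => by
        unfold KN
        rw [Finset.sum_coe_sort (Bx 2 N) (fun y => |KK x.1 y|)]
        refine (KK_sum _ _).trans ?_
        norm_num)
      (r0 := k + 1) (by
        have := ly_le.2 ha
        change ly a < 2 * (k + 1)
        omega) hm0 hm1 (fun x r h => hm x.1 r h) (card_layer N) hc R (C := C) (S := S) (κ := κ) hκ0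
      (fun r hr => by
        refine (card_ball N r).trans ?_
        rw [hC]
        have : (r : ℝ) ≤ R := by exact_mod_cast hr.le
        gcongr) hS0 hR
    refine hb.trans ?_
    have e1 : 1 / (c * κ) = ε / 4 := by
      rw [hκ]
      field_simp
    have e2 : (1 + κ) ^ 2 * (1 / Real.sqrt S) = ε / 4 := by
      rw [hsS]
      field_simp
    have e3 : (1 + κ) ^ 2 * (R * (η * (C * (Real.pi / c + 1)))) ≤ ε / 4 := by
      have h1 : (1 + κ) ^ 2 * (R * (η * (C * (Real.pi / c + 1)))) = η * (D - 1) := by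
        rw [hD]; ring
      rw [h1]
      calc η * (D - 1) ≤ η * D := by nlinarith
        _ ≤ ε / (4 * D) * D := mul_le_mul_of_nonneg_right hη0 hD0.le
        _ = ε / 4 := by field_simp
    rw [mul_add, e1, e2]
    linarith
  · have : ∀ z, gI N (vv W γ z) E η a = 0 := by
      intro z
      unfold gI
      rw [dif_neg haN]
    simp only [this]
    simp
    exact hε.le

theorem mean_X (k : ℕ) : ∃ η0 : ℝ, 0 < η0 ∧ ∀ η, 0 < η → η ≤ η0 → ∀ N : ℕ,
    ∫⁻ z, XN N k (vv W γ z) η ∂((PU c (Fin 2 → ℤ)).prod (PC (Fin 2 → ℤ))) ≤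
      ENNReal.ofReal ((1 / 4) ^ k) := by
  have hP := unif_prob c hc
  set D : ℝ := 2 * k * (Bx 2 k).card + 1 with hD
  have hD0 : 0 < D := by positivity
  obtain ⟨η0, hη0, h⟩ := small hc W hγ hm0 hm1 hm hdiv k (ε := (1 / 4) ^ k / D) (by positivity)
  refine ⟨η0, hη0, fun η hη hη1 N => ?_⟩
  have hm : Measurable fun p : (((Fin 2 → ℤ) → ℝ) × ((Fin 2 → ℤ) → ℝ)) × ℝ =>
      ∑ a ∈ Bx 2 k, ENNReal.ofReal (min (gI N (vv W γ p.1) p.2 η a) 1) :=
    Finset.measurable_sum _ fun a _ => ((meas_gIz W γ N η a).min measurable_const).ennreal_ofReal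
  unfold XN
  rw [lintegral_lintegral_swap hm.aemeasurable]
  have h1 : ∀ E, ∫⁻ z, ∑ a ∈ Bx 2 k, ENNReal.ofReal (min (gI N (vv W γ z) E η a) 1)
      ∂((PU c (Fin 2 → ℤ)).prod (PC (Fin 2 → ℤ))) ≤
      ENNReal.ofReal ((Bx 2 k).card * ((1 / 4) ^ k / D)) := by
    intro E
    have hmE : ∀ a, Measurable fun z : ((Fin 2 → ℤ) → ℝ) × ((Fin 2 → ℤ) → ℝ) =>
        min (gI N (vv W γ z) E η a) 1 := by
      intro a
      have hpair : Measurable fun z : ((Fin 2 → ℤ) → ℝ) × ((Fin 2 → ℤ) → ℝ) => (z, E) :=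
        measurable_id.prodMk measurable_const
      exact ((meas_gIz W γ N η a).comp hpair).min measurable_const
    rw [lintegral_finsetSum _ fun a _ => (hmE a).ennreal_ofReal]
    have h2 : ∀ a ∈ Bx 2 k, ∫⁻ z, ENNReal.ofReal (min (gI N (vv W γ z) E η a) 1)
        ∂((PU c (Fin 2 → ℤ)).prod (PC (Fin 2 → ℤ))) ≤ ENNReal.ofReal ((1 / 4) ^ k / D) := by
      intro a ha
      have hnn : ∀ z, 0 ≤ min (gI N (vv W γ z) E η a) 1 := fun z =>
        le_min (gI_nonneg N _ E hη a) zero_le_one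
      rw [← ofReal_integral_eq_lintegral_ofReal ?_ (Eventually.of_forall hnn)]
      · exact ENNReal.ofReal_le_ofReal (h η hη hη1 N E a ha)
      · refine Integrable.of_bound (C := 1) (hmE a).aestronglyMeasurable
          (Eventually.of_forall fun z => ?_)
        rw [Real.norm_of_nonneg (hnn z)]
        exact min_le_right _ _
    refine (Finset.sum_le_sum h2).trans ?_
    rw [Finset.sum_const, nsmul_eq_mul, ENNReal.ofReal_mul (Nat.cast_nonneg _),
      ENNReal.ofReal_natCast]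
  refine (lintegral_mono h1).trans ?_
  rw [setLIntegral_const, Real.volume_Icc, ← ENNReal.ofReal_mul (by positivity)]
  refine ENNReal.ofReal_le_ofReal ?_
  have h3 : ((Bx 2 k).card * ((1 / 4) ^ k / D) : ℝ) * (k - -k) = (1 / 4) ^ k * ((D - 1) / D) := by
    rw [hD]; field_simp; ring
  rw [h3]
  have h4 : (D - 1) / D ≤ 1 := by
    rw [div_le_one hD0]; linarith
  have h5 : (0 : ℝ) < (1 / 4) ^ k := by positivity
  nlinarith

/-- **Almost sure singularity.** -/
theorem as_sing : ∀ᵐ z ∂((PU c (Fin 2 → ℤ)).prod (PC (Fin 2 → ℤ))),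
    ∀ g : (Fin 2 → ℤ) → ℂ, SqSummable g → ∀ μ : Measure ℝ, IsSpectralMeasure (H (vv W γ z)) g μ →
      μ ⟂ₘ volume := by
  have hP := unif_prob c hc
  choose η0 hη0 hX using mean_X hc W hγ hm0 hm1 hm hdiv
  set ηs : ℕ → ℝ := fun k => min (η0 k) (1 / ((k : ℝ) + 1)) with hηs
  have hηpos : ∀ k, 0 < ηs k := fun k => lt_min (hη0 k) (by positivity)
  have hηlim : Tendsto ηs atTop (𝓝 0) := by
    refine squeeze_zero (fun k => (hηpos k).le) (fun k => min_le_right _ _)
      tendsto_one_div_add_atTop_nhds_zero_nat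
  have hmX : ∀ N k, Measurable fun z => XN N k (vv W γ z) (ηs k) := by
    intro N k
    unfold XN
    have hm : Measurable fun p : (((Fin 2 → ℤ) → ℝ) × ((Fin 2 → ℤ) → ℝ)) × ℝ =>
        ∑ a ∈ Bx 2 k, ENNReal.ofReal (min (gI N (vv W γ p.1) p.2 (ηs k) a) 1) :=
      Finset.measurable_sum _ fun a _ => ((meas_gIz W γ N _ a).min measurable_const).ennreal_ofReal
    exact hm.lintegral_prod_right'
  have hev : ∀ᵐ z ∂((PU c (Fin 2 → ℤ)).prod (PC (Fin 2 → ℤ))), ∀ᶠ k in atTop,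
      z ∉ {z | ENNReal.ofReal ((1 / 2) ^ k) ≤ liminf (fun N => XN N k (vv W γ z) (ηs k)) atTop} := by
    refine ae_eventually_notMem ?_
    have h1 : ∀ k : ℕ, ((PU c (Fin 2 → ℤ)).prod (PC (Fin 2 → ℤ)))
        {z | ENNReal.ofReal ((1 / 2) ^ k) ≤ liminf (fun N => XN N k (vv W γ z) (ηs k)) atTop} ≤
        ENNReal.ofReal ((1 / 2) ^ k) := by
      intro k
      have hpos : ENNReal.ofReal ((1 / 2 : ℝ) ^ k) ≠ 0 := by
        rw [ne_eq, ENNReal.ofReal_eq_zero, not_le]; positivity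
      refine (meas_ge_le_lintegral_div (Measurable.liminf fun N => hmX N k).aemeasurable hpos
        ENNReal.ofReal_ne_top).trans ?_
      rw [ENNReal.div_le_iff hpos ENNReal.ofReal_ne_top, ← ENNReal.ofReal_mul (by positivity)]
      refine (lintegral_liminf_le fun N => hmX N k).trans ?_
      have h2 : ((1 / 2 : ℝ) ^ k * (1 / 2) ^ k) = (1 / 4) ^ k := by
        rw [← mul_pow]; norm_num
      rw [h2]
      refine (liminf_le_limsup).trans (limsup_le_of_le (h := Eventually.of_forall fun N => ?_))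
      exact hX k (ηs k) (hηpos k) (min_le_left _ _) N
    refine ne_top_of_le_ne_top ?_ (ENNReal.tsum_le_tsum h1)
    rw [← ENNReal.ofReal_tsum_of_nonneg (fun k => by positivity)
      (summable_geometric_of_lt_one (by norm_num) (by norm_num))]
    exact ENNReal.ofReal_ne_top
  filter_upwards [hev] with z hz g hg μ hμ
  refine sing_of hηpos hηlim ?_ hg hμ
  filter_upwards [hz] with k hk
  have hk' : liminf (fun N => XN N k (vv W γ z) (ηs k)) atTop < ENNReal.ofReal ((1 / 2) ^ k) :=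
    not_le.1 hk
  exact frequently_lt_of_liminf_lt (h := hk')

end

end Pool.Agent.L0h56.CS
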