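import Pool.Agent.L0h56.CS.Lim

/-!
A criterion for purely singular spectrum.
-/

set_option autoImplicit false
set_option linter.unusedSectionVars false
set_option linter.unusedVariables false

open scoped BigOperators Topology ENNReal
open Complex MeasureTheory Filter

namespace Pool.Agent.L0h56.CS

variable {d : ℕ}

open Classical in
/-- `Im G_N(a, a; E + iη)` -/
noncomputable def gI (N : ℕ) (v : (Fin d → ℤ) → ℝ) (E η : ℝ) (a : Fin d → ℤ) : ℝ :=
  if h : a ∈ Bx d N then (Gr (KN d N) (pE (qN N v) E η) ⟨a, h⟩ ⟨a, h⟩).im else 0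

theorem gI_nonneg (N : ℕ) (v : (Fin d → ℤ) → ℝ) (E : ℝ) {η : ℝ} (hη : 0 < η) (a : Fin d → ℤ) :
    0 ≤ gI N v E η a := by
  unfold gI
  split_ifs with h
  · rw [im_Gr (KN_symm d N) (pE_neg _ E hη)]
    refine Finset.sum_nonneg fun x _ => ?_
    rw [pE_im]
    positivity
  · exact le_refl _

/-- mean of the imaginary parts -/
noncomputable def XN (N k : ℕ) (v : (Fin d → ℤ) → ℝ) (η : ℝ) : ℝ≥0∞ :=
  ∫⁻ E in Set.Icc (-(k : ℝ)) k, ∑ a ∈ Bx d k, ENNReal.ofReal (min (gI N v E η a) 1)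

theorem meas_gI (N : ℕ) (v : (Fin d → ℤ) → ℝ) (η : ℝ) (a : Fin d → ℤ) :
    Measurable fun E => gI N v E η a := by
  unfold gI
  split_ifs with h
  · refine Complex.measurable_im.comp (measurable_Gr _ (fun z => ?_) _ _)
    unfold pE
    exact (Complex.measurable_ofReal.comp (measurable_const.sub measurable_id)).sub measurable_const
  · exact measurable_const

theorem pt_bound {M k N : ℕ} (hMk : M ≤ k) (hMN : M ≤ N) (v : (Fin d → ℤ) → ℝ) (E : ℝ) {η : ℝ}
    (hη : 0 < η) {g : (Fin d → ℤ) → ℂ} (hg : SqSummable g) :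
    min (QN N v E η g) 1 ≤ (2 * (∑' x, ‖g x‖ ^ 2) + 1) * ∑ a ∈ Bx d k, min (gI N v E η a) 1 +
      2 * QN N v E η (fun x => if x ∈ Bx d M then 0 else g x) := by
  set C := ∑' x, ‖g x‖ ^ 2 with hC
  have hC0 : 0 ≤ C := tsum_nonneg fun _ => sq_nonneg _
  have h1 := Q_add (K := KN d N) (qN N v) E hη
    (fun x => if x.1 ∈ Bx d M then g x.1 else 0) (fun x => if x.1 ∈ Bx d M then 0 else g x.1)
  have e1 : ((fun x : Bx d N => if x.1 ∈ Bx d M then g x.1 else 0) +
      (fun x : Bx d N => if x.1 ∈ Bx d M then 0 else g x.1)) = fun x => g x.1 := by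
    funext x
    rw [Pi.add_apply]
    split_ifs <;> simp
  rw [e1] at h1
  have h2 := Q_supp (KN_symm d N) (qN N v) E hη (fun x : Bx d N => if x.1 ∈ Bx d M then g x.1 else 0)
    (Finset.univ.filter fun x : Bx d N => x.1 ∈ Bx d M) (fun x hx => by
      rw [if_neg]
      intro h
      exact hx (by simp [h]))
  have h3 : ∑ a ∈ (Finset.univ.filter fun x : Bx d N => x.1 ∈ Bx d M),
      ‖(if a.1 ∈ Bx d M then g a.1 else 0)‖ ^ 2 ≤ C := by
    calc ∑ a ∈ (Finset.univ.filter fun x : Bx d N => x.1 ∈ Bx d M),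
          ‖(if a.1 ∈ Bx d M then g a.1 else 0)‖ ^ 2
        = ∑ a ∈ (Finset.univ.filter fun x : Bx d N => x.1 ∈ Bx d M), ‖g a.1‖ ^ 2 := by
          refine Finset.sum_congr rfl fun a ha => ?_
          rw [if_pos (Finset.mem_filter.1 ha).2]
      _ ≤ ∑ a : Bx d N, ‖g a.1‖ ^ 2 :=
          Finset.sum_le_sum_of_subset_of_nonneg (Finset.filter_subset _ _) fun _ _ _ => sq_nonneg _
      _ = ∑ a ∈ Bx d N, ‖g a‖ ^ 2 := Finset.sum_coe_sort (Bx d N) (fun a => ‖g a‖ ^ 2)
      _ ≤ C := hg.sum_le_tsum _ fun _ _ => sq_nonneg _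
  have h4 : ∑ a ∈ (Finset.univ.filter fun x : Bx d N => x.1 ∈ Bx d M),
      (Gr (KN d N) (pE (qN N v) E η) a a).im = ∑ a ∈ Bx d M, gI N v E η a := by
    refine Finset.sum_bij (fun a _ => a.1) (fun a ha => (Finset.mem_filter.1 ha).2)
      (fun a _ b _ h => Subtype.ext h) (fun b hb => ⟨⟨b, Bx_mono d hMN hb⟩, by simp [hb], rfl⟩)
      fun a ha => ?_
    unfold gI
    rw [dif_pos a.2]
  have h5 : 0 ≤ ∑ a ∈ Bx d M, gI N v E η a :=
    Finset.sum_nonneg fun a _ => gI_nonneg N v E hη a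
  rw [h4] at h2
  have h6 : QN N v E η g ≤ 2 * (C * ∑ a ∈ Bx d M, gI N v E η a) +
      2 * QN N v E η (fun x => if x ∈ Bx d M then 0 else g x) := by
    unfold QN
    have := mul_le_mul_of_nonneg_right h3 h5
    linarith
  have hq : 0 ≤ QN N v E η (fun x => if x ∈ Bx d M then 0 else g x) := by
    unfold QN
    positivity
  have hmin : ∀ a, 0 ≤ min (gI N v E η a) 1 := fun a => le_min (gI_nonneg N v E hη a) zero_le_one
  have hs' : 0 ≤ ∑ a ∈ Bx d k, min (gI N v E η a) 1 := Finset.sum_nonneg fun a _ => hmin a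
  by_cases hbig : ∃ a ∈ Bx d M, 1 < gI N v E η a
  · obtain ⟨a, ha, ha1⟩ := hbig
    have h7 : 1 ≤ ∑ a ∈ Bx d k, min (gI N v E η a) 1 := by
      refine le_trans ?_ (Finset.single_le_sum (f := fun a => min (gI N v E η a) 1)
        (fun a _ => hmin a) (Bx_mono d hMk ha))
      simp [ha1.le]
    refine (min_le_right _ _).trans ?_
    nlinarith
  · push Not at hbig
    have h7 : ∑ a ∈ Bx d M, gI N v E η a ≤ ∑ a ∈ Bx d k, min (gI N v E η a) 1 := by
      calc ∑ a ∈ Bx d M, gI N v E η a = ∑ a ∈ Bx d M, min (gI N v E η a) 1 :=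
            Finset.sum_congr rfl fun a ha => (min_eq_left (hbig a ha)).symm
        _ ≤ _ := Finset.sum_le_sum_of_subset_of_nonneg (Bx_mono d hMk) fun a _ _ => hmin a
    refine (min_le_left _ _).trans (h6.trans ?_)
    nlinarith [mul_le_mul_of_nonneg_left h7 hC0]

theorem int_bound {M k L N : ℕ} (hMk : M ≤ k) (hLk : L ≤ k) (hMN : M ≤ N) (v : (Fin d → ℤ) → ℝ) {η : ℝ}
    (hη : 0 < η) {g : (Fin d → ℤ) → ℂ} (hg : SqSummable g) :
    ∫⁻ E in Set.Icc (-(L : ℝ)) L, ENNReal.ofReal (min (QN N v E η g) 1) ≤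
      ENNReal.ofReal (2 * (∑' x, ‖g x‖ ^ 2) + 1) * XN N k v η +
      2 * ENNReal.ofReal (Real.pi * (∑' y, ‖g y‖ ^ 2 - ∑ y ∈ Bx d M, ‖g y‖ ^ 2)) := by
  set C := ∑' x, ‖g x‖ ^ 2 with hC
  have hC0 : 0 ≤ C := tsum_nonneg fun _ => sq_nonneg _
  set h : (Fin d → ℤ) → ℂ := fun x => if x ∈ Bx d M then 0 else g x with hh
  have hq : ∀ E, 0 ≤ QN N v E η h := fun E => by unfold QN; positivity
  have hmin : ∀ E a, 0 ≤ min (gI N v E η a) 1 := fun E a =>
    le_min (gI_nonneg N v E hη a) zero_le_one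
  have h1 : ∀ E, ENNReal.ofReal (min (QN N v E η g) 1) ≤
      ENNReal.ofReal (2 * C + 1) * ∑ a ∈ Bx d k, ENNReal.ofReal (min (gI N v E η a) 1) +
      2 * ENNReal.ofReal (QN N v E η h) := by
    intro E
    have hpt := pt_bound hMk hMN v E hη hg
    rw [← hC] at hpt
    refine (ENNReal.ofReal_le_ofReal hpt).trans ?_
    rw [ENNReal.ofReal_add (mul_nonneg (by linarith) (Finset.sum_nonneg fun a _ => hmin E a))
      (mul_nonneg zero_le_two (hq E)), ENNReal.ofReal_mul (by linarith),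
      ENNReal.ofReal_mul zero_le_two, ENNReal.ofReal_sum_of_nonneg fun a _ => hmin E a]
    simp
  have hm1 : Measurable fun E => ∑ a ∈ Bx d k, ENNReal.ofReal (min (gI N v E η a) 1) :=
    Finset.measurable_sum _ fun a _ => ((meas_gI N v η a).min measurable_const).ennreal_ofReal
  have hm2 : Measurable fun E => ENNReal.ofReal (QN N v E η h) :=
    (Q_meas (KN_symm d N) (qN N v) hη _).ennreal_ofReal
  calc ∫⁻ E in Set.Icc (-(L : ℝ)) L, ENNReal.ofReal (min (QN N v E η g) 1)
      ≤ ∫⁻ E in Set.Icc (-(L : ℝ)) L, (ENNReal.ofReal (2 * C + 1) *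
          ∑ a ∈ Bx d k, ENNReal.ofReal (min (gI N v E η a) 1) +
          2 * ENNReal.ofReal (QN N v E η h)) := lintegral_mono fun E => h1 E
    _ = ENNReal.ofReal (2 * C + 1) * (∫⁻ E in Set.Icc (-(L : ℝ)) L,
          ∑ a ∈ Bx d k, ENNReal.ofReal (min (gI N v E η a) 1)) +
        2 * (∫⁻ E in Set.Icc (-(L : ℝ)) L, ENNReal.ofReal (QN N v E η h)) := by
        rw [lintegral_add_left (hm1.const_mul _), lintegral_const_mul _ hm1,
          lintegral_const_mul _ hm2]
    _ ≤ _ := by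
        refine add_le_add (mul_le_mul' le_rfl ?_) (mul_le_mul' le_rfl ?_)
        · unfold XN
          refine lintegral_mono_set ?_
          have : (L : ℝ) ≤ k := by exact_mod_cast hLk
          exact Set.Icc_subset_Icc (by linarith) this
        · refine (setLIntegral_le_lintegral _ _).trans ?_
          have h2 := Q_int (KN_symm d N) (qN N v) hη (fun x : Bx d N => h x.1)
          unfold QN
          rw [h2]
          refine ENNReal.ofReal_le_ofReal (mul_le_mul_of_nonneg_left ?_ Real.pi_pos.le)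
          rw [Finset.sum_coe_sort (Bx d N) (fun x => ‖h x‖ ^ 2)]
          have h3 : ∑ x ∈ Bx d N, ‖h x‖ ^ 2 = ∑ x ∈ Bx d N \ Bx d M, ‖g x‖ ^ 2 := by
            rw [Finset.sdiff_eq_filter, Finset.sum_filter]
            refine Finset.sum_congr rfl fun x _ => ?_
            rw [hh]
            by_cases hx : x ∈ Bx d M
            · simp [hx]
            · simp [hx]
          rw [h3]
          exact sum_le_tail hg _ _ Finset.sdiff_disjoint

/-- lower bound of the Borel transform by the mass of a ball -/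
theorem borel_ge (m : Measure ℝ) [IsFiniteMeasure m] (E : ℝ) {η : ℝ} (hη : 0 < η) :
    m (Metric.closedBall E η) / volume (Metric.closedBall E η) ≤
      ENNReal.ofReal (∫ t : ℝ, ((t : ℂ) - (E + η * I))⁻¹ ∂m).im := by
  have hz : ∀ t : ℝ, ‖((t : ℂ) - (E + η * I))⁻¹‖ ≤ 1 / η := by
    intro t
    rw [norm_inv, one_div]
    refine inv_anti₀ hη ?_
    have := Complex.abs_im_le_norm ((t : ℂ) - (E + η * I))
    simp at this
    rwa [abs_of_pos hη] at this
  have hcont : Continuous fun t : ℝ => ((t : ℂ) - (E + η * I))⁻¹ := by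
    refine Continuous.inv₀ (Complex.continuous_ofReal.sub continuous_const) fun t h0 => ?_
    have := congrArg Complex.im h0
    simp at this
    exact hη.ne' this
  have hint : Integrable (fun t : ℝ => ((t : ℂ) - (E + η * I))⁻¹) m :=
    Integrable.of_bound hcont.aestronglyMeasurable (1 / η) (Filter.Eventually.of_forall hz)
  have him : (∫ t : ℝ, ((t : ℂ) - (E + η * I))⁻¹ ∂m).im =
      ∫ t : ℝ, η / ((t - E) ^ 2 + η ^ 2) ∂m := by
    have h1 : (∫ t : ℝ, ((t : ℂ) - (E + η * I))⁻¹ ∂m).im =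
        ∫ t : ℝ, (((t : ℂ) - (E + η * I))⁻¹).im ∂m := (integral_im hint).symm
    rw [h1]
    refine integral_congr_ae (Filter.Eventually.of_forall fun t => ?_)
    simp only
    rw [Complex.inv_im, Complex.normSq_apply]
    simp
    ring
  have hnn : ∀ t : ℝ, 0 ≤ η / ((t - E) ^ 2 + η ^ 2) := fun t => by positivity
  have hint2 : Integrable (fun t : ℝ => η / ((t - E) ^ 2 + η ^ 2)) m := by
    refine Integrable.of_bound (C := 1 / η) ?_ (Filter.Eventually.of_forall fun t => ?_)
    · refine (Continuous.div continuous_const (by fun_prop) fun t => ?_).aestronglyMeasurable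
      positivity
    · rw [Real.norm_of_nonneg (hnn t), div_le_div_iff₀ (by positivity) hη]
      nlinarith [sq_nonneg (t - E)]
  rw [him, ofReal_integral_eq_lintegral_ofReal hint2 (Filter.Eventually.of_forall hnn)]
  have hvol : volume (Metric.closedBall E η) = ENNReal.ofReal (2 * η) := Real.volume_closedBall E η
  rw [hvol]
  calc m (Metric.closedBall E η) / ENNReal.ofReal (2 * η)
      = ∫⁻ t in Metric.closedBall E η, ENNReal.ofReal (1 / (2 * η)) ∂m := by
        rw [setLIntegral_const, mul_comm, ENNReal.div_eq_inv_mul, one_div,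
          ENNReal.ofReal_inv_of_pos (by positivity)]
    _ ≤ ∫⁻ t in Metric.closedBall E η, ENNReal.ofReal (η / ((t - E) ^ 2 + η ^ 2)) ∂m := by
        refine setLIntegral_mono' Metric.isClosed_closedBall.measurableSet fun t ht => ?_
        refine ENNReal.ofReal_le_ofReal ?_
        rw [Metric.mem_closedBall, Real.dist_eq] at ht
        have h2 : (t - E) ^ 2 ≤ η ^ 2 := sq_le_sq' (by linarith [abs_le.1 ht]) (abs_le.1 ht).2
        rw [div_le_div_iff₀ (by positivity) (by positivity)]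
        nlinarith
    _ ≤ _ := setLIntegral_le_lintegral _ _

/-- **Criterion.** -/
theorem sing_of {v : (Fin d → ℤ) → ℝ} {ηs : ℕ → ℝ} (hη : ∀ k, 0 < ηs k)
    (hη0 : Tendsto ηs atTop (𝓝 0))
    (hX : ∀ᶠ k in atTop, ∃ᶠ N in atTop, XN N k v (ηs k) < ENNReal.ofReal ((1 / 2) ^ k))
    {g : (Fin d → ℤ) → ℂ} (hg : SqSummable g) {m : Measure ℝ} (hm : IsSpectralMeasure (H v) g m) :
    m ⟂ₘ volume := by
  obtain ⟨hfin, hz⟩ := hm
  set P : ℕ → ℝ → ℝ := fun k E => (∫ t : ℝ, ((t : ℂ) - (E + ηs k * I))⁻¹ ∂m).im with hP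
  have hlim : ∀ k E, Tendsto (fun N => QN N v E (ηs k) g) atTop (𝓝 (P k E)) := by
    intro k E
    obtain ⟨u, hu, heq, hint⟩ := hz (E + ηs k * I) (by simp; exact (hη k).ne')
    have := QN_tendsto (hη k) hu hg heq
    rw [← hint] at this
    exact this
  have hPm : ∀ k, Measurable (P k) := fun k =>
    measurable_of_tendsto_metrizable (fun N => Q_meas (KN_symm d N) (qN N v) (hη k) _)
      (tendsto_pi_nhds.2 fun E => hlim k E)
  set C := ∑' x, ‖g x‖ ^ 2 with hC
  set τ : ℕ → ℝ := fun M => ∑' y, ‖g y‖ ^ 2 - ∑ y ∈ Bx d M, ‖g y‖ ^ 2 with hτ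
  -- step (b)
  have hb : ∀ L M : ℕ, ∀ᶠ k in atTop, ∫⁻ E in Set.Icc (-(L : ℝ)) L,
      ENNReal.ofReal (min (P k E) 1) ≤ ENNReal.ofReal (2 * C + 1) * ENNReal.ofReal ((1 / 2) ^ k) +
        2 * ENNReal.ofReal (Real.pi * τ M) := by
    intro L M
    filter_upwards [hX, eventually_ge_atTop L, eventually_ge_atTop M] with k hk hL hM
    obtain ⟨φ, hφ, hφX⟩ := extraction_of_frequently_atTop hk
    have h1 : ∀ E, ENNReal.ofReal (min (P k E) 1) =
        liminf (fun n => ENNReal.ofReal (min (QN (φ n) v E (ηs k) g) 1)) atTop := by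
      intro E
      refine (Tendsto.liminf_eq ?_).symm
      refine (ENNReal.continuous_ofReal.tendsto _).comp ?_
      exact (((hlim k E).comp hφ.tendsto_atTop)).min tendsto_const_nhds
    simp only [h1]
    refine (lintegral_liminf_le fun n => ?_).trans ?_
    · exact ((Q_meas (KN_symm d _) (qN _ v) (hη k) _).min measurable_const).ennreal_ofReal
    · refine (liminf_le_limsup).trans (limsup_le_of_le (h := ?_))
      filter_upwards [eventually_ge_atTop M] with n hn
      refine (int_bound hM hL (hn.trans (hφ.id_le n)) v (hη k) hg).trans ?_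
      exact add_le_add (mul_le_mul' le_rfl (hφX n).le) le_rfl
  -- step (c)
  have hPm' : ∀ k, Measurable fun E => ENNReal.ofReal (min (P k E) 1) := fun k =>
    ((hPm k).min measurable_const).ennreal_ofReal
  have hτ0 : Tendsto τ atTop (𝓝 0) := tail_tendsto hg
  have hc : ∀ L : ℕ, ∫⁻ E in Set.Icc (-(L : ℝ)) L,
      liminf (fun k => ENNReal.ofReal (min (P k E) 1)) atTop = 0 := by
    intro L
    have h1 : ∀ M, ∫⁻ E in Set.Icc (-(L : ℝ)) L,
        liminf (fun k => ENNReal.ofReal (min (P k E) 1)) atTop ≤ 2 * ENNReal.ofReal (Real.pi * τ M) := by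
      intro M
      refine (lintegral_liminf_le hPm').trans ?_
      have h2 : Tendsto (fun k : ℕ => ENNReal.ofReal (2 * C + 1) * ENNReal.ofReal ((1 / 2) ^ k) +
          2 * ENNReal.ofReal (Real.pi * τ M)) atTop
          (𝓝 (ENNReal.ofReal (2 * C + 1) * ENNReal.ofReal 0 + 2 * ENNReal.ofReal (Real.pi * τ M))) := by
        refine Tendsto.add ?_ tendsto_const_nhds
        refine ENNReal.Tendsto.const_mul ?_ (Or.inr ENNReal.ofReal_ne_top)
        refine (ENNReal.continuous_ofReal.tendsto _).comp ?_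
        exact tendsto_pow_atTop_nhds_zero_of_lt_one (by norm_num) (by norm_num)
      rw [ENNReal.ofReal_zero, mul_zero, zero_add] at h2
      rw [← h2.liminf_eq]
      exact liminf_le_liminf (hb L M)
    have h3 : Tendsto (fun M => 2 * ENNReal.ofReal (Real.pi * τ M)) atTop (𝓝 (2 * ENNReal.ofReal (Real.pi * 0))) := by
      refine ENNReal.Tendsto.const_mul ?_ (Or.inr (by simp))
      exact (ENNReal.continuous_ofReal.tendsto _).comp (hτ0.const_mul _)
    rw [mul_zero, ENNReal.ofReal_zero, mul_zero] at h3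
    exact le_antisymm (ge_of_tendsto' h3 h1) zero_le
  have hae : ∀ᵐ E : ℝ, liminf (fun k => ENNReal.ofReal (min (P k E) 1)) atTop = 0 := by
    have h1 : ∀ᵐ E : ℝ, ∀ L : ℕ, E ∈ Set.Icc (-(L : ℝ)) L →
        liminf (fun k => ENNReal.ofReal (min (P k E) 1)) atTop = 0 := by
      rw [ae_all_iff]
      intro L
      rw [← ae_restrict_iff' measurableSet_Icc]
      exact (lintegral_eq_zero_iff (Measurable.liminf hPm')).1 (hc L)
    filter_upwards [h1] with E hE
    obtain ⟨L, hL⟩ := exists_nat_ge |E|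
    exact hE L ⟨by linarith [neg_abs_le E], (le_abs_self E).trans hL⟩
  -- step (d)
  rw [← Measure.rnDeriv_eq_zero]
  filter_upwards [hae, Besicovitch.ae_tendsto_rnDeriv m volume] with E h1 h2
  have h3 : Tendsto ηs atTop (𝓝[>] 0) :=
    tendsto_nhdsWithin_iff.2 ⟨hη0, Filter.Eventually.of_forall fun k => hη k⟩
  have h4 := h2.comp h3
  have h5 : Tendsto (fun k => min (m (Metric.closedBall E (ηs k)) / volume (Metric.closedBall E (ηs k))) 1)
      atTop (𝓝 (min (m.rnDeriv volume E) 1)) := h4.min tendsto_const_nhds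
  have h6 : min (m.rnDeriv volume E) 1 ≤ 0 := by
    rw [← h1, ← h5.liminf_eq]
    refine liminf_le_liminf (Filter.Eventually.of_forall fun k => ?_)
    have h7 := borel_ge m E (hη k)
    rw [ENNReal.ofReal_min, ENNReal.ofReal_one]
    exact min_le_min h7 le_rfl
  have h8 : min (m.rnDeriv volume E) 1 = 0 := le_antisymm h6 zero_le
  rcases min_choice (m.rnDeriv volume E) 1 with h9 | h9
  · rw [h9] at h8
    exact h8
  · rw [h9] at h8
    exact absurd h8 one_ne_zero

end Pool.Agent.L0h56.CS
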