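import Pool.Agent.L0h56.CS.Box

/-!
Finite volume resolvents: spectral representation.
-/

set_option autoImplicit false
set_option linter.unusedSectionVars false
set_option linter.unusedVariables false

open scoped BigOperators
open Complex MeasureTheory

namespace Pool.Agent.L0h56.CS

section
variable {ι : Type*} [Fintype ι] [DecidableEq ι]

theorem spec_sum (A : Matrix ι ι ℂ) (hA : A.IsHermitian) :
    ∃ (lam : ι → ℝ) (T : (ι → ℂ) → (ι → ℂ)), (∀ f, ∑ j, ‖T f j‖ ^ 2 = ∑ x, ‖f x‖ ^ 2) ∧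
      ∀ (u f : ι → ℂ) (z : ℂ), (∀ x, A.mulVec u x - z * u x = f x) →
        ∀ j, ((lam j : ℂ) - z) * T u j = T f j := by
  refine ⟨hA.eigenvalues, fun f j => inner ℂ (hA.eigenvectorBasis j) (WithLp.toLp 2 f), ?_, ?_⟩
  · intro f
    rw [hA.eigenvectorBasis.sum_sq_norm_inner_right, EuclideanSpace.norm_sq_eq]
  · intro u f z h j
    have h1 : WithLp.toLp 2 f = WithLp.toLp 2 (A.mulVec u) - z • WithLp.toLp 2 u := by
      ext x
      simp [← h x]
    have h2 : inner ℂ (hA.eigenvectorBasis j) (WithLp.toLp 2 (A.mulVec u)) =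
        (hA.eigenvalues j : ℂ) * inner ℂ (hA.eigenvectorBasis j) (WithLp.toLp 2 u) := by
      rw [EuclideanSpace.inner_eq_star_dotProduct, EuclideanSpace.inner_eq_star_dotProduct]
      change (A.mulVec u) ⬝ᵥ star (hA.eigenvectorBasis j).ofLp =
        (hA.eigenvalues j : ℂ) * (u ⬝ᵥ star (hA.eigenvectorBasis j).ofLp)
      have h3 := hA.mulVec_eigenvectorBasis j
      have h4 : A.mulVec u ⬝ᵥ star (hA.eigenvectorBasis j).ofLp =
          u ⬝ᵥ star (A.mulVec (hA.eigenvectorBasis j).ofLp) := by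
        rw [Matrix.star_mulVec, hA.eq, dotProduct_comm, Matrix.dotProduct_mulVec, dotProduct_comm]
      rw [h4, h3]
      simp [dotProduct_smul]
    have h3 : inner ℂ (hA.eigenvectorBasis j) (WithLp.toLp 2 f) =
        inner ℂ (hA.eigenvectorBasis j) (WithLp.toLp 2 (A.mulVec u)) -
          z * inner ℂ (hA.eigenvectorBasis j) (WithLp.toLp 2 u) := by
      rw [h1, inner_sub_right, inner_smul_right]
    simp only
    rw [h3, h2]
    ring

/-- diagonal of `A - E - iη` -/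
noncomputable def pE (q : ι → ℝ) (E η : ℝ) (x : ι) : ℂ := ((q x - E : ℝ) : ℂ) - η * I

theorem pE_neg (q : ι → ℝ) (E : ℝ) {η : ℝ} (hη : 0 < η) (x : ι) : (pE q E η x).im < 0 := by
  unfold pE
  simp
  exact hη

theorem pE_im (q : ι → ℝ) (E η : ℝ) (x : ι) : -(pE q E η x).im = η := by
  unfold pE
  simp

/-- the resolvent applied to a vector -/
noncomputable def Ru (K : ι → ι → ℝ) (q : ι → ℝ) (E η : ℝ) (f : ι → ℂ) : ι → ℂ :=
  (Gr K (pE q E η)).mulVec f

theorem Ru_eq {K : ι → ι → ℝ} (hK : ∀ x y, K x y = K y x) (q : ι → ℝ) (E : ℝ) {η : ℝ} (hη : 0 < η)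
    (f : ι → ℂ) : (MM K (pE q E η)).mulVec (Ru K q E η f) = f := by
  unfold Ru
  rw [Matrix.mulVec_mulVec, mul_Gr hK (pE_neg q E hη), Matrix.one_mulVec]

theorem Ru_unique {K : ι → ι → ℝ} (hK : ∀ x y, K x y = K y x) (q : ι → ℝ) (E : ℝ) {η : ℝ} (hη : 0 < η)
    (f u : ι → ℂ) (h : (MM K (pE q E η)).mulVec u = f) : u = Ru K q E η f := by
  unfold Ru
  rw [← h, Matrix.mulVec_mulVec, Gr_mul hK (pE_neg q E hη), Matrix.one_mulVec]

theorem Ru_im {K : ι → ι → ℝ} (hK : ∀ x y, K x y = K y x) (q : ι → ℝ) (E : ℝ) {η : ℝ} (hη : 0 < η)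
    (f : ι → ℂ) : (∑ x, (starRingEnd ℂ) (f x) * Ru K q E η f x).im =
      η * ∑ x, ‖Ru K q E η f x‖ ^ 2 := by
  have h := flux_univ hK (pE q E η) _ _ (Ru_eq hK q E hη f)
  simp only [pE_im] at h
  rw [Finset.mul_sum, h, Complex.im_sum, ← Finset.sum_neg_distrib]
  refine Finset.sum_congr rfl fun x _ => ?_
  simp only [mul_im, conj_re, conj_im]
  ring

theorem Q_repr {K : ι → ι → ℝ} (hK : ∀ x y, K x y = K y x) (q : ι → ℝ) {η : ℝ} (hη : 0 < η)
    (f : ι → ℂ) : ∃ (lam : ι → ℝ) (w : ι → ℝ), (∀ j, 0 ≤ w j) ∧ ∑ j, w j = ∑ x, ‖f x‖ ^ 2 ∧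
      ∀ E, η * ∑ x, ‖Ru K q E η f x‖ ^ 2 = ∑ j, w j / 2 * (2 * η / ((E - lam j) ^ 2 + η ^ 2)) := by
  have hA : (MM K (fun x => (q x : ℂ))).IsHermitian := by
    ext x y
    rw [Matrix.conjTranspose_apply, MM_apply, MM_apply, hK y x]
    by_cases h : x = y
    · subst h; simp
    · rw [if_neg h, if_neg (Ne.symm h)]; simp
  obtain ⟨lam, T, h1, h2⟩ := spec_sum _ hA
  refine ⟨lam, fun j => ‖T f j‖ ^ 2, fun j => sq_nonneg _, h1 f, fun E => ?_⟩
  set u := Ru K q E η f with hu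
  have h3 : ∀ x, (MM K (fun x => (q x : ℂ))).mulVec u x - ((E : ℂ) + η * I) * u x = f x := by
    intro x
    have h4 := congrFun (Ru_eq hK q E hη f) x
    rw [mulVec_eq] at h4 ⊢
    rw [← h4, ← hu]
    unfold pE
    push_cast
    ring
  have h5 := h2 u f _ h3
  rw [← h1 u, Finset.mul_sum]
  refine Finset.sum_congr rfl fun j _ => ?_
  have h6 : ‖(lam j : ℂ) - (E + η * I)‖ ^ 2 = (E - lam j) ^ 2 + η ^ 2 := by
    rw [← Complex.normSq_eq_norm_sq, Complex.normSq_apply]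
    simp
    ring
  have h7 : ((E - lam j) ^ 2 + η ^ 2) * ‖T u j‖ ^ 2 = ‖T f j‖ ^ 2 := by
    rw [← h6, ← mul_pow, ← norm_mul, h5 j]
  beta_reduce
  rw [← h7]
  have : 0 < (E - lam j) ^ 2 + η ^ 2 := by positivity
  field_simp

theorem Q_int {K : ι → ι → ℝ} (hK : ∀ x y, K x y = K y x) (q : ι → ℝ) {η : ℝ} (hη : 0 < η)
    (f : ι → ℂ) : ∫⁻ E : ℝ, ENNReal.ofReal (η * ∑ x, ‖Ru K q E η f x‖ ^ 2) =
      ENNReal.ofReal (Real.pi * ∑ x, ‖f x‖ ^ 2) := by
  obtain ⟨lam, w, hw, hs, h⟩ := Q_repr hK q hη f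
  simp only [h]
  rw [← ofReal_integral_eq_lintegral_ofReal]
  · rw [integral_finsetSum _ fun j _ => (lor_integrable hη).const_mul _]
    simp only [integral_const_mul, lor_integral hη]
    rw [← hs, ← Finset.sum_mul]
    congr 1
    rw [← Finset.sum_div]
    ring
  · exact integrable_finsetSum _ fun j _ => (lor_integrable hη).const_mul _
  · refine Filter.Eventually.of_forall fun E => Finset.sum_nonneg fun j _ => ?_
    have := hw j
    positivity

theorem Q_meas {K : ι → ι → ℝ} (hK : ∀ x y, K x y = K y x) (q : ι → ℝ) {η : ℝ} (hη : 0 < η)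
    (f : ι → ℂ) : Measurable fun E : ℝ => η * ∑ x, ‖Ru K q E η f x‖ ^ 2 := by
  refine measurable_const.mul (Finset.measurable_sum _ fun x _ => ?_)
  refine Measurable.pow_const ?_ 2
  refine Measurable.norm ?_
  unfold Ru Matrix.mulVec dotProduct
  refine Finset.measurable_sum _ fun y _ => Measurable.mul ?_ measurable_const
  refine measurable_Gr K (fun z => ?_) x y
  unfold pE
  exact (Complex.measurable_ofReal.comp (measurable_const.sub measurable_id)).sub measurable_const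

/-- the quadratic form of a sum -/
theorem Q_add {K : ι → ι → ℝ} (q : ι → ℝ) (E : ℝ) {η : ℝ} (hη : 0 < η) (f h : ι → ℂ) :
    η * ∑ x, ‖Ru K q E η (f + h) x‖ ^ 2 ≤ 2 * (η * ∑ x, ‖Ru K q E η f x‖ ^ 2) +
      2 * (η * ∑ x, ‖Ru K q E η h x‖ ^ 2) := by
  have e : Ru K q E η (f + h) = Ru K q E η f + Ru K q E η h := by
    unfold Ru; rw [Matrix.mulVec_add]
  rw [e]
  have h1 : ∑ x, ‖(Ru K q E η f + Ru K q E η h) x‖ ^ 2 ≤
      ∑ x, (2 * ‖Ru K q E η f x‖ ^ 2 + 2 * ‖Ru K q E η h x‖ ^ 2) := by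
    refine Finset.sum_le_sum fun x _ => ?_
    rw [Pi.add_apply]
    have := norm_add_le (Ru K q E η f x) (Ru K q E η h x)
    nlinarith [norm_nonneg (Ru K q E η f x + Ru K q E η h x), norm_nonneg (Ru K q E η f x),
      norm_nonneg (Ru K q E η h x), sq_nonneg (‖Ru K q E η f x‖ - ‖Ru K q E η h x‖)]
  rw [Finset.sum_add_distrib, ← Finset.mul_sum, ← Finset.mul_sum] at h1
  nlinarith [mul_le_mul_of_nonneg_left h1 hη.le]

/-- the quadratic form of a vector supported in a small set -/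
theorem Q_supp {K : ι → ι → ℝ} (hK : ∀ x y, K x y = K y x) (q : ι → ℝ) (E : ℝ) {η : ℝ} (hη : 0 < η)
    (f : ι → ℂ) (A : Finset ι) (hf : ∀ x, x ∉ A → f x = 0) :
    η * ∑ x, ‖Ru K q E η f x‖ ^ 2 ≤
      (∑ a ∈ A, ‖f a‖ ^ 2) * ∑ a ∈ A, (Gr K (pE q E η) a a).im := by
  have h1 : ∀ x, ‖Ru K q E η f x‖ ^ 2 ≤ (∑ a ∈ A, ‖f a‖ ^ 2) * ∑ a ∈ A, ‖Gr K (pE q E η) x a‖ ^ 2 := by
    intro x
    have e : Ru K q E η f x = ∑ a ∈ A, Gr K (pE q E η) x a * f a := by
      unfold Ru Matrix.mulVec dotProduct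
      symm
      refine Finset.sum_subset (Finset.subset_univ _) fun a _ ha => ?_
      rw [hf a ha, mul_zero]
    rw [e]
    have h2 : ‖∑ a ∈ A, Gr K (pE q E η) x a * f a‖ ≤ ∑ a ∈ A, ‖f a‖ * ‖Gr K (pE q E η) x a‖ := by
      refine (norm_sum_le _ _).trans (Finset.sum_le_sum fun a _ => ?_)
      rw [norm_mul, mul_comm]
    exact (pow_le_pow_left₀ (norm_nonneg _) h2 2).trans (Finset.sum_mul_sq_le_sq_mul_sq _ _ _)
  have h3 : ∀ a, (Gr K (pE q E η) a a).im = η * ∑ x, ‖Gr K (pE q E η) x a‖ ^ 2 := by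
    intro a
    rw [im_Gr hK (pE_neg q E hη) a, Finset.mul_sum]
    simp only [pE_im]
  simp only [h3]
  calc η * ∑ x, ‖Ru K q E η f x‖ ^ 2 ≤
      η * ∑ x, ((∑ a ∈ A, ‖f a‖ ^ 2) * ∑ a ∈ A, ‖Gr K (pE q E η) x a‖ ^ 2) :=
        mul_le_mul_of_nonneg_left (Finset.sum_le_sum fun x _ => h1 x) hη.le
    _ = _ := by
        rw [← Finset.mul_sum, Finset.sum_comm, ← Finset.mul_sum]
        ring

end

end Pool.Agent.L0h56.CS
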