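import Pool.Agent.L0h56.CS.Core

/-!
Flux through layers and the telescoping sum.
-/

set_option autoImplicit false
set_option linter.unusedSectionVars false
set_option linter.unusedVariables false

open scoped BigOperators
open Complex MeasureTheory

namespace Pool.Agent.L0h56.CS

variable {J : Type*} [DecidableEq J] {ι : Type*} [Fintype ι] [DecidableEq ι]

section

variable {K : ι → ι → ℝ} (hK : ∀ x y, K x y = K y x) {e : ι → J} (he : Function.Injective e)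
  {V γ : ι → ℝ} (hγ : ∀ x, 0 ≤ γ x) {η : ℝ} (hη : 0 < η) (a : ι)
  {lay : ι → ℕ} (hlay : ∀ x y, K x y ≠ 0 → lay x ≤ lay y + 1) (hD : ∀ x, ∑ y, |K x y| ≤ 4)

include hK hγ hη hlay hD

/-- the flux through a layer is bounded by the mass on two layers -/
theorem flux_lay {ρ : ℕ} (ha : lay a ≤ ρ) (B : Finset J) (ξ : J → ℝ) :
    ∑ x with ρ < lay x, ab e γ η B x * ‖gg K e V γ η a B ξ x‖ ^ 2 ≤
      2 * ∑ x with (lay x = ρ ∨ lay x = ρ + 1), ‖gg K e V γ η a B ξ x‖ ^ 2 := by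
  classical
  set U : Finset ι := Finset.univ.filter fun x => ρ < lay x with hU
  set g : ι → ℂ := gg K e V γ η a B ξ with hg
  have h1 := flux hK (dg e V γ η a B ξ) g (Pi.single a 1)
    (col_eq hK (im_dg_neg hγ hη a B ξ) a) U
  have haU : a ∉ U := by simp [hU, ha]
  have h2 : ∑ x ∈ U, ((starRingEnd ℂ) (g x) * (Pi.single a 1 : ι → ℂ) x).im = 0 := by
    refine Finset.sum_eq_zero fun x hx => ?_
    have : x ≠ a := fun h => haU (h ▸ hx)
    simp [this]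
  have h3 : ∑ x ∈ U, -(dg e V γ η a B ξ x).im * ‖g x‖ ^ 2 = ∑ x ∈ U, ab e γ η B x * ‖g x‖ ^ 2 := by
    refine Finset.sum_congr rfl fun x hx => ?_
    have : x ≠ a := fun h => haU (h ▸ hx)
    rw [im_dg, if_neg this, add_zero]
  rw [h2, sub_zero, h3] at h1
  rw [h1]
  have hU' : ∀ x, x ∈ U ↔ ρ < lay x := fun x => by simp [hU]
  have k1 : ∀ x ∈ U, ∑ y ∈ Uᶜ, |K x y| ≤ if lay x = ρ + 1 then 4 else 0 := by
    intro x hx
    split_ifs with hc
    · refine le_trans ?_ (hD x)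
      exact Finset.sum_le_sum_of_subset_of_nonneg (Finset.subset_univ _) fun _ _ _ => abs_nonneg _
    · refine (Finset.sum_eq_zero fun y hy => ?_).le
      by_contra hne
      have h4 := hlay x y (fun h => hne (by rw [h, abs_zero]))
      have h5 := (hU' x).1 hx
      have h6 : ¬ ρ < lay y := fun h => (Finset.mem_compl.1 hy) ((hU' y).2 h)
      omega
  have k2 : ∀ y ∈ Uᶜ, ∑ x ∈ U, |K x y| ≤ if lay y = ρ then 4 else 0 := by
    intro y hy
    split_ifs with hc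
    · refine le_trans ?_ (hD y)
      rw [Finset.sum_congr rfl fun x _ => by rw [hK x y]]
      exact Finset.sum_le_sum_of_subset_of_nonneg (Finset.subset_univ _) fun _ _ _ => abs_nonneg _
    · refine (Finset.sum_eq_zero fun x hx => ?_).le
      by_contra hne
      have h4 := hlay x y (fun h => hne (by rw [h, abs_zero]))
      have h5 := (hU' x).1 hx
      have h6 : ¬ ρ < lay y := fun h => (Finset.mem_compl.1 hy) ((hU' y).2 h)
      omega
  have h7 : ∑ x ∈ U, ∑ y ∈ Uᶜ, ((starRingEnd ℂ) (g x) * ((K x y : ℂ) * g y)).im ≤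
      ∑ x ∈ U, ∑ y ∈ Uᶜ, (|K x y| * (‖g x‖ ^ 2 / 2) + |K x y| * (‖g y‖ ^ 2 / 2)) := by
    refine Finset.sum_le_sum fun x _ => Finset.sum_le_sum fun y _ => ?_
    have h8 : ((starRingEnd ℂ) (g x) * ((K x y : ℂ) * g y)).im ≤ ‖g x‖ * (|K x y| * ‖g y‖) := by
      refine ((le_abs_self _).trans (Complex.abs_im_le_norm _)).trans ?_
      rw [norm_mul, norm_mul, Complex.norm_conj, Complex.norm_real, Real.norm_eq_abs]
    refine h8.trans ?_
    nlinarith [mul_nonneg (abs_nonneg (K x y)) (sq_nonneg (‖g x‖ - ‖g y‖))]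
  refine h7.trans ?_
  have h9 : ∑ x ∈ U, ∑ y ∈ Uᶜ, (|K x y| * (‖g x‖ ^ 2 / 2) + |K x y| * (‖g y‖ ^ 2 / 2)) =
      ∑ x ∈ U, (∑ y ∈ Uᶜ, |K x y|) * (‖g x‖ ^ 2 / 2) +
      ∑ y ∈ Uᶜ, (∑ x ∈ U, |K x y|) * (‖g y‖ ^ 2 / 2) := by
    simp only [Finset.sum_add_distrib, Finset.sum_mul]
    congr 1
    exact Finset.sum_comm
  rw [h9]
  have h10 : ∑ x ∈ U, (∑ y ∈ Uᶜ, |K x y|) * (‖g x‖ ^ 2 / 2) ≤
      ∑ x ∈ U, (if (lay x = ρ ∨ lay x = ρ + 1) then 2 * ‖g x‖ ^ 2 else 0) := by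
    refine Finset.sum_le_sum fun x hx => ?_
    have h11 := mul_le_mul_of_nonneg_right (k1 x hx) (by positivity : 0 ≤ ‖g x‖ ^ 2 / 2)
    refine h11.trans ?_
    by_cases hc : lay x = ρ + 1
    · rw [if_pos hc, if_pos (Or.inr hc)]; linarith
    · rw [if_neg hc, zero_mul]
      split_ifs
      · positivity
      · exact le_refl _
  have h12 : ∑ y ∈ Uᶜ, (∑ x ∈ U, |K x y|) * (‖g y‖ ^ 2 / 2) ≤
      ∑ y ∈ Uᶜ, (if (lay y = ρ ∨ lay y = ρ + 1) then 2 * ‖g y‖ ^ 2 else 0) := by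
    refine Finset.sum_le_sum fun y hy => ?_
    have h11 := mul_le_mul_of_nonneg_right (k2 y hy) (by positivity : 0 ≤ ‖g y‖ ^ 2 / 2)
    refine h11.trans ?_
    by_cases hc : lay y = ρ
    · rw [if_pos hc, if_pos (Or.inl hc)]; linarith
    · rw [if_neg hc, zero_mul]
      split_ifs
      · positivity
      · exact le_refl _
  refine (add_le_add h10 h12).trans ?_
  rw [Finset.sum_add_sum_compl, Finset.mul_sum, Finset.sum_filter]

/-- absorption on a double layer of unrevealed sites -/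
noncomputable def Aw (K : ι → ι → ℝ) (e : ι → J) (V γ : ι → ℝ) (η : ℝ) (a : ι) (lay : ι → ℕ)
    (B : Finset J) (r : ℕ) (ξ : J → ℝ) : ℝ :=
  ∑ x with (lay x = 2 * r ∨ lay x = 2 * r + 1), γ x * ‖gg K e V γ η a B ξ x‖ ^ 2

/-- loss inside -/
noncomputable def Iw (K : ι → ι → ℝ) (e : ι → J) (V γ : ι → ℝ) (η : ℝ) (a : ι) (lay : ι → ℕ)
    (B : Finset J) (r : ℕ) (ξ : J → ℝ) : ℝ :=
  η * ∑ x with lay x ≤ 2 * r, ‖gg K e V γ η a B ξ x‖ ^ 2

theorem wall {r : ℕ} (ha : lay a < 2 * r) {B : Finset J} (hB : ∀ x, e x ∈ B ↔ lay x < 2 * r)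
    {m : ℝ} (hm0 : 0 ≤ m) (hm1 : m ≤ 1) (hm : ∀ x, lay x = 2 * r ∨ lay x = 2 * r + 1 → m ≤ γ x)
    (ξ : J → ℝ) :
    m * ((1 - ‖Rf K e V γ η a B ξ‖ ^ 2) / 4 - Iw K e V γ η a lay B r ξ) ≤
      3 * Aw K e V γ η a lay B r ξ := by
  have h1 := cons hK (e := e) (V := V) hγ hη a B ξ
  have h2 := flux_lay hK (e := e) (V := V) hγ hη a hlay hD (ρ := 2 * r) ha.le B ξ
  unfold Iw Aw
  set g : ι → ℂ := gg K e V γ η a B ξ with hg
  have h3 : ∑ x, ab e γ η B x * ‖g x‖ ^ 2 =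
      ∑ x with 2 * r < lay x, ab e γ η B x * ‖g x‖ ^ 2 +
      ∑ x with ¬ (2 * r < lay x), ab e γ η B x * ‖g x‖ ^ 2 := by
    rw [Finset.sum_filter_add_sum_filter_not]
  have h4 : ∑ x with ¬ (2 * r < lay x), ab e γ η B x * ‖g x‖ ^ 2 ≤
      η * ∑ x with lay x ≤ 2 * r, ‖g x‖ ^ 2 +
      ∑ x with (lay x = 2 * r ∨ lay x = 2 * r + 1), γ x * ‖g x‖ ^ 2 := by
    have h5 : ∀ x, ¬ (2 * r < lay x) → ab e γ η B x * ‖g x‖ ^ 2 ≤
        η * ‖g x‖ ^ 2 + (if (lay x = 2 * r ∨ lay x = 2 * r + 1) then γ x * ‖g x‖ ^ 2 else 0) := by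
      intro x hx
      unfold ab
      by_cases hc : lay x < 2 * r
      · rw [if_pos ((hB x).2 hc), add_zero]
        have : 0 ≤ (if (lay x = 2 * r ∨ lay x = 2 * r + 1) then γ x * ‖g x‖ ^ 2 else 0) := by
          split_ifs
          · exact mul_nonneg (hγ x) (sq_nonneg _)
          · exact le_refl _
        linarith
      · rw [if_neg (fun h => hc ((hB x).1 h)), if_pos (Or.inl (by omega))]
        linarith
    calc ∑ x with ¬ (2 * r < lay x), ab e γ η B x * ‖g x‖ ^ 2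
        ≤ ∑ x with ¬ (2 * r < lay x), (η * ‖g x‖ ^ 2 +
          (if (lay x = 2 * r ∨ lay x = 2 * r + 1) then γ x * ‖g x‖ ^ 2 else 0)) :=
          Finset.sum_le_sum fun x hx => h5 x (Finset.mem_filter.1 hx).2
      _ = ∑ x with ¬ (2 * r < lay x), η * ‖g x‖ ^ 2 + ∑ x with ¬ (2 * r < lay x),
          (if (lay x = 2 * r ∨ lay x = 2 * r + 1) then γ x * ‖g x‖ ^ 2 else 0) :=
          Finset.sum_add_distrib
      _ ≤ _ := by
          refine add_le_add ?_ ?_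
          · rw [Finset.mul_sum]
            refine le_of_eq (Finset.sum_congr ?_ fun _ _ => rfl)
            ext x; simp
          · rw [Finset.sum_filter (s := Finset.univ)
              (p := fun x => (lay x = 2 * r ∨ lay x = 2 * r + 1))]
            refine Finset.sum_le_sum_of_subset_of_nonneg (Finset.filter_subset _ _) fun x _ _ => ?_
            split_ifs
            · exact mul_nonneg (hγ x) (sq_nonneg _)
            · exact le_refl _
  have h6 : m * ∑ x with (lay x = 2 * r ∨ lay x = 2 * r + 1), ‖g x‖ ^ 2 ≤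
      ∑ x with (lay x = 2 * r ∨ lay x = 2 * r + 1), γ x * ‖g x‖ ^ 2 := by
    rw [Finset.mul_sum]
    exact Finset.sum_le_sum fun x hx =>
      mul_le_mul_of_nonneg_right (hm x (Finset.mem_filter.1 hx).2) (sq_nonneg _)
  have h7 : 0 ≤ ∑ x with (lay x = 2 * r ∨ lay x = 2 * r + 1), γ x * ‖g x‖ ^ 2 :=
    Finset.sum_nonneg fun x _ => mul_nonneg (hγ x) (sq_nonneg _)
  set A := ∑ x with (lay x = 2 * r ∨ lay x = 2 * r + 1), γ x * ‖g x‖ ^ 2
  set T := ∑ x with (lay x = 2 * r ∨ lay x = 2 * r + 1), ‖g x‖ ^ 2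
  set L := η * ∑ x with lay x ≤ 2 * r, ‖g x‖ ^ 2
  have h8 : (1 - ‖Rf K e V γ η a B ξ‖ ^ 2) / 4 - L ≤ A + 2 * T := by
    rw [h1, h3]
    linarith
  have h9 : m * ((1 - ‖Rf K e V γ η a B ξ‖ ^ 2) / 4 - L) ≤ m * (A + 2 * T) :=
    mul_le_mul_of_nonneg_left h8 hm0
  nlinarith

end

end Pool.Agent.L0h56.CS
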