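import Pool.Agent.L0h56.CS.Tel

/-!
The telescoping sum.
-/

set_option autoImplicit false
set_option linter.unusedSectionVars false
set_option linter.unusedVariables false

open scoped BigOperators
open Complex MeasureTheory

namespace Pool.Agent.L0h56.CS

variable {J : Type*} [DecidableEq J] {ι : Type*} [Fintype ι] [DecidableEq ι]

/-- the revealed ball -/
def Bl (e : ι → J) (lay : ι → ℕ) (r : ℕ) : Finset J :=
  (Finset.univ.filter fun x => lay x < 2 * r).image e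

/-- a double layer -/
def Sl (e : ι → J) (lay : ι → ℕ) (r : ℕ) : Finset J :=
  (Finset.univ.filter fun x => lay x = 2 * r ∨ lay x = 2 * r + 1).image e

theorem mem_Bl {e : ι → J} (he : Function.Injective e) (lay : ι → ℕ) (r : ℕ) (x : ι) :
    e x ∈ Bl e lay r ↔ lay x < 2 * r := by
  unfold Bl
  rw [Finset.mem_image]
  constructor
  · rintro ⟨y, hy, hxy⟩
    rw [← he hxy]
    exact (Finset.mem_filter.1 hy).2
  · intro h
    exact ⟨x, by simp [h], rfl⟩

theorem mem_Sl {e : ι → J} (he : Function.Injective e) (lay : ι → ℕ) (r : ℕ) (x : ι) :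
    e x ∈ Sl e lay r ↔ (lay x = 2 * r ∨ lay x = 2 * r + 1) := by
  unfold Sl
  rw [Finset.mem_image]
  constructor
  · rintro ⟨y, hy, hxy⟩
    rw [← he hxy]
    exact (Finset.mem_filter.1 hy).2
  · intro h
    exact ⟨x, by simp [h], rfl⟩

theorem Bl_succ (e : ι → J) (lay : ι → ℕ) (r : ℕ) :
    Bl e lay (r + 1) = Bl e lay r ∪ Sl e lay r := by
  unfold Bl Sl
  rw [← Finset.image_union]
  congr 1
  ext x
  simp only [Finset.mem_filter, Finset.mem_univ, true_and, Finset.mem_union]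
  omega

theorem disj {e : ι → J} (he : Function.Injective e) (lay : ι → ℕ) (r : ℕ) :
    Disjoint (Sl e lay r) (Bl e lay r) := by
  rw [Finset.disjoint_left]
  intro j hj hj'
  unfold Sl at hj
  rw [Finset.mem_image] at hj
  obtain ⟨x, hx, rfl⟩ := hj
  have h1 := (mem_Bl he lay r x).1 hj'
  have h2 := (Finset.mem_filter.1 hx).2
  omega

/-- the law of the Cauchy variables -/
noncomputable abbrev PC (J : Type*) : Measure (J → ℝ) := Measure.infinitePi fun _ : J => cauchy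

section

variable {K : ι → ι → ℝ} (hK : ∀ x y, K x y = K y x) {e : ι → J} (he : Function.Injective e)
  {V γ : ι → ℝ} (hγ : ∀ x, 0 ≤ γ x) {η : ℝ} (hη : 0 < η) (a : ι)
  {lay : ι → ℕ} (hlay : ∀ x y, K x y ≠ 0 → lay x ≤ lay y + 1) (hD : ∀ x, ∑ y, |K x y| ≤ 4)

include hK hγ hη

theorem Iw_nonneg (B : Finset J) (r : ℕ) (ξ : J → ℝ) : 0 ≤ Iw K e V γ η a lay B r ξ :=
  mul_nonneg hη.le (Finset.sum_nonneg fun _ _ => sq_nonneg _)

theorem Aw_nonneg (B : Finset J) (r : ℕ) (ξ : J → ℝ) : 0 ≤ Aw K e V γ η a lay B r ξ :=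
  Finset.sum_nonneg fun x _ => mul_nonneg (hγ x) (sq_nonneg _)

theorem Iw_le (B : Finset J) (r : ℕ) (ξ : J → ℝ) : Iw K e V γ η a lay B r ξ ≤ 1 / 4 := by
  refine le_trans ?_ (sum_le hK (e := e) (V := V) hγ hη a B ξ)
  unfold Iw
  rw [Finset.mul_sum]
  refine (Finset.sum_le_sum fun x _ => ?_).trans (Finset.sum_le_sum_of_subset_of_nonneg
    (Finset.filter_subset _ _) fun x _ _ => mul_nonneg (ab_pos hγ hη B x).le (sq_nonneg _))
  refine mul_le_mul_of_nonneg_right ?_ (sq_nonneg _)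
  unfold ab
  split_ifs
  · linarith
  · have := hγ x; linarith

include he

theorem Aw_le (r : ℕ) (ξ : J → ℝ) : Aw K e V γ η a lay (Bl e lay r) r ξ ≤ 1 / 4 := by
  refine le_trans ?_ (sum_le hK (e := e) (V := V) hγ hη a (Bl e lay r) ξ)
  unfold Aw
  refine (Finset.sum_le_sum fun x hx => ?_).trans (Finset.sum_le_sum_of_subset_of_nonneg
    (Finset.filter_subset _ _) fun x _ _ => mul_nonneg (ab_pos hγ hη _ x).le (sq_nonneg _))
  refine mul_le_mul_of_nonneg_right ?_ (sq_nonneg _)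
  unfold ab
  have h2 := (Finset.mem_filter.1 hx).2
  rw [if_neg (fun h => by have := (mem_Bl he lay r x).1 h; omega)]
  linarith

theorem meas_Iw (B : Finset J) (r : ℕ) : Measurable (Iw K e V γ η a lay B r) := by
  unfold Iw
  exact measurable_const.mul (Finset.measurable_sum _ fun x _ =>
    (meas_gg hK he hγ hη a B x).norm.pow_const 2)

theorem meas_Aw (B : Finset J) (r : ℕ) : Measurable (Aw K e V γ η a lay B r) := by
  unfold Aw
  exact Finset.measurable_sum _ fun x _ =>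
    measurable_const.mul ((meas_gg hK he hγ hη a B x).norm.pow_const 2)

theorem int_Iw (B : Finset J) (r : ℕ) : Integrable (Iw K e V γ η a lay B r) (PC J) := by
  refine Integrable.of_bound (C := 1 / 4) (meas_Iw hK he hγ hη a B r).aestronglyMeasurable
    (Filter.Eventually.of_forall fun ξ => ?_)
  rw [Real.norm_of_nonneg (Iw_nonneg hK hγ hη a B r ξ)]
  exact Iw_le hK hγ hη a B r ξ

theorem int_Aw (r : ℕ) : Integrable (Aw K e V γ η a lay (Bl e lay r) r) (PC J) := by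
  refine Integrable.of_bound (C := 1 / 4) (meas_Aw hK he hγ hη a _ r).aestronglyMeasurable
    (Filter.Eventually.of_forall fun ξ => ?_)
  rw [Real.norm_of_nonneg (Aw_nonneg hK hγ hη a _ r ξ)]
  exact Aw_le hK he hγ hη a r ξ

theorem int_Rf (B : Finset J) : Integrable (fun ξ => ‖Rf K e V γ η a B ξ‖ ^ 2) (PC J) := by
  refine Integrable.of_bound (C := 1)
    (((mart hK he hγ hη a).meas B).norm.pow_const 2).aestronglyMeasurable
    (Filter.Eventually.of_forall fun ξ => ?_)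
  rw [Real.norm_of_nonneg (sq_nonneg _)]
  have := Rf_le hK (e := e) (V := V) hγ hη a B ξ
  exact pow_le_one₀ (norm_nonneg _) this

include hlay hD

theorem step {r : ℕ} (ha : lay a < 2 * r) {m : ℝ} (hm0 : 0 ≤ m) (hm1 : m ≤ 1)
    (hm : ∀ x, lay x = 2 * r ∨ lay x = 2 * r + 1 → m ≤ γ x) {c : ℝ} (hc : 0 < c)
    (hcard : ((Finset.univ.filter fun x => lay x = 2 * r ∨ lay x = 2 * r + 1).card : ℝ) ≤ c)
    {b : ℝ} (hb0 : 0 ≤ b) (hb : b ≤ m / 3 * ((1 - ∫ ξ, ‖Rf K e V γ η a (Bl e lay r) ξ‖ ^ 2 ∂(PC J)) / 4 -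
      ∫ ξ, Iw K e V γ η a lay (Bl e lay r) r ξ ∂(PC J))) :
    ∫ ξ, ‖Rf K e V γ η a (Bl e lay r) ξ‖ ^ 2 ∂(PC J) + b ^ 2 / c ≤
      ∫ ξ, ‖Rf K e V γ η a (Bl e lay (r + 1)) ξ‖ ^ 2 ∂(PC J) := by
  have hM := mart hK he (V := V) hγ hη a
  have h1 := hM.bessel (Sl e lay r) (disj he lay r)
  rw [← Bl_succ] at h1
  refine le_trans ?_ h1
  gcongr
  set B := Bl e lay r with hBdef
  -- the sum over the wall
  have h2 : ∑ j ∈ Sl e lay r, ∫ ξ, ‖Rf K e V γ η a (insert j B) ξ - Rf K e V γ η a B ξ‖ ^ 2 ∂(PC J) =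
      ∑ y with (lay y = 2 * r ∨ lay y = 2 * r + 1),
        ∫ ξ, ‖Rf K e V γ η a (insert (e y) B) ξ - Rf K e V γ η a B ξ‖ ^ 2 ∂(PC J) := by
    unfold Sl
    rw [Finset.sum_image fun x _ y _ h => he h]
  rw [h2]
  have hnot : ∀ y, (lay y = 2 * r ∨ lay y = 2 * r + 1) → e y ∉ B := by
    intro y hy h
    have := (mem_Bl he lay r y).1 h
    omega
  have hb4 : ∀ y, (lay y = 2 * r ∨ lay y = 2 * r + 1) → ∀ ξ,
      γ y * ‖gg K e V γ η a B ξ y‖ ^ 2 ≤ 1 / 4 := by
    intro y hy ξ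
    refine le_trans ?_ (Aw_le hK he (V := V) hγ hη a (lay := lay) r ξ)
    unfold Aw
    exact Finset.single_le_sum (f := fun x => γ x * ‖gg K e V γ η a B ξ x‖ ^ 2)
      (fun x _ => mul_nonneg (hγ x) (sq_nonneg _)) (by simp [hy])
  have hint4 : ∀ y ∈ (Finset.univ.filter fun y => lay y = 2 * r ∨ lay y = 2 * r + 1),
      Integrable (fun ξ => (γ y * ‖gg K e V γ η a B ξ y‖ ^ 2) ^ 2) (PC J) := by
    intro y hy
    refine Integrable.of_bound (C := (1 / 4) ^ 2)
      ((measurable_const.mul ((meas_gg hK he hγ hη a B y).norm.pow_const 2)).pow_const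
        2).aestronglyMeasurable
      (Filter.Eventually.of_forall fun ξ => ?_)
    rw [Real.norm_of_nonneg (sq_nonneg _)]
    exact pow_le_pow_left₀ (mul_nonneg (hγ y) (sq_nonneg _)) (hb4 y (Finset.mem_filter.1 hy).2 ξ) 2
  have h3 : ∑ y with (lay y = 2 * r ∨ lay y = 2 * r + 1),
        ∫ ξ, (γ y * ‖gg K e V γ η a B ξ y‖ ^ 2) ^ 2 ∂(PC J) ≤
      ∑ y with (lay y = 2 * r ∨ lay y = 2 * r + 1),
        ∫ ξ, ‖Rf K e V γ η a (insert (e y) B) ξ - Rf K e V γ η a B ξ‖ ^ 2 ∂(PC J) := by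
    refine Finset.sum_le_sum fun y hy => ?_
    refine integral_mono (hint4 y hy) ?_ fun ξ => ?_
    · refine Integrable.of_bound (C := 2 ^ 2)
        (((hM.meas _).sub (hM.meas _)).norm.pow_const 2).aestronglyMeasurable
        (Filter.Eventually.of_forall fun ξ => ?_)
      rw [Real.norm_of_nonneg (sq_nonneg _)]
      refine pow_le_pow_left₀ (norm_nonneg _) ?_ 2
      refine (norm_sub_le _ _).trans ?_
      have := Rf_le hK (e := e) (V := V) hγ hη a B ξ
      have := Rf_le hK (e := e) (V := V) hγ hη a (insert (e y) B) ξ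
      linarith
    · exact pow_le_pow_left₀ (mul_nonneg (hγ y) (sq_nonneg _))
        (diff_ge hK he hγ hη a y (hnot y (Finset.mem_filter.1 hy).2) ξ) 2
  refine le_trans ?_ h3
  rw [← integral_finsetSum _ hint4]
  -- pointwise lower bound
  have h5 : ∀ ξ, (2 * b * Aw K e V γ η a lay B r ξ - b ^ 2) / c ≤
      ∑ y with (lay y = 2 * r ∨ lay y = 2 * r + 1), (γ y * ‖gg K e V γ η a B ξ y‖ ^ 2) ^ 2 := by
    intro ξ
    rw [div_le_iff₀ hc]
    have h6 := sq_sum_le_card_mul_sum_sq (s := Finset.univ.filter fun y => lay y = 2 * r ∨ lay y = 2 * r + 1)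
      (f := fun y => γ y * ‖gg K e V γ η a B ξ y‖ ^ 2)
    have h7 : 0 ≤ ∑ y with (lay y = 2 * r ∨ lay y = 2 * r + 1), (γ y * ‖gg K e V γ η a B ξ y‖ ^ 2) ^ 2 :=
      Finset.sum_nonneg fun _ _ => sq_nonneg _
    have h8 : (Aw K e V γ η a lay B r ξ) ^ 2 ≤
      c * ∑ y with (lay y = 2 * r ∨ lay y = 2 * r + 1), (γ y * ‖gg K e V γ η a B ξ y‖ ^ 2) ^ 2 := by
      unfold Aw
      exact h6.trans (mul_le_mul_of_nonneg_right hcard h7)
    nlinarith [sq_nonneg (Aw K e V γ η a lay B r ξ - b)]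
  have hintA := int_Aw hK he (V := V) hγ hη a (lay := lay) r
  have h9 : ∫ ξ, (2 * b * Aw K e V γ η a lay B r ξ - b ^ 2) / c ∂(PC J) ≤
      ∫ ξ, ∑ y with (lay y = 2 * r ∨ lay y = 2 * r + 1), (γ y * ‖gg K e V γ η a B ξ y‖ ^ 2) ^ 2 ∂(PC J) := by
    refine integral_mono ?_ (integrable_finsetSum _ hint4) h5
    exact ((hintA.const_mul _).sub (integrable_const _)).div_const _
  refine le_trans ?_ h9
  rw [integral_div, integral_sub (hintA.const_mul _) (integrable_const _), integral_const_mul,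
    integral_const]
  simp only [probReal_univ, one_smul]
  have h10 : b ≤ ∫ ξ, Aw K e V γ η a lay B r ξ ∂(PC J) := by
    refine hb.trans ?_
    have hI := int_Iw hK he (V := V) hγ hη a (lay := lay) B r
    have hR := int_Rf hK he (V := V) hγ hη a B
    have hR1 : Integrable (fun ξ => 1 - ‖Rf K e V γ η a B ξ‖ ^ 2) (PC J) :=
      (integrable_const _).sub hR
    have hR4 : Integrable (fun ξ => (1 - ‖Rf K e V γ η a B ξ‖ ^ 2) / 4) (PC J) := hR1.div_const 4
    have h11 : ∫ ξ, m / 3 * ((1 - ‖Rf K e V γ η a B ξ‖ ^ 2) / 4 - Iw K e V γ η a lay B r ξ) ∂(PC J) ≤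
        ∫ ξ, Aw K e V γ η a lay B r ξ ∂(PC J) := by
      refine integral_mono ((hR4.sub hI).const_mul _) hintA fun ξ => ?_
      have := wall hK (e := e) (V := V) hγ hη a hlay hD ha (mem_Bl he lay r) hm0 hm1 hm ξ
      linarith
    rw [integral_const_mul, integral_sub hR4 hI,
      integral_div, integral_sub (integrable_const _) hR, integral_const] at h11
    simpa using h11
  gcongr
  nlinarith

/-- the telescoping sum -/
theorem tele {r0 : ℕ} (ha : lay a < 2 * r0) {m : ℕ → ℝ} (hm0 : ∀ r, 0 ≤ m r) (hm1 : ∀ r, m r ≤ 1)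
    (hm : ∀ x r, lay x = 2 * r ∨ lay x = 2 * r + 1 → m r ≤ γ x)
    (hcard : ∀ r : ℕ, ((Finset.univ.filter fun x => lay x = 2 * r ∨ lay x = 2 * r + 1).card : ℝ) ≤
      32 * (r + 1)) {U : Finset J} (hU : ∀ x, e x ∈ U) {β : ℝ} (hβ : 0 ≤ β) (R : ℕ)
    (hb : ∀ r < R, β ≤ (1 - ∫ ξ, ‖Rf K e V γ η a U ξ‖ ^ 2 ∂(PC J)) / 4 -
      ∫ ξ, Iw K e V γ η a lay (Bl e lay r) r ξ ∂(PC J)) :
    β ^ 2 * ∑ r ∈ Finset.Ico r0 R, m r ^ 2 / (288 * (r + 1)) ≤ 1 := by
  have hM := mart hK he (V := V) hγ hη a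
  have hUB : ∀ r, Bl e lay r ⊆ U := by
    intro r j hj
    unfold Bl at hj
    rw [Finset.mem_image] at hj
    obtain ⟨x, _, rfl⟩ := hj
    exact hU x
  have key : ∀ R' : ℕ, r0 ≤ R' → R' ≤ R →
      β ^ 2 * ∑ r ∈ Finset.Ico r0 R', m r ^ 2 / (288 * (r + 1)) ≤
        ∫ ξ, ‖Rf K e V γ η a (Bl e lay R') ξ‖ ^ 2 ∂(PC J) := by
    intro R' hR'
    induction R', hR' using Nat.le_induction with
    | base =>
      intro _
      rw [Finset.Ico_self, Finset.sum_empty, mul_zero]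
      exact integral_nonneg fun _ => sq_nonneg _
    | succ n hn ih =>
      intro hnR
      have h1 := ih (by omega)
      rw [Finset.sum_Ico_succ_top hn, mul_add]
      have h2 := step hK he (V := V) hγ hη a hlay hD (r := n) (by omega) (hm0 n) (hm1 n)
        (fun x hx => hm x n hx) (c := 32 * (n + 1)) (by positivity) (hcard n)
        (b := m n / 3 * β) (by have := hm0 n; positivity) (by
          refine mul_le_mul_of_nonneg_left ?_ (by have := hm0 n; positivity)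
          refine (hb n (by omega)).trans ?_
          have h3 := hM.mono (hUB n)
          linarith)
      have h4 : (m n / 3 * β) ^ 2 / (32 * ((n : ℝ) + 1)) =
          β ^ 2 * (m n ^ 2 / (288 * ((n : ℝ) + 1))) := by
        field_simp
        ring
      rw [h4] at h2
      linarith
  rcases le_or_gt r0 R with h | h
  · refine (key R h le_rfl).trans ?_
    have h1 : ∫ ξ, ‖Rf K e V γ η a (Bl e lay R) ξ‖ ^ 2 ∂(PC J) ≤ ∫ ξ, (1 : ℝ) ∂(PC J) := by
      refine integral_mono (int_Rf hK he hγ hη a _) (integrable_const _) fun ξ => ?_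
      exact pow_le_one₀ (norm_nonneg _) (Rf_le hK (e := e) (V := V) hγ hη a _ ξ)
    simpa using h1
  · rw [Finset.Ico_eq_empty (by omega), Finset.sum_empty, mul_zero]
    exact zero_le_one

end

end Pool.Agent.L0h56.CS
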