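import Pool.Agent.L0h56.CS.Tel2

/-!
Averages over one uniformly distributed potential value.
-/

set_option autoImplicit false
set_option linter.unusedSectionVars false
set_option linter.unusedVariables false

open scoped BigOperators
open Complex MeasureTheory

namespace Pool.Agent.L0h56.CS

/-- the uniform law on `[-c, c]` -/
noncomputable def unif (c : ℝ) : Measure ℝ :=
  ENNReal.ofReal (1 / (2 * c)) • volume.restrict (Set.Icc (-c) c)

theorem unif_prob (c : ℝ) (hc : 0 < c) : IsProbabilityMeasure (unif c) := by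
  constructor
  unfold unif
  rw [Measure.smul_apply, Measure.restrict_apply MeasurableSet.univ, Set.univ_inter,
    Real.volume_Icc, smul_eq_mul, ← ENNReal.ofReal_mul (by positivity)]
  have : 1 / (2 * c) * (c - -c) = 1 := by
    field_simp
    ring
  rw [this, ENNReal.ofReal_one]

theorem unif_le (c : ℝ) : unif c ≤ ENNReal.ofReal (1 / (2 * c)) • (volume : Measure ℝ) := by
  rw [Measure.le_iff]
  intro S hS
  unfold unif
  rw [Measure.smul_apply, Measure.smul_apply, smul_eq_mul, smul_eq_mul]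
  exact mul_le_mul' le_rfl (Measure.restrict_apply_le _ _)

theorem unif_int_le {c : ℝ} (hc : 0 < c) {f : ℝ → ℝ} (hf : Integrable f) (h0 : ∀ s, 0 ≤ f s) :
    ∫ s, f s ∂(unif c) ≤ 1 / (2 * c) * ∫ s, f s := by
  have h1 : ∫ s, f s ∂(unif c) = 1 / (2 * c) * ∫ s in Set.Icc (-c) c, f s := by
    unfold unif
    rw [integral_smul_measure, ENNReal.toReal_ofReal (by positivity), smul_eq_mul]
  rw [h1]
  refine mul_le_mul_of_nonneg_left ?_ (by positivity)
  exact setIntegral_le_integral hf (Filter.Eventually.of_forall h0)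

theorem lor_integrable {u v : ℝ} (hv : 0 < v) : Integrable fun s : ℝ => 2 * v / ((s - u) ^ 2 + v ^ 2) := by
  have h1 : Integrable fun s : ℝ => (1 + s ^ 2)⁻¹ := integrable_inv_one_add_sq
  have h2 := (h1.comp_div hv.ne').comp_sub_right u
  have h3 := h2.const_mul (2 / v)
  refine h3.congr (Filter.Eventually.of_forall fun s => ?_)
  simp only
  have h4 : (0:ℝ) < (s - u) ^ 2 + v ^ 2 := by positivity
  have h5 : (0:ℝ) < 1 + ((s - u) / v) ^ 2 := by positivity
  rw [← div_eq_mul_inv, div_div, div_eq_div_iff (by positivity) (by positivity)]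
  field_simp
  ring

theorem lor_integral {u v : ℝ} (hv : 0 < v) : ∫ s : ℝ, 2 * v / ((s - u) ^ 2 + v ^ 2) = 2 * Real.pi := by
  have h1 : ∀ s : ℝ, 2 * v / ((s - u) ^ 2 + v ^ 2) = 2 / v * (1 + ((s - u) / v) ^ 2)⁻¹ := by
    intro s
    have h4 : (0:ℝ) < (s - u) ^ 2 + v ^ 2 := by positivity
    have h5 : (0:ℝ) < 1 + ((s - u) / v) ^ 2 := by positivity
    rw [← div_eq_mul_inv, div_div, div_eq_div_iff (by positivity) (by positivity)]
    field_simp
    ring
  simp only [h1]
  rw [integral_const_mul, integral_sub_right_eq_self (fun s : ℝ => (1 + (s / v) ^ 2)⁻¹) u,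
    Measure.integral_comp_div (fun s : ℝ => (1 + s ^ 2)⁻¹) v, integral_univ_inv_one_add_sq,
    abs_of_pos hv, smul_eq_mul]
  field_simp

variable {ι : Type*} [Fintype ι] [DecidableEq ι]

/-- real shift of a diagonal entry -/
theorem sh_neg {p : ι → ℂ} (hp : ∀ x, (p x).im < 0) (x : ι) (s : ℝ) : (p x + (s : ℂ)).im < 0 := by
  rw [add_im, ofReal_im, add_zero]
  exact hp x

theorem sh_col {K : ι → ι → ℝ} (hK : ∀ x y, K x y = K y x) {p : ι → ℂ}
    (hp : ∀ x, (p x).im < 0) (x a : ι) (s : ℝ) :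
    Gr K (Function.update p x (p x + (s : ℂ))) x a = Gr K p x a / (1 + s * Gr K p x x) := by
  have hne := one_add_ne hK hp x (s : ℂ) (sh_neg hp x s)
  rw [Gr_update hK hp x (s : ℂ) (sh_neg hp x s) x a, eq_div_iff hne, sub_mul,
    div_mul_cancel₀ _ hne]
  ring

/-- the pole -/
theorem pole {K : ι → ι → ℝ} (hK : ∀ x y, K x y = K y x) {p : ι → ℂ}
    (hp : ∀ x, (p x).im < 0) (x : ι) :
    ∃ u v : ℝ, 0 < v ∧ ∀ s : ℝ, 1 + (s : ℂ) * Gr K p x x = Gr K p x x * ((s - u : ℝ) - v * I) := by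
  set g := Gr K p x x with hg
  have hg0 : g ≠ 0 := Gr_ne hK hp x
  have him : 0 < g.im := by
    have h1 := im_Gr_ge hK hp x x
    have h2 : 0 < ‖g‖ ^ 2 := by positivity
    have h3 : 0 < -(p x).im := by have := hp x; linarith
    have h4 := mul_pos h3 h2
    exact lt_of_lt_of_le h4 h1
  refine ⟨(-g⁻¹).re, (-g⁻¹).im, ?_, fun s => ?_⟩
  · rw [neg_im, inv_im, neg_div, neg_neg]
    exact div_pos him (Complex.normSq_pos.2 hg0)
  · have h1 : (((-g⁻¹).re : ℝ) : ℂ) + ((-g⁻¹).im : ℝ) * I = -g⁻¹ := Complex.re_add_im _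
    have h2 : ((s - (-g⁻¹).re : ℝ) : ℂ) - ((-g⁻¹).im : ℝ) * I = s - (-g⁻¹) := by
      rw [ofReal_sub]
      linear_combination (-1 : ℂ) * h1
    rw [h2]
    field_simp
    ring

theorem norm_den (u v s : ℝ) : ‖((s - u : ℝ) : ℂ) - v * I‖ ^ 2 = (s - u) ^ 2 + v ^ 2 := by
  rw [← Complex.normSq_eq_norm_sq, Complex.normSq_apply]
  simp
  ring

/-- the column as a function of one potential value -/
theorem col_bound {K : ι → ι → ℝ} (hK : ∀ x y, K x y = K y x) {p : ι → ℂ}
    (hp : ∀ x, (p x).im < 0) (x a : ι)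
    (h1 : ∀ s : ℝ, ‖Gr K (Function.update p x (p x + (s : ℂ))) a a‖ ≤ 1) :
    ∃ u v : ℝ, 0 < v ∧ ∀ s : ℝ, ‖Gr K (Function.update p x (p x + (s : ℂ))) x a‖ ^ 2 ≤
      2 * v / ((s - u) ^ 2 + v ^ 2) := by
  obtain ⟨u, v, hv, hs⟩ := pole hK hp x
  refine ⟨u, v, hv, ?_⟩
  set g := Gr K p x x with hg
  set h := Gr K p x a with hh
  have hg0 : g ≠ 0 := Gr_ne hK hp x
  have hvC : (v : ℂ) ≠ 0 := by exact_mod_cast hv.ne'
  have key : ‖h / g‖ ^ 2 ≤ 2 * v := by
    have e : ∀ s : ℝ, Gr K (Function.update p x (p x + (s : ℂ))) a a =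
        Gr K p a a - s * h ^ 2 / (g * ((s - u : ℝ) - v * I)) := by
      intro s
      rw [Gr_update hK hp x (s : ℂ) (sh_neg hp x s) a a, ← hs s, Gr_symm hK p a x]
      ring
    have e1 := e (u + v)
    have e2 := e (u - v)
    have d1 : (((u + v - u : ℝ) : ℂ) - v * I) = v * (1 - I) := by push_cast; ring
    have d2 : (((u - v - u : ℝ) : ℂ) - v * I) = -(v * (1 + I)) := by push_cast; ring
    rw [d1] at e1
    rw [d2] at e2
    have n1 : (1 - I : ℂ) ≠ 0 := by
      intro h0
      have := congrArg Complex.re h0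
      simp at this
    have n2 : (1 + I : ℂ) ≠ 0 := by
      intro h0
      have := congrArg Complex.re h0
      simp at this
    have d3 : (1 - I) * (1 + I) = (2 : ℂ) := by
      linear_combination -Complex.I_sq
    have h0 : g * ((u : ℂ) + v * I) = -1 := by
      have := hs 0
      push_cast at this
      linear_combination this
    have f1 : ((u + v : ℝ) : ℂ) * h ^ 2 / (g * (v * (1 - I))) =
        (u + v) * h ^ 2 * (1 + I) / (2 * g * v) := by
      rw [div_eq_div_iff (by simp [hg0, hvC, n1]) (by simp [hg0, hvC])]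
      push_cast
      linear_combination (-((u : ℂ) + v) * h ^ 2 * g * v) * d3
    have f2 : ((u - v : ℝ) : ℂ) * h ^ 2 / (g * (-(v * (1 + I)))) =
        -((u - v) * h ^ 2 * (1 - I) / (2 * g * v)) := by
      rw [← neg_div, div_eq_div_iff (by simp [hg0, hvC, n2]) (by simp [hg0, hvC])]
      push_cast
      linear_combination (-((u : ℂ) - v) * h ^ 2 * g * v) * d3
    have hdiff : Gr K (Function.update p x (p x + ((u + v : ℝ) : ℂ))) a a -
        Gr K (Function.update p x (p x + ((u - v : ℝ) : ℂ))) a a = (h / g) ^ 2 / v := by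
      rw [e1, e2, f1, f2]
      field_simp
      linear_combination (-2 * h ^ 2) * h0
    have hn : ‖(h / g) ^ 2 / (v : ℂ)‖ ≤ 2 := by
      rw [← hdiff]
      refine (norm_sub_le _ _).trans ?_
      have := h1 (u + v)
      have := h1 (u - v)
      linarith
    rw [norm_div, norm_pow, Complex.norm_real, Real.norm_of_nonneg hv.le, div_le_iff₀ hv] at hn
    exact hn
  intro s
  rw [sh_col hK hp x a s, hs s, norm_div, norm_mul, div_pow, mul_pow, norm_den]
  have hgn : 0 < ‖g‖ ^ 2 := by positivity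
  rw [norm_div, div_pow, div_le_iff₀ hgn] at key
  rw [div_le_div_iff₀ (by positivity) (by positivity)]
  have : 0 < (s - u) ^ 2 + v ^ 2 := by positivity
  nlinarith [mul_le_mul_of_nonneg_right key this.le]

end Pool.Agent.L0h56.CS
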